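import Mathlib

/-!
Bounded formulas over the natural numbers (the class `Delta0`) and functions with
`Delta0` graph and polynomial growth (`DFun`).
-/

set_option autoImplicit false

namespace Pool.Agent.Grz

open MvPolynomial

/-- `Delta0 n P`: the predicate `P` on `ℕ^n` is definable by a bounded formula. Atomic formulas
compare polynomials with natural coefficients, quantifiers are bounded by such polynomials. -/
inductive Delta0 : (n : ℕ) → ((Fin n → ℕ) → Prop) → Prop
  | eq {n : ℕ} (p q : MvPolynomial (Fin n) ℕ) :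
      Delta0 n (fun v => MvPolynomial.eval v p = MvPolynomial.eval v q)
  | le {n : ℕ} (p q : MvPolynomial (Fin n) ℕ) :
      Delta0 n (fun v => MvPolynomial.eval v p ≤ MvPolynomial.eval v q)
  | not {n : ℕ} {P : (Fin n → ℕ) → Prop} : Delta0 n P → Delta0 n (fun v => ¬ P v)
  | and {n : ℕ} {P Q : (Fin n → ℕ) → Prop} :
      Delta0 n P → Delta0 n Q → Delta0 n (fun v => P v ∧ Q v)
  | bex {n : ℕ} {P : (Fin (n + 1) → ℕ) → Prop} (p : MvPolynomial (Fin n) ℕ) :
      Delta0 (n + 1) P →
      Delta0 n (fun v => ∃ x, x ≤ MvPolynomial.eval v p ∧ P (Matrix.vecCons x v))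

theorem Delta0.of_iff {n : ℕ} {P Q : (Fin n → ℕ) → Prop} (h : Delta0 n P)
    (hPQ : ∀ v, Q v ↔ P v) : Delta0 n Q := by
  have : Q = P := funext fun v => propext (hPQ v)
  rw [this]; exact h

theorem Delta0.or {n : ℕ} {P Q : (Fin n → ℕ) → Prop} (hP : Delta0 n P) (hQ : Delta0 n Q) :
    Delta0 n (fun v => P v ∨ Q v) := by
  refine ((hP.not.and hQ.not).not).of_iff ?_
  intro v; tauto

theorem Delta0.imp {n : ℕ} {P Q : (Fin n → ℕ) → Prop} (hP : Delta0 n P) (hQ : Delta0 n Q) :
    Delta0 n (fun v => P v → Q v) := by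
  refine ((hP.and hQ.not).not).of_iff ?_
  intro v; tauto

theorem Delta0.iff {n : ℕ} {P Q : (Fin n → ℕ) → Prop} (hP : Delta0 n P) (hQ : Delta0 n Q) :
    Delta0 n (fun v => (P v ↔ Q v)) := by
  refine ((hP.imp hQ).and (hQ.imp hP)).of_iff ?_
  intro v; tauto

/-- Monotonicity of polynomials with natural coefficients. -/
theorem eval_mono {n : ℕ} (p : MvPolynomial (Fin n) ℕ) {v w : Fin n → ℕ} (h : ∀ i, v i ≤ w i) :
    MvPolynomial.eval v p ≤ MvPolynomial.eval w p := by
  induction p using MvPolynomial.induction_on with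
  | C a => simp
  | add p q hp hq => simp only [map_add]; exact Nat.add_le_add hp hq
  | mul_X p i hp => simp only [map_mul, eval_X]; exact Nat.mul_le_mul hp (h i)

/-- Evaluation of a substituted polynomial. -/
theorem eval_bind {m n : ℕ} (q : Fin m → MvPolynomial (Fin n) ℕ) (v : Fin n → ℕ)
    (s : MvPolynomial (Fin m) ℕ) :
    MvPolynomial.eval v (bind₁ q s) = MvPolynomial.eval (fun i => MvPolynomial.eval v (q i)) s := by
  induction s using MvPolynomial.induction_on with
  | C a => simp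
  | add a b ha hb => simp [ha, hb]
  | mul_X a i ha => simp [ha]

/-- Substitution of polynomials for the variables. -/
theorem Delta0.substPoly {m : ℕ} {P : (Fin m → ℕ) → Prop} (hP : Delta0 m P) :
    ∀ {n : ℕ} (q : Fin m → MvPolynomial (Fin n) ℕ),
      Delta0 n (fun v => P (fun i => MvPolynomial.eval v (q i))) := by
  induction hP with
  | eq p r =>
    intro n q
    refine (Delta0.eq (bind₁ q p) (bind₁ q r)).of_iff ?_
    intro v
    rw [eval_bind, eval_bind]
  | le p r =>
    intro n q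
    refine (Delta0.le (bind₁ q p) (bind₁ q r)).of_iff ?_
    intro v
    rw [eval_bind, eval_bind]
  | not _ ih => intro n q; exact (ih q).not
  | and _ _ ih1 ih2 => intro n q; exact (ih1 q).and (ih2 q)
  | @bex m P p _ ih =>
    intro n q
    let q' : Fin (m + 1) → MvPolynomial (Fin (n + 1)) ℕ :=
      Fin.cons (X 0) (fun i => rename Fin.succ (q i))
    have h1 := ih q'
    refine (Delta0.bex (bind₁ q p) h1).of_iff ?_
    intro v
    rw [eval_bind]
    have h2 : ∀ x : ℕ, (fun i => MvPolynomial.eval (Matrix.vecCons x v) (q' i))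
        = Matrix.vecCons x (fun i => MvPolynomial.eval v (q i)) := by
      intro x
      funext i
      refine Fin.cases ?_ (fun j => ?_) i
      · simp [q']
      · simp only [q', Fin.cons_succ, Matrix.cons_val_succ, eval_rename]
        congr 1
    simp only [h2]

/-- Renaming of variables. -/
theorem Delta0.rename {m n : ℕ} {P : (Fin m → ℕ) → Prop} (hP : Delta0 m P)
    (σ : Fin m → Fin n) : Delta0 n (fun v => P (fun i => v (σ i))) := by
  refine (hP.substPoly (fun i => X (σ i))).of_iff ?_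
  intro v; simp

/-- Functions with `Delta0` graph and polynomial growth. -/
structure DFun (n : ℕ) (f : (Fin n → ℕ) → ℕ) : Prop where
  graph : Delta0 (n + 1) (fun w => w 0 = f (fun i => w i.succ))
  bound : ∃ p : MvPolynomial (Fin n) ℕ, ∀ v, f v ≤ MvPolynomial.eval v p

theorem DFun.ofPoly {n : ℕ} (p : MvPolynomial (Fin n) ℕ) :
    DFun n (fun v => MvPolynomial.eval v p) := by
  refine ⟨?_, p, fun v => le_rfl⟩
  refine (Delta0.eq (X 0) (MvPolynomial.rename Fin.succ p)).of_iff ?_
  intro v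
  simp only [eval_X, eval_rename]
  exact Iff.rfl

theorem DFun.const {n : ℕ} (c : ℕ) : DFun n (fun _ => c) := by
  simpa using DFun.ofPoly (n := n) (C c)

theorem DFun.proj {n : ℕ} (i : Fin n) : DFun n (fun v => v i) := by
  simpa using DFun.ofPoly (n := n) (X i)

/-- Weakening by one variable in front. -/
theorem DFun.weak {n : ℕ} {f : (Fin n → ℕ) → ℕ} (hf : DFun n f) :
    DFun (n + 1) (fun w => f (fun i => w i.succ)) := by
  obtain ⟨hg, p, hp⟩ := hf
  refine ⟨?_, MvPolynomial.rename Fin.succ p, ?_⟩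
  · have := hg.rename (n := n + 1 + 1) (Fin.cons 0 (fun i => i.succ.succ))
    refine this.of_iff ?_
    intro w
    simp [Fin.cons_succ]
  · intro w
    rw [eval_rename]
    exact hp _

/-- Bounded existential quantification where the bound is a `DFun`. First the auxiliary
version: the value of a `DFun` may be used in a `Delta0` predicate. -/
theorem Delta0.useFun {n : ℕ} {f : (Fin n → ℕ) → ℕ} (hf : DFun n f)
    {P : (Fin (n + 1) → ℕ) → Prop} (hP : Delta0 (n + 1) P) :
    Delta0 n (fun v => P (Matrix.vecCons (f v) v)) := by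
  obtain ⟨hg, p, hp⟩ := hf
  refine (Delta0.bex p (hg.and hP)).of_iff ?_
  intro v
  constructor
  · intro h
    exact ⟨f v, hp v, by simp, h⟩
  · rintro ⟨x, _, h1, h2⟩
    simp only [Matrix.cons_val_zero, Matrix.cons_val_succ] at h1
    rw [h1] at h2
    exact h2

theorem DFun.add {n : ℕ} {f g : (Fin n → ℕ) → ℕ} (hf : DFun n f) (hg : DFun n g) :
    DFun n (fun v => f v + g v) := by
  obtain ⟨p, hp⟩ := hf.bound
  obtain ⟨q, hq⟩ := hg.bound
  refine ⟨?_, p + q, fun v => by simpa using Nat.add_le_add (hp v) (hq v)⟩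
  have h0 : Delta0 (n + 1 + 1 + 1)
      (fun u => u (Fin.succ (Fin.succ 0)) = u (Fin.succ 0) + u 0) := by
    refine (Delta0.eq (X (Fin.succ (Fin.succ 0))) (X (Fin.succ 0) + X 0)).of_iff ?_
    intro u; simp
  have h1 := Delta0.useFun (hg.weak.weak) h0
  have h2 := Delta0.useFun (hf.weak) h1
  refine h2.of_iff ?_
  intro w
  simp

theorem DFun.mul {n : ℕ} {f g : (Fin n → ℕ) → ℕ} (hf : DFun n f) (hg : DFun n g) :
    DFun n (fun v => f v * g v) := by
  obtain ⟨p, hp⟩ := hf.bound
  obtain ⟨q, hq⟩ := hg.bound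
  refine ⟨?_, p * q, fun v => by simpa using Nat.mul_le_mul (hp v) (hq v)⟩
  have h0 : Delta0 (n + 1 + 1 + 1)
      (fun u => u (Fin.succ (Fin.succ 0)) = u (Fin.succ 0) * u 0) := by
    refine (Delta0.eq (X (Fin.succ (Fin.succ 0))) (X (Fin.succ 0) * X 0)).of_iff ?_
    intro u; simp
  have h1 := Delta0.useFun (hg.weak.weak) h0
  have h2 := Delta0.useFun (hf.weak) h1
  refine h2.of_iff ?_
  intro w
  simp

theorem DFun.evalPoly {m n : ℕ} (p : MvPolynomial (Fin m) ℕ) {h : Fin m → (Fin n → ℕ) → ℕ}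
    (hh : ∀ i, DFun n (h i)) : DFun n (fun v => MvPolynomial.eval (fun i => h i v) p) := by
  induction p using MvPolynomial.induction_on with
  | C a => simpa using DFun.const (n := n) a
  | add a b ha hb => simpa using ha.add hb
  | mul_X a i ha => simpa using ha.mul (hh i)

theorem Delta0.eqFun {n : ℕ} {f g : (Fin n → ℕ) → ℕ} (hf : DFun n f) (hg : DFun n g) :
    Delta0 n (fun v => f v = g v) := by
  have h0 : Delta0 (n + 1 + 1) (fun u => u (Fin.succ 0) = u 0) := by
    refine (Delta0.eq (X (Fin.succ 0)) (X 0)).of_iff ?_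
    intro u; simp
  have h1 := Delta0.useFun (hg.weak) h0
  have h2 := Delta0.useFun hf h1
  refine h2.of_iff ?_
  intro w
  simp

theorem Delta0.leFun {n : ℕ} {f g : (Fin n → ℕ) → ℕ} (hf : DFun n f) (hg : DFun n g) :
    Delta0 n (fun v => f v ≤ g v) := by
  have h0 : Delta0 (n + 1 + 1) (fun u => u (Fin.succ 0) ≤ u 0) := by
    refine (Delta0.le (X (Fin.succ 0)) (X 0)).of_iff ?_
    intro u; simp
  have h1 := Delta0.useFun (hg.weak) h0
  have h2 := Delta0.useFun hf h1
  refine h2.of_iff ?_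
  intro w
  simp

theorem Delta0.ltFun {n : ℕ} {f g : (Fin n → ℕ) → ℕ} (hf : DFun n f) (hg : DFun n g) :
    Delta0 n (fun v => f v < g v) := by
  refine ((Delta0.leFun hg hf).not).of_iff ?_
  intro v; simp

/-- Substitution of `DFun`s for the variables of a `Delta0` predicate. -/
theorem Delta0.subst {m : ℕ} {P : (Fin m → ℕ) → Prop} (hP : Delta0 m P) :
    ∀ {n : ℕ} {h : Fin m → (Fin n → ℕ) → ℕ}, (∀ i, DFun n (h i)) →
      Delta0 n (fun v => P (fun i => h i v)) := by
  induction hP with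
  | eq p r =>
    intro n h hh
    exact Delta0.eqFun (DFun.evalPoly p hh) (DFun.evalPoly r hh)
  | le p r =>
    intro n h hh
    exact Delta0.leFun (DFun.evalPoly p hh) (DFun.evalPoly r hh)
  | not _ ih => intro n h hh; exact (ih hh).not
  | and _ _ ih1 ih2 => intro n h hh; exact (ih1 hh).and (ih2 hh)
  | @bex m P p _ ih =>
    intro n h hh
    have ht := DFun.evalPoly p hh
    obtain ⟨q, hq⟩ := ht.bound
    let h' : Fin (m + 1) → (Fin (n + 1) → ℕ) → ℕ :=
      Fin.cons (fun w => w 0) (fun i w => h i (fun j => w j.succ))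
    have hh' : ∀ i, DFun (n + 1) (h' i) := by
      intro i
      refine Fin.cases ?_ (fun j => ?_) i
      · exact DFun.proj 0
      · exact (hh j).weak
    have h1 := ih hh'
    have h2 := Delta0.leFun (DFun.proj (n := n + 1) 0) ht.weak
    refine (Delta0.bex q (h2.and h1)).of_iff ?_
    intro v
    have h3 : ∀ x : ℕ, (fun i => h' i (Matrix.vecCons x v))
        = Matrix.vecCons x (fun i => h i v) := by
      intro x
      funext i
      refine Fin.cases ?_ (fun j => ?_) i
      · simp [h']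
      · simp only [h', Fin.cons_succ, Matrix.cons_val_succ]
    simp only [h3, Matrix.cons_val_zero, Matrix.cons_val_succ]
    constructor
    · rintro ⟨x, hx, hPx⟩
      exact ⟨x, hx.trans (hq v), hx, hPx⟩
    · rintro ⟨x, _, hx, hPx⟩
      exact ⟨x, hx, hPx⟩

/-- Composition of `DFun`s. -/
theorem DFun.comp {m n : ℕ} {g : (Fin m → ℕ) → ℕ} (hg : DFun m g)
    {h : Fin m → (Fin n → ℕ) → ℕ} (hh : ∀ i, DFun n (h i)) :
    DFun n (fun v => g (fun i => h i v)) := by
  refine ⟨?_, ?_⟩
  · let h' : Fin (m + 1) → (Fin (n + 1) → ℕ) → ℕ :=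
      Fin.cons (fun w => w 0) (fun i w => h i (fun j => w j.succ))
    have hh' : ∀ i, DFun (n + 1) (h' i) := by
      intro i
      refine Fin.cases ?_ (fun j => ?_) i
      · exact DFun.proj 0
      · exact (hh j).weak
    refine (hg.graph.subst hh').of_iff ?_
    intro w
    simp [h']
  · obtain ⟨p, hp⟩ := hg.bound
    choose q hq using fun i => (hh i).bound
    refine ⟨bind₁ q p, fun v => ?_⟩
    rw [eval_bind]
    exact (hp _).trans (eval_mono p fun i => hq i v)

/-- Bounded existential quantifier with a `DFun` bound. -/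
theorem Delta0.bexFun {n : ℕ} {b : (Fin n → ℕ) → ℕ} (hb : DFun n b)
    {P : ℕ → (Fin n → ℕ) → Prop}
    (hP : Delta0 (n + 1) (fun w => P (w 0) (fun i => w i.succ))) :
    Delta0 n (fun v => ∃ x, x ≤ b v ∧ P x v) := by
  obtain ⟨q, hq⟩ := hb.bound
  have h2 := Delta0.leFun (DFun.proj (n := n + 1) 0) hb.weak
  refine (Delta0.bex q (h2.and hP)).of_iff ?_
  intro v
  simp only [Matrix.cons_val_zero, Matrix.cons_val_succ]
  constructor
  · rintro ⟨x, hx, hPx⟩
    exact ⟨x, hx.trans (hq v), hx, hPx⟩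
  · rintro ⟨x, _, hx, hPx⟩
    exact ⟨x, hx, hPx⟩

/-- Bounded universal quantifier with a `DFun` bound. -/
theorem Delta0.ballFun {n : ℕ} {b : (Fin n → ℕ) → ℕ} (hb : DFun n b)
    {P : ℕ → (Fin n → ℕ) → Prop}
    (hP : Delta0 (n + 1) (fun w => P (w 0) (fun i => w i.succ))) :
    Delta0 n (fun v => ∀ x, x ≤ b v → P x v) := by
  refine ((Delta0.bexFun (P := fun x v => ¬ P x v) hb hP.not).not).of_iff ?_
  intro v
  push Not
  rfl

/-- Introduction rule for `DFun`: a definable graph and a bound. -/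
theorem DFun.ofGraph {n : ℕ} {f b : (Fin n → ℕ) → ℕ} (hb : DFun n b) (hfb : ∀ v, f v ≤ b v)
    (hg : Delta0 (n + 1) (fun w => w 0 = f (fun i => w i.succ))) : DFun n f := by
  obtain ⟨p, hp⟩ := hb.bound
  exact ⟨hg, p, fun v => (hfb v).trans (hp v)⟩

theorem DFun.comp1 {n : ℕ} {g : ℕ → ℕ} (hg : DFun 1 (fun v => g (v 0)))
    {f : (Fin n → ℕ) → ℕ} (hf : DFun n f) : DFun n (fun v => g (f v)) :=
  hg.comp (h := fun _ => f) (fun _ => hf)

theorem DFun.comp2 {n : ℕ} {g : ℕ → ℕ → ℕ} (hg : DFun 2 (fun v => g (v 0) (v 1)))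
    {f₁ f₂ : (Fin n → ℕ) → ℕ} (h₁ : DFun n f₁) (h₂ : DFun n f₂) :
    DFun n (fun v => g (f₁ v) (f₂ v)) := by
  have := hg.comp (n := n) (h := ![f₁, f₂]) (by
    intro i
    fin_cases i
    · exact h₁
    · exact h₂)
  simpa using this

theorem Delta0.comp1 {n : ℕ} {P : ℕ → Prop} (hP : Delta0 1 (fun v => P (v 0)))
    {f : (Fin n → ℕ) → ℕ} (hf : DFun n f) : Delta0 n (fun v => P (f v)) :=
  hP.subst (h := fun _ => f) (fun _ => hf)

theorem Delta0.comp2 {n : ℕ} {P : ℕ → ℕ → Prop} (hP : Delta0 2 (fun v => P (v 0) (v 1)))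
    {f₁ f₂ : (Fin n → ℕ) → ℕ} (h₁ : DFun n f₁) (h₂ : DFun n f₂) :
    Delta0 n (fun v => P (f₁ v) (f₂ v)) := by
  have := hP.subst (n := n) (h := ![f₁, f₂]) (by
    intro i
    fin_cases i
    · exact h₁
    · exact h₂)
  simpa using this

theorem Delta0.comp3 {n : ℕ} {P : ℕ → ℕ → ℕ → Prop}
    (hP : Delta0 3 (fun v => P (v 0) (v 1) (v 2)))
    {f₁ f₂ f₃ : (Fin n → ℕ) → ℕ} (h₁ : DFun n f₁) (h₂ : DFun n f₂) (h₃ : DFun n f₃) :
    Delta0 n (fun v => P (f₁ v) (f₂ v) (f₃ v)) := by
  have := hP.subst (n := n) (h := ![f₁, f₂, f₃]) (by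
    intro i
    fin_cases i
    · exact h₁
    · exact h₂
    · exact h₃)
  simpa using this

theorem DFun.ite {n : ℕ} {P : (Fin n → ℕ) → Prop} (hP : Delta0 n P) {f g : (Fin n → ℕ) → ℕ}
    (hf : DFun n f) (hg : DFun n g) [∀ v, Decidable (P v)] :
    DFun n (fun v => if P v then f v else g v) := by
  refine DFun.ofGraph (hf.add hg) ?_ ?_
  · intro v; split_ifs <;> omega
  · have hP' := hP.rename (n := n + 1) (fun i => i.succ)
    have h1 := (hP'.and (Delta0.eqFun (DFun.proj (n := n + 1) 0) hf.weak)).or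
      (hP'.not.and (Delta0.eqFun (DFun.proj (n := n + 1) 0) hg.weak))
    refine h1.of_iff ?_
    intro w
    split_ifs with h <;> simp [h]

theorem DFun.sub {n : ℕ} {f g : (Fin n → ℕ) → ℕ} (hf : DFun n f) (hg : DFun n g) :
    DFun n (fun v => f v - g v) := by
  refine DFun.ofGraph hf (fun v => Nat.sub_le _ _) ?_
  have h0 := DFun.proj (n := n + 1) 0
  have h1 := ((Delta0.leFun hf.weak hg.weak).and (Delta0.eqFun h0 (DFun.const 0))).or
      ((Delta0.leFun hg.weak hf.weak).and (Delta0.eqFun (h0.add hg.weak) hf.weak))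
  refine h1.of_iff ?_
  intro w
  omega

theorem DFun.div {n : ℕ} {f g : (Fin n → ℕ) → ℕ} (hf : DFun n f) (hg : DFun n g) :
    DFun n (fun v => f v / (g v + 1)) := by
  refine DFun.ofGraph hf (fun v => Nat.div_le_self _ _) ?_
  have h0 := DFun.proj (n := n + 1) 0
  have hg1 := (hg.add (DFun.const 1)).weak
  have h1 := (Delta0.leFun (h0.mul hg1) hf.weak).and
      (Delta0.ltFun hf.weak ((h0.add (DFun.const 1)).mul hg1))
  refine h1.of_iff ?_
  intro w
  constructor
  · intro h
    rw [h]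
    refine ⟨Nat.div_mul_le_self _ _, ?_⟩
    rw [mul_comm]
    exact Nat.lt_mul_div_succ _ (Nat.succ_pos _)
  · rintro ⟨h1, h2⟩
    exact (Nat.div_eq_of_lt_le h1 h2).symm

theorem DFun.mod {n : ℕ} {f g : (Fin n → ℕ) → ℕ} (hf : DFun n f) (hg : DFun n g) :
    DFun n (fun v => f v % (g v + 1)) := by
  have h := hf.sub ((hg.add (DFun.const 1)).mul (hf.div hg))
  have : (fun v => f v % (g v + 1)) = fun v => f v - (g v + 1) * (f v / (g v + 1)) := by
    funext v
    have := Nat.div_add_mod (f v) (g v + 1)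
    omega
  rw [this]; exact h

theorem DFun.min {n : ℕ} {f g : (Fin n → ℕ) → ℕ} (hf : DFun n f) (hg : DFun n g) :
    DFun n (fun v => Min.min (f v) (g v)) := by
  have h := hf.sub (hf.sub hg)
  have : (fun v => Min.min (f v) (g v)) = fun v => f v - (f v - g v) := by
    funext v; omega
  rw [this]; exact h

theorem DFun.pair {n : ℕ} {f g : (Fin n → ℕ) → ℕ} (hf : DFun n f) (hg : DFun n g) :
    DFun n (fun v => Nat.pair (f v) (g v)) := by
  classical
  have h := DFun.ite (Delta0.ltFun hf hg) ((hg.mul hg).add hf) (((hf.mul hf).add hf).add hg)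
  have : (fun v => Nat.pair (f v) (g v))
      = fun v => if f v < g v then g v * g v + f v else f v * f v + f v + g v := by
    funext v; rw [Nat.pair]
  rw [this]; exact h

theorem DFun.unpair1 {n : ℕ} {f : (Fin n → ℕ) → ℕ} (hf : DFun n f) :
    DFun n (fun v => (Nat.unpair (f v)).1) := by
  refine DFun.ofGraph hf (fun v => Nat.unpair_left_le _) ?_
  have h0 := DFun.proj (n := n + 1) 0
  have h1 := Delta0.bexFun (n := n + 1) (P := fun x w => Nat.pair (w 0) x = f (fun i => w i.succ))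
    hf.weak (Delta0.eqFun ((h0.weak).pair (DFun.proj 0)) hf.weak.weak)
  refine h1.of_iff ?_
  intro w
  constructor
  · intro h
    refine ⟨(Nat.unpair (f fun i => w i.succ)).2, Nat.unpair_right_le _, ?_⟩
    rw [h, Nat.pair_unpair]
  · rintro ⟨x, _, hx⟩
    rw [← hx, Nat.unpair_pair]

theorem DFun.unpair2 {n : ℕ} {f : (Fin n → ℕ) → ℕ} (hf : DFun n f) :
    DFun n (fun v => (Nat.unpair (f v)).2) := by
  refine DFun.ofGraph hf (fun v => Nat.unpair_right_le _) ?_
  have h0 := DFun.proj (n := n + 1) 0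
  have h1 := Delta0.bexFun (n := n + 1) (P := fun x w => Nat.pair x (w 0) = f (fun i => w i.succ))
    hf.weak (Delta0.eqFun ((DFun.proj 0).pair h0.weak) hf.weak.weak)
  refine h1.of_iff ?_
  intro w
  constructor
  · intro h
    refine ⟨(Nat.unpair (f fun i => w i.succ)).1, Nat.unpair_left_le _, ?_⟩
    rw [h, Nat.pair_unpair]
  · rintro ⟨x, _, hx⟩
    rw [← hx, Nat.unpair_pair]

end Pool.Agent.Grz
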