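import Mathlib
import Pool.Agent.Grz.Delta0

/-!
Grzegorczyk's class `E2` and its predicates `E2Star`. Closure properties, and the inclusion of
`Delta0` in `E2Star`.
-/

set_option autoImplicit false

namespace Pool.Agent.Grz

open MvPolynomial

/-- Grzegorczyk's class: the least class of functions containing zero, successor, the projections
and `(x+1)(y+1)`, closed under composition and limited recursion. -/
inductive E2 : (n : ℕ) → ((Fin n → ℕ) → ℕ) → Prop
  | zero (n : ℕ) : E2 n (fun _ => 0)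
  | succ : E2 1 (fun v => v 0 + 1)
  | proj {n : ℕ} (i : Fin n) : E2 n (fun v => v i)
  | prod : E2 2 (fun v => (v 0 + 1) * (v 1 + 1))
  | comp {n m : ℕ} {g : (Fin m → ℕ) → ℕ} {hs : Fin m → (Fin n → ℕ) → ℕ} :
      E2 m g → (∀ i, E2 n (hs i)) → E2 n (fun v => g (fun i => hs i v))
  | limrec {n : ℕ} {g : (Fin n → ℕ) → ℕ} {h : (Fin (n + 2) → ℕ) → ℕ}
      {b F : (Fin (n + 1) → ℕ) → ℕ} :
      E2 n g → E2 (n + 2) h → E2 (n + 1) b →
      (∀ v : Fin (n + 1) → ℕ, F v ≤ b v) →
      (∀ v : Fin n → ℕ, F (Matrix.vecCons 0 v) = g v) →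
      (∀ (v : Fin n → ℕ) (y : ℕ), F (Matrix.vecCons (y + 1) v) =
        h (Matrix.vecCons (F (Matrix.vecCons y v)) (Matrix.vecCons y v))) →
      E2 (n + 1) F

/-- Predicates whose characteristic function (value `0` for true and `1` for false) is in `E2`. -/
def E2Star (n : ℕ) (R : (Fin n → ℕ) → Prop) : Prop :=
  ∃ f : (Fin n → ℕ) → ℕ, E2 n f ∧ ∀ v, (R v → f v = 0) ∧ (¬ R v → f v = 1)

theorem E2.congr {n : ℕ} {f g : (Fin n → ℕ) → ℕ} (hf : E2 n f) (h : ∀ v, g v = f v) :
    E2 n g := by
  have : g = f := funext h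
  rw [this]; exact hf

theorem E2.comp1 {n : ℕ} {g : ℕ → ℕ} (hg : E2 1 (fun v => g (v 0)))
    {f : (Fin n → ℕ) → ℕ} (hf : E2 n f) : E2 n (fun v => g (f v)) :=
  hg.comp (hs := fun _ => f) (fun _ => hf)

theorem E2.comp2 {n : ℕ} {g : ℕ → ℕ → ℕ} (hg : E2 2 (fun v => g (v 0) (v 1)))
    {f₁ f₂ : (Fin n → ℕ) → ℕ} (h₁ : E2 n f₁) (h₂ : E2 n f₂) :
    E2 n (fun v => g (f₁ v) (f₂ v)) := by
  have := hg.comp (n := n) (hs := ![f₁, f₂]) (by
    intro i
    fin_cases i
    · exact h₁
    · exact h₂)
  simpa using this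

theorem E2.weak {n : ℕ} {f : (Fin n → ℕ) → ℕ} (hf : E2 n f) :
    E2 (n + 1) (fun w => f (fun i => w i.succ)) :=
  hf.comp (hs := fun i w => w i.succ) (fun i => E2.proj i.succ)

/-- Substituting a function for the first variable. -/
theorem E2.substFirst {n : ℕ} {F : ℕ → (Fin n → ℕ) → ℕ}
    (hF : E2 (n + 1) (fun w => F (w 0) (fun i => w i.succ)))
    {f : (Fin n → ℕ) → ℕ} (hf : E2 n f) : E2 n (fun v => F (f v) v) := by
  have := hF.comp (n := n) (hs := Fin.cons f (fun i v => v i)) (by
    intro i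
    refine Fin.cases ?_ (fun j => ?_) i
    · exact hf
    · exact E2.proj j)
  simpa using this

theorem E2.rec' {n : ℕ} {G : (Fin n → ℕ) → ℕ} {H : ℕ → ℕ → (Fin n → ℕ) → ℕ}
    {B F : ℕ → (Fin n → ℕ) → ℕ} (hG : E2 n G)
    (hH : E2 (n + 2) (fun u => H (u 0) (u 1) (fun i => u i.succ.succ)))
    (hB : E2 (n + 1) (fun w => B (w 0) (fun i => w i.succ)))
    (hFB : ∀ y v, F y v ≤ B y v) (h0 : ∀ v, F 0 v = G v)
    (hs : ∀ y v, F (y + 1) v = H (F y v) y v) :
    E2 (n + 1) (fun w => F (w 0) (fun i => w i.succ)) := by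
  refine E2.limrec hG hH hB (fun w => hFB _ _) (fun v => ?_) (fun v y => ?_)
  · simp [h0]
  · simp only [Matrix.cons_val_zero, Matrix.cons_val_succ, hs]
    rfl

theorem E2.const {n : ℕ} (c : ℕ) : E2 n (fun _ => c) := by
  induction c with
  | zero => exact E2.zero n
  | succ c ih => exact E2.comp1 E2.succ ih

theorem E2.pred1 : E2 1 (fun v => v 0 - 1) := by
  have := E2.rec' (n := 0) (G := fun _ => 0) (H := fun _ y _ => y) (B := fun y _ => y)
    (F := fun y _ => y - 1) (E2.zero 0) (E2.proj 1) (E2.proj 0) (by intro y v; omega)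
    (by intro v; rfl) (by intro y v; simp)
  exact this

theorem E2.add2 : E2 2 (fun v => v 0 + v 1) := by
  have := E2.rec' (n := 1) (G := fun v => v 0) (H := fun z _ _ => z + 1)
    (B := fun y v => (y + 1) * (v 0 + 1))
    (F := fun y v => y + v 0) (E2.proj 0) (E2.comp1 E2.succ (E2.proj 0)) E2.prod
    (by intro y v; nlinarith) (by intro v; simp) (by intro y v; ring)
  exact this

theorem E2.add {n : ℕ} {f g : (Fin n → ℕ) → ℕ} (hf : E2 n f) (hg : E2 n g) :
    E2 n (fun v => f v + g v) := E2.comp2 (g := fun a b => a + b) E2.add2 hf hg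

theorem E2.mul2 : E2 2 (fun v => v 0 * v 1) := by
  have := E2.rec' (n := 1) (G := fun _ => 0) (H := fun z _ v => z + v 0)
    (B := fun y v => (y + 1) * (v 0 + 1))
    (F := fun y v => y * v 0) (E2.zero 1) (E2.add (E2.proj 0) (E2.proj 2)) E2.prod
    (by intro y v; nlinarith) (by intro v; simp) (by intro y v; ring)
  exact this

theorem E2.mul {n : ℕ} {f g : (Fin n → ℕ) → ℕ} (hf : E2 n f) (hg : E2 n g) :
    E2 n (fun v => f v * g v) := E2.comp2 (g := fun a b => a * b) E2.mul2 hf hg

theorem E2.sub2 : E2 2 (fun v => v 1 - v 0) := by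
  have := E2.rec' (n := 1) (G := fun v => v 0) (H := fun z _ _ => z - 1)
    (B := fun _ v => v 0)
    (F := fun y v => v 0 - y) (E2.proj 0)
    (E2.comp1 (n := 3) (g := fun a => a - 1) E2.pred1 (E2.proj 0)) (E2.proj 1)
    (by intro y v; omega) (by intro v; simp) (by intro y v; omega)
  exact this

theorem E2.sub {n : ℕ} {f g : (Fin n → ℕ) → ℕ} (hf : E2 n f) (hg : E2 n g) :
    E2 n (fun v => f v - g v) := E2.comp2 (g := fun a b => b - a) E2.sub2 hg hf

theorem E2.evalPoly {n : ℕ} (p : MvPolynomial (Fin n) ℕ) :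
    E2 n (fun v => MvPolynomial.eval v p) := by
  induction p using MvPolynomial.induction_on with
  | C a => simpa using E2.const (n := n) a
  | add a b ha hb => simpa using ha.add hb
  | mul_X a i ha => simpa using ha.mul (E2.proj i)

theorem E2Star.of_iff {n : ℕ} {P Q : (Fin n → ℕ) → Prop} (h : E2Star n P)
    (hPQ : ∀ v, Q v ↔ P v) : E2Star n Q := by
  have : Q = P := funext fun v => propext (hPQ v)
  rw [this]; exact h

theorem E2Star.leFun {n : ℕ} {f g : (Fin n → ℕ) → ℕ} (hf : E2 n f) (hg : E2 n g) :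
    E2Star n (fun v => f v ≤ g v) := by
  refine ⟨fun v => 1 - (1 - (f v - g v)), (E2.const 1).sub ((E2.const 1).sub (hf.sub hg)), ?_⟩
  intro v
  constructor <;> intro h <;> dsimp only at * <;> omega

theorem E2Star.not {n : ℕ} {P : (Fin n → ℕ) → Prop} (hP : E2Star n P) :
    E2Star n (fun v => ¬ P v) := by
  obtain ⟨f, hf, h⟩ := hP
  refine ⟨fun v => 1 - f v, (E2.const 1).sub hf, ?_⟩
  intro v
  constructor
  · intro hv; have := (h v).2 hv; dsimp only; omega
  · intro hv; have := (h v).1 (not_not.mp hv); dsimp only; omega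

theorem E2Star.and {n : ℕ} {P Q : (Fin n → ℕ) → Prop} (hP : E2Star n P) (hQ : E2Star n Q) :
    E2Star n (fun v => P v ∧ Q v) := by
  obtain ⟨f, hf, h⟩ := hP
  obtain ⟨g, hg, k⟩ := hQ
  refine ⟨fun v => 1 - (1 - (f v + g v)), (E2.const 1).sub ((E2.const 1).sub (hf.add hg)), ?_⟩
  intro v
  constructor
  · rintro ⟨h1, h2⟩
    have := (h v).1 h1
    have := (k v).1 h2
    dsimp only; omega
  · intro hv
    by_cases h1 : P v
    · by_cases h2 : Q v
      · exact absurd ⟨h1, h2⟩ hv
      · have := (h v).1 h1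
        have := (k v).2 h2
        dsimp only; omega
    · have := (h v).2 h1
      dsimp only; omega

theorem E2Star.eqFun {n : ℕ} {f g : (Fin n → ℕ) → ℕ} (hf : E2 n f) (hg : E2 n g) :
    E2Star n (fun v => f v = g v) := by
  refine ((E2Star.leFun hf hg).and (E2Star.leFun hg hf)).of_iff ?_
  intro v; omega

theorem E2Star.bex {n : ℕ} {b : (Fin n → ℕ) → ℕ} (hb : E2 n b) {P : ℕ → (Fin n → ℕ) → Prop}
    (hP : E2Star (n + 1) (fun w => P (w 0) (fun i => w i.succ))) :
    E2Star n (fun v => ∃ x, x ≤ b v ∧ P x v) := by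
  classical
  obtain ⟨f, hf, h⟩ := hP
  have h' : ∀ x v, (P x v → f (Matrix.vecCons x v) = 0) ∧
      (¬ P x v → f (Matrix.vecCons x v) = 1) := by
    intro x v
    have := h (Matrix.vecCons x v)
    simpa using this
  let F : ℕ → (Fin n → ℕ) → ℕ := fun y v => if ∃ x, x ≤ y ∧ P x v then 0 else 1
  have hF0 : ∀ v, F 0 v = f (Matrix.vecCons 0 v) := by
    intro v
    by_cases hv : P 0 v
    · rw [(h' 0 v).1 hv]
      exact if_pos ⟨0, le_rfl, hv⟩
    · rw [(h' 0 v).2 hv]
      refine if_neg ?_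
      rintro ⟨x, hx, hPx⟩
      obtain rfl : x = 0 := by omega
      exact hv hPx
  have hFs : ∀ y v, F (y + 1) v = F y v * f (Matrix.vecCons (y + 1) v) := by
    intro y v
    by_cases hv : P (y + 1) v
    · rw [(h' _ v).1 hv, Nat.mul_zero]
      exact if_pos ⟨y + 1, le_rfl, hv⟩
    · rw [(h' _ v).2 hv, Nat.mul_one]
      by_cases hy : ∃ x, x ≤ y ∧ P x v
      · obtain ⟨x, hx, hPx⟩ := hy
        simp only [F]
        rw [if_pos ⟨x, Nat.le_succ_of_le hx, hPx⟩, if_pos ⟨x, hx, hPx⟩]
      · simp only [F]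
        rw [if_neg hy, if_neg]
        rintro ⟨x, hx, hPx⟩
        rcases Nat.lt_or_ge y x with h1 | h1
        · obtain rfl : x = y + 1 := by omega
          exact hv hPx
        · exact hy ⟨x, h1, hPx⟩
  have hE : E2 (n + 1) (fun w => F (w 0) (fun i => w i.succ)) := by
    refine E2.rec' (G := fun v => f (Matrix.vecCons 0 v))
      (H := fun z y v => z * f (Matrix.vecCons (y + 1) v)) (B := fun _ _ => 1) ?_ ?_
      (E2.const 1) ?_ hF0 hFs
    · have := hf.comp (n := n) (hs := Fin.cons (fun _ => 0) (fun i v => v i)) (by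
        intro i
        refine Fin.cases ?_ (fun j => ?_) i
        · exact E2.zero n
        · exact E2.proj j)
      refine this.congr ?_
      intro v
      congr 1
      funext i
      refine Fin.cases ?_ (fun j => ?_) i <;> simp
    · refine (E2.proj 0).mul ?_
      have := hf.comp (n := n + 2)
        (hs := Fin.cons (fun u => u 1 + 1) (fun i u => u i.succ.succ)) (by
        intro i
        refine Fin.cases ?_ (fun j => ?_) i
        · exact E2.comp1 E2.succ (E2.proj 1)
        · exact E2.proj _)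
      refine this.congr ?_
      intro v
      congr 1
      funext i
      refine Fin.cases ?_ (fun j => ?_) i <;> simp
    · intro y v
      simp only [F]
      split_ifs <;> omega
  refine ⟨fun v => F (b v) v, E2.substFirst hE hb, ?_⟩
  intro v
  constructor
  · intro hv; exact if_pos hv
  · intro hv; exact if_neg hv

/-- The (known) inclusion: bounded formulas define predicates in `E2Star`. -/
theorem Delta0.e2Star {n : ℕ} {P : (Fin n → ℕ) → Prop} (hP : Delta0 n P) : E2Star n P := by
  induction hP with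
  | eq p q => exact E2Star.eqFun (E2.evalPoly p) (E2.evalPoly q)
  | le p q => exact E2Star.leFun (E2.evalPoly p) (E2.evalPoly q)
  | not _ ih => exact ih.not
  | and _ _ ih1 ih2 => exact ih1.and ih2
  | @bex n P p _ ih =>
    refine E2Star.bex (P := fun x v => P (Matrix.vecCons x v)) (E2.evalPoly p) ?_
    refine ih.of_iff ?_
    intro w
    have : Matrix.vecCons (w 0) (fun i => w i.succ) = w := by
      funext i
      refine Fin.cases ?_ (fun j => ?_) i <;> simp
    rw [this]

/-- Every `E2` function is bounded by a polynomial. -/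
theorem E2.bounded {n : ℕ} {f : (Fin n → ℕ) → ℕ} (hf : E2 n f) :
    ∃ p : MvPolynomial (Fin n) ℕ, ∀ v, f v ≤ MvPolynomial.eval v p := by
  induction hf with
  | zero n => exact ⟨0, fun v => by simp⟩
  | succ => exact ⟨X 0 + 1, fun v => by simp⟩
  | proj i => exact ⟨X i, fun v => by simp⟩
  | prod => exact ⟨(X 0 + 1) * (X 1 + 1), fun v => by simp⟩
  | @comp n m g hs _ _ ih1 ih2 =>
    obtain ⟨p, hp⟩ := ih1
    choose q hq using ih2
    refine ⟨bind₁ q p, fun v => ?_⟩
    rw [eval_bind]
    exact (hp _).trans (eval_mono p fun i => hq i v)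
  | limrec _ _ _ hb _ _ _ _ ih3 =>
    obtain ⟨p, hp⟩ := ih3
    exact ⟨p, fun v => (hb v).trans (hp v)⟩

/-- A function with `E2Star` graph that is bounded by an `E2` function is in `E2`. -/
theorem E2.ofGraph {n : ℕ} {f b : (Fin n → ℕ) → ℕ} (hb : E2 n b) (hfb : ∀ v, f v ≤ b v)
    (hg : E2Star (n + 1) (fun w => w 0 = f (fun i => w i.succ))) : E2 n f := by
  classical
  obtain ⟨χ, hχ, h⟩ := hg
  have h' : ∀ x v, (x = f v → χ (Matrix.vecCons x v) = 0) ∧
      (¬ x = f v → χ (Matrix.vecCons x v) = 1) := by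
    intro x v
    have := h (Matrix.vecCons x v)
    simpa using this
  let F : ℕ → (Fin n → ℕ) → ℕ := fun y v => if f v ≤ y then f v else 0
  have hFs : ∀ y v, F (y + 1) v = F y v + (1 - χ (Matrix.vecCons (y + 1) v)) * (y + 1) := by
    intro y v
    simp only [F]
    by_cases hv : y + 1 = f v
    · rw [(h' _ v).1 hv, if_pos (by omega), if_neg (by omega)]
      omega
    · rw [(h' _ v).2 hv]
      by_cases hy : f v ≤ y
      · rw [if_pos (by omega), if_pos hy]; simp
      · rw [if_neg (by omega), if_neg hy]; simp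
  have hE : E2 (n + 1) (fun w => F (w 0) (fun i => w i.succ)) := by
    refine E2.rec' (G := fun _ => 0)
      (H := fun z y v => z + (1 - χ (Matrix.vecCons (y + 1) v)) * (y + 1)) (B := fun y _ => y)
      (E2.zero n) ?_ (E2.proj 0) ?_ ?_ hFs
    · refine (E2.proj 0).add (((E2.const 1).sub ?_).mul (E2.comp1 E2.succ (E2.proj 1)))
      have := hχ.comp (n := n + 2)
        (hs := Fin.cons (fun u => u 1 + 1) (fun i u => u i.succ.succ)) (by
        intro i
        refine Fin.cases ?_ (fun j => ?_) i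
        · exact E2.comp1 E2.succ (E2.proj 1)
        · exact E2.proj _)
      refine this.congr ?_
      intro v
      congr 1
      funext i
      refine Fin.cases ?_ (fun j => ?_) i <;> simp
    · intro y v
      simp only [F]
      split_ifs <;> omega
    · intro v
      simp only [F]
      split_ifs <;> omega
  refine (E2.substFirst hE hb).congr ?_
  intro v
  simp only [F]
  rw [if_pos (hfb v)]

end Pool.Agent.Grz
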