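import Mathlib
import Pool.Agent.Grz.E2

/-!
Iteration of bounded functions inside `E2`.
-/

set_option autoImplicit false

namespace Pool.Agent.Grz

open MvPolynomial

/-- Iterating a bounded family of functions: `t ↦ (P v)^[t] (S v)`. -/
theorem E2.iterate {n : ℕ} {P : ℕ → (Fin n → ℕ) → ℕ} {S B : (Fin n → ℕ) → ℕ}
    (hP : E2 (n + 1) (fun w => P (w 0) (fun i => w i.succ))) (hS : E2 n S) (hB : E2 n B)
    (hbd : ∀ t v, (fun x => P x v)^[t] (S v) ≤ B v) :
    E2 (n + 1) (fun w => (fun x => P x (fun i => w i.succ))^[w 0] (S (fun i => w i.succ))) := by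
  refine E2.rec' (G := S) (H := fun z _ v => P z v) (B := fun _ v => B v)
    (F := fun t v => (fun x => P x v)^[t] (S v)) hS ?_ hB.weak hbd (fun v => rfl) ?_
  · have := hP.comp (n := n + 2) (hs := Fin.cons (fun u => u 0) (fun i u => u i.succ.succ)) (by
      intro i
      refine Fin.cases ?_ (fun j => ?_) i
      · exact E2.proj 0
      · exact E2.proj _)
    refine this.congr ?_
    intro v
    simp
  · intro y v
    rw [Function.iterate_succ_apply']

end Pool.Agent.Grz
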