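import Mathlib
import Pool.Agent.Grz.E2

/-!
Limited recursion is coded by iterating regressive maps: if the set of points whose orbit under
a regressive map with `Delta0` graph reaches `1` is always `Delta0`, then every function in `E2`
has a `Delta0` graph.
-/

set_option autoImplicit false

namespace Pool.Agent.Grz

open MvPolynomial

/-- Coding of vectors by iterated pairing. -/
def enc : (n : ℕ) → (Fin n → ℕ) → ℕ
  | 0, _ => 0
  | n + 1, v => Nat.pair (v 0) (enc n (fun i => v i.succ))

/-- Decoding of vectors. -/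
def dec : (n : ℕ) → ℕ → (Fin n → ℕ)
  | 0, _ => Fin.elim0
  | n + 1, x => Matrix.vecCons (Nat.unpair x).1 (dec n (Nat.unpair x).2)

theorem dec_enc (n : ℕ) (v : Fin n → ℕ) : dec n (enc n v) = v := by
  induction n with
  | zero => funext i; exact i.elim0
  | succ n ih =>
    funext i
    simp only [enc, dec, Nat.unpair_pair]
    refine Fin.cases ?_ (fun j => ?_) i
    · simp
    · simp [ih]

theorem DFun.enc {m : ℕ} : ∀ {n : ℕ} {h : Fin n → (Fin m → ℕ) → ℕ}, (∀ i, DFun m (h i)) →
    DFun m (fun w => enc n (fun i => h i w))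
  | 0, _, _ => DFun.const 0
  | n + 1, h, hh => by
    simp only [Grz.enc]
    exact (hh 0).pair (DFun.enc (n := n) (h := fun i => h i.succ) (fun i => hh i.succ))

theorem DFun.dec {m : ℕ} : ∀ {n : ℕ} {t : (Fin m → ℕ) → ℕ}, DFun m t → ∀ i : Fin n,
    DFun m (fun w => dec n (t w) i)
  | 0, _, _, i => i.elim0
  | n + 1, t, ht, i => by
    simp only [Grz.dec]
    refine Fin.cases ?_ (fun j => ?_) i
    · simpa using ht.unpair1
    · simpa using DFun.dec (n := n) ht.unpair2 j

/-- The regressive map coding a limited recursion. -/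
def recMap (n : ℕ) (B : (Fin (n + 1) → ℕ) → ℕ) (h : (Fin (n + 2) → ℕ) → ℕ) (x : ℕ) : ℕ :=
  let a := (Nat.unpair x).1
  let s := (Nat.unpair x).2
  let d := dec (n + 2) (a - 1)
  let b := B (fun i => d i.succ)
  let r := s / (b + 1)
  let z := s % (b + 1)
  if x = 1 then 1 else if a = 0 then 0 else
    if r = 0 then (if z = d 0 then 1 else 0) else
      Nat.pair a ((r - 1) * (b + 1) +
        min (h (Matrix.vecCons z (Matrix.vecCons (d 1 - r) (fun i => d i.succ.succ)))) b)

theorem recMap_lt (n : ℕ) (B : (Fin (n + 1) → ℕ) → ℕ) (h : (Fin (n + 2) → ℕ) → ℕ) (x : ℕ)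
    (hx2 : 2 ≤ x) : recMap n B h x < x := by
  unfold recMap
  dsimp only
  split_ifs with h1 h2 h3 h4
  · omega
  · omega
  · omega
  · omega
  · set b := B (fun i => dec (n + 2) ((Nat.unpair x).1 - 1) i.succ) with hb
    set s := (Nat.unpair x).2 with hs
    have hx : Nat.pair (Nat.unpair x).1 s = x := Nat.pair_unpair x
    conv_rhs => rw [← hx]
    refine Nat.pair_lt_pair_right _ ?_
    set m := min (h (Matrix.vecCons (s % (b + 1))
      (Matrix.vecCons (dec (n + 2) ((Nat.unpair x).1 - 1) 1 - s / (b + 1))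
      (fun i => dec (n + 2) ((Nat.unpair x).1 - 1) i.succ.succ)))) b with hm
    have hmb : m ≤ b := min_le_right _ _
    have h5 : s / (b + 1) * (b + 1) ≤ s := Nat.div_mul_le_self _ _
    obtain ⟨k, hk⟩ : ∃ k, s / (b + 1) = k + 1 := Nat.exists_eq_succ_of_ne_zero h3
    rw [hk] at h5 ⊢
    have : (k + 1 - 1) * (b + 1) = k * (b + 1) := by simp
    rw [this]
    nlinarith

theorem recMap_zero (n : ℕ) (B : (Fin (n + 1) → ℕ) → ℕ) (h : (Fin (n + 2) → ℕ) → ℕ) :
    recMap n B h 0 = 0 := by
  simp [recMap]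

theorem recMap_one (n : ℕ) (B : (Fin (n + 1) → ℕ) → ℕ) (h : (Fin (n + 2) → ℕ) → ℕ) :
    recMap n B h 1 = 1 := by
  simp [recMap]

theorem DFun.recMap (n : ℕ) {B : (Fin (n + 1) → ℕ) → ℕ} (hB : DFun (n + 1) B)
    {h : (Fin (n + 2) → ℕ) → ℕ} (hh : DFun (n + 2) h) :
    DFun 1 (fun v => recMap n B h (v 0)) := by
  classical
  unfold Grz.recMap
  dsimp only
  have hx : DFun 1 (fun v => v 0) := DFun.proj 0
  have ha := hx.unpair1
  have hs := hx.unpair2
  have ha1 := ha.sub (DFun.const (n := 1) 1)
  have hd := fun i => DFun.dec (n := n + 2) ha1 i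
  have hb : DFun 1 (fun v => B (fun i => Grz.dec (n + 2) ((Nat.unpair (v 0)).1 - 1) i.succ)) :=
    hB.comp (fun i => hd i.succ)
  have hr := hs.div hb
  have hz := hs.mod hb
  have hH := hh.comp (n := 1) (h := Fin.cons
    (fun v => (Nat.unpair (v 0)).2 %
      (B (fun i => Grz.dec (n + 2) ((Nat.unpair (v 0)).1 - 1) i.succ) + 1))
    (Fin.cons (fun v => Grz.dec (n + 2) ((Nat.unpair (v 0)).1 - 1) 1 - (Nat.unpair (v 0)).2 /
      (B (fun i => Grz.dec (n + 2) ((Nat.unpair (v 0)).1 - 1) i.succ) + 1))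
      (fun i v => Grz.dec (n + 2) ((Nat.unpair (v 0)).1 - 1) i.succ.succ))) (by
    intro i
    refine Fin.cases ?_ (fun j => ?_) i
    · exact hz
    · refine Fin.cases ?_ (fun k => ?_) j
      · exact (hd 1).sub hr
      · exact hd k.succ.succ)
  have hH' : DFun 1 (fun v => h (Matrix.vecCons ((Nat.unpair (v 0)).2 %
      (B (fun i => Grz.dec (n + 2) ((Nat.unpair (v 0)).1 - 1) i.succ) + 1))
      (Matrix.vecCons (Grz.dec (n + 2) ((Nat.unpair (v 0)).1 - 1) 1 - (Nat.unpair (v 0)).2 /
      (B (fun i => Grz.dec (n + 2) ((Nat.unpair (v 0)).1 - 1) i.succ) + 1))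
      (fun i => Grz.dec (n + 2) ((Nat.unpair (v 0)).1 - 1) i.succ.succ)))) := by
    convert hH using 3 with v
    funext i
    refine Fin.cases ?_ (fun j => ?_) i
    · simp
    · refine Fin.cases ?_ (fun k => ?_) j <;> simp
  refine DFun.ite (Delta0.eqFun hx (DFun.const 1)) (DFun.const 1) ?_
  refine DFun.ite (Delta0.eqFun ha (DFun.const 0)) (DFun.const 0) ?_
  refine DFun.ite (Delta0.eqFun hr (DFun.const 0)) ?_ ?_
  · exact DFun.ite (Delta0.eqFun hz (hd 0)) (DFun.const 1) (DFun.const 0)
  · exact ha.pair (((hr.sub (DFun.const 1)).mul (hb.add (DFun.const 1))).add (hH'.min hb))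

theorem two_le_pair (P s : ℕ) : 2 ≤ Nat.pair (P + 1) s := by
  unfold Nat.pair
  split_ifs with h
  · nlinarith
  · nlinarith

/-- One step of the coding map. -/
theorem recMap_step (n : ℕ) (B : (Fin (n + 1) → ℕ) → ℕ) (h : (Fin (n + 2) → ℕ) → ℕ)
    (u : Fin (n + 2) → ℕ) (r z : ℕ) (hz : z ≤ B (fun i => u i.succ)) :
    recMap n B h (Nat.pair (enc (n + 2) u + 1) (r * (B (fun i => u i.succ) + 1) + z)) =
      if r = 0 then (if z = u 0 then 1 else 0) else
        Nat.pair (enc (n + 2) u + 1) ((r - 1) * (B (fun i => u i.succ) + 1) +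
          min (h (Matrix.vecCons z (Matrix.vecCons (u 1 - r) (fun i => u i.succ.succ))))
            (B (fun i => u i.succ))) := by
  have h2 := two_le_pair (enc (n + 2) u) (r * (B (fun i => u i.succ) + 1) + z)
  unfold recMap
  simp only [Nat.unpair_pair, Nat.add_sub_cancel, dec_enc]
  rw [if_neg (by omega), if_neg (by omega)]
  have hdiv : (r * (B (fun i => u i.succ) + 1) + z) / (B (fun i => u i.succ) + 1) = r := by
    rw [mul_comm, Nat.mul_add_div (Nat.succ_pos _), Nat.div_eq_of_lt (by omega)]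
    rfl
  have hmod : (r * (B (fun i => u i.succ) + 1) + z) % (B (fun i => u i.succ) + 1) = z := by
    rw [mul_comm, Nat.mul_add_mod, Nat.mod_eq_of_lt (by omega)]
  rw [hdiv, hmod]

/-- Regressive maps with `Delta0` graph suffice for all limited recursions. -/
theorem dfun_of_reach
    (hb : ∀ f : ℕ → ℕ, f 0 = 0 → f 1 = 1 → (∀ x, 2 ≤ x → f x < x) → DFun 1 (fun v => f (v 0)) →
      Delta0 1 (fun v => ∃ t, f^[t] (v 0) = 1)) :
    ∀ {n : ℕ} {f : (Fin n → ℕ) → ℕ}, E2 n f → DFun n f := by
  intro n f hf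
  induction hf with
  | zero n => exact DFun.const 0
  | succ => exact (DFun.proj 0).add (DFun.const 1)
  | proj i => exact DFun.proj i
  | prod => exact ((DFun.proj 0).add (DFun.const 1)).mul ((DFun.proj 1).add (DFun.const 1))
  | comp _ _ ih1 ih2 => exact ih1.comp ih2
  | @limrec n g h b F _ _ _ hFb hF0 hFs ihg ihh ihb =>
    obtain ⟨p, hp⟩ := ihb.bound
    let B : (Fin (n + 1) → ℕ) → ℕ := fun v => MvPolynomial.eval v p
    have hB : DFun (n + 1) B := DFun.ofPoly p
    have hbound : ∀ v, F v ≤ B v := fun v => (hFb v).trans (hp v)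
    refine ⟨?_, p, hbound⟩
    have hreach := hb (recMap n B h) (recMap_zero n B h) (recMap_one n B h) (recMap_lt n B h)
      (DFun.recMap n hB ihh)
    have hst : DFun (n + 2) (fun u => Nat.pair (enc (n + 2) u + 1)
        (u 1 * (B (fun i => u i.succ) + 1) + g (fun i => u i.succ.succ))) := by
      have h1 : DFun (n + 2) (fun u => enc (n + 2) (fun i => u i)) :=
        DFun.enc (fun i => DFun.proj i)
      exact (h1.add (DFun.const 1)).pair
        (((DFun.proj 1).mul (hB.weak.add (DFun.const 1))).add ihg.weak.weak)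
    refine (Delta0.comp1 (P := fun x => ∃ t, (recMap n B h)^[t] x = 1) hreach hst).of_iff ?_
    intro u
    set P := enc (n + 2) u with hP
    set b' := B (fun i => u i.succ) with hb'
    set v : Fin n → ℕ := fun i => u i.succ.succ with hv
    have hu : (fun i : Fin (n + 1) => u i.succ) = Matrix.vecCons (u 1) v := by
      funext i
      refine Fin.cases ?_ (fun j => ?_) i
      · rfl
      · simp [hv]
    have hle : ∀ j, j ≤ u 1 → F (Matrix.vecCons j v) ≤ b' := by
      intro j hj
      refine (hbound _).trans ?_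
      rw [hb', hu]
      refine eval_mono p ?_
      intro i
      refine Fin.cases ?_ (fun k => ?_) i
      · simpa using hj
      · simp
    have key : ∀ j, j ≤ u 1 → (recMap n B h)^[j]
        (Nat.pair (P + 1) (u 1 * (b' + 1) + g v)) =
        Nat.pair (P + 1) ((u 1 - j) * (b' + 1) + F (Matrix.vecCons j v)) := by
      intro j
      induction j with
      | zero => intro _; simp [hF0]
      | succ j ih =>
        intro hj
        rw [Function.iterate_succ_apply', ih (by omega)]
        have := recMap_step n B h u (u 1 - j) (F (Matrix.vecCons j v)) (hle j (by omega))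
        rw [← hb', ← hP] at this
        rw [this, if_neg (by omega)]
        have e1 : u 1 - (u 1 - j) = j := by omega
        rw [e1, ← hFs v j, min_eq_left (hle (j + 1) hj)]
        congr 3
    have hlast : (recMap n B h)^[u 1 + 1] (Nat.pair (P + 1) (u 1 * (b' + 1) + g v)) =
        if F (Matrix.vecCons (u 1) v) = u 0 then 1 else 0 := by
      rw [Function.iterate_succ_apply', key (u 1) le_rfl]
      have := recMap_step n B h u 0 (F (Matrix.vecCons (u 1) v)) (hle (u 1) le_rfl)
      rw [← hb', ← hP] at this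
      rw [Nat.sub_self, this, if_pos rfl]
    have hzero : ∀ t, (recMap n B h)^[t] 0 = 0 := by
      intro t
      induction t with
      | zero => rfl
      | succ t ih =>
        rw [Function.iterate_succ_apply', ih, recMap_zero]
    rw [show (fun i : Fin (n + 1) => u i.succ) = Matrix.vecCons (u 1) v from hu]
    constructor
    · intro h0
      refine ⟨u 1 + 1, ?_⟩
      rw [hlast, if_pos h0.symm]
    · rintro ⟨t, ht⟩
      by_contra hne
      rcases Nat.lt_or_ge (u 1) t with h1 | h1
      · obtain ⟨s, rfl⟩ : ∃ s, t = s + (u 1 + 1) := ⟨t - (u 1 + 1), by omega⟩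
        rw [Function.iterate_add_apply, hlast, if_neg (fun h => hne h.symm), hzero] at ht
        omega
      · rw [key t h1] at ht
        have := two_le_pair P ((u 1 - t) * (b' + 1) + F (Matrix.vecCons t v))
        omega

/-- Under the same hypothesis every `E2Star` predicate is `Delta0`. -/
theorem delta0_of_reach
    (hb : ∀ f : ℕ → ℕ, f 0 = 0 → f 1 = 1 → (∀ x, 2 ≤ x → f x < x) → DFun 1 (fun v => f (v 0)) →
      Delta0 1 (fun v => ∃ t, f^[t] (v 0) = 1))
    {n : ℕ} {R : (Fin n → ℕ) → Prop} (hR : E2Star n R) : Delta0 n R := by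
  obtain ⟨f, hf, h⟩ := hR
  refine (Delta0.eqFun (dfun_of_reach hb hf) (DFun.const 0)).of_iff ?_
  intro v
  constructor
  · exact (h v).1
  · intro h0
    by_contra hv
    have := (h v).2 hv
    omega

end Pool.Agent.Grz
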