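import Mathlib
import Pool.Agent.Grz.Iter
import Pool.Agent.Grz.Regressive

/-!
Normal form: every predicate in `E2Star` is decided by following the orbit of one regressive map
with `Delta0` graph. The proof shows that every function in `E2` is computed by iterating a single
map with `Delta0` graph inside a polynomially bounded set.
-/

set_option autoImplicit false

namespace Pool.Agent.Grz

open MvPolynomial

/-- `y` is reached from `x` by iterating `S`; before `y` no point satisfies `H`, and all points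
are at most `B`. -/
def Path (S : ℕ → ℕ) (H : ℕ → Prop) (B x y : ℕ) : Prop :=
  ∃ T, S^[T] x = y ∧ (∀ t, t < T → ¬ H (S^[t] x)) ∧ ∀ t, t ≤ T → S^[t] x ≤ B

theorem Path.refl {S : ℕ → ℕ} {H : ℕ → Prop} {B x : ℕ} (h : x ≤ B) : Path S H B x x :=
  ⟨0, rfl, fun t ht => by omega, fun t ht => by
    obtain rfl : t = 0 := by omega
    exact h⟩

theorem Path.mono {S : ℕ → ℕ} {H : ℕ → Prop} {B B' x y : ℕ} (h : Path S H B x y) (hB : B ≤ B') :
    Path S H B' x y := by
  obtain ⟨T, h1, h2, h3⟩ := h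
  exact ⟨T, h1, h2, fun t ht => (h3 t ht).trans hB⟩

theorem Path.trans {S : ℕ → ℕ} {H : ℕ → Prop} {B x y w : ℕ} (h : Path S H B x y)
    (h' : Path S H B y w) : Path S H B x w := by
  obtain ⟨T, h1, h2, h3⟩ := h
  obtain ⟨T', k1, k2, k3⟩ := h'
  have key : ∀ t, S^[t + T] x = S^[t] y := by
    intro t
    rw [Function.iterate_add_apply, h1]
  refine ⟨T' + T, by rw [key, k1], ?_, ?_⟩
  · intro t ht
    rcases Nat.lt_or_ge t T with h | h
    · exact h2 t h
    · obtain ⟨s, rfl⟩ : ∃ s, t = s + T := ⟨t - T, by omega⟩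
      rw [key]
      exact k2 s (by omega)
  · intro t ht
    rcases Nat.lt_or_ge t T with h | h
    · exact h3 t h.le
    · obtain ⟨s, rfl⟩ : ∃ s, t = s + T := ⟨t - T, by omega⟩
      rw [key]
      exact k3 s (by omega)

theorem Path.step {S : ℕ → ℕ} {H : ℕ → Prop} {B x y : ℕ} (hx : ¬ H x) (hxB : x ≤ B)
    (h : S x = y) (hy : y ≤ B) : Path S H B x y := by
  refine ⟨1, h, ?_, ?_⟩
  · intro t ht
    obtain rfl : t = 0 := by omega
    exact hx
  · intro t ht
    rcases Nat.lt_or_ge t 1 with h1 | h1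
    · obtain rfl : t = 0 := by omega
      exact hxB
    · obtain rfl : t = 1 := by omega
      show S x ≤ B
      rw [h]; exact hy

theorem Path.le_left {S : ℕ → ℕ} {H : ℕ → Prop} {B x y : ℕ} (h : Path S H B x y) : x ≤ B := by
  obtain ⟨T, h1, h2, h3⟩ := h
  exact h3 0 (Nat.zero_le _)

theorem Path.le_right {S : ℕ → ℕ} {H : ℕ → Prop} {B x y : ℕ} (h : Path S H B x y) : y ≤ B := by
  obtain ⟨T, h1, h2, h3⟩ := h
  rw [← h1]
  exact h3 T le_rfl

/-- Simulation. -/
theorem Path.map {S S' : ℕ → ℕ} {H H' : ℕ → Prop} {B B' x y : ℕ} (e : ℕ → ℕ)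
    (hS : ∀ s, s ≤ B → ¬ H s → S' (e s) = e (S s)) (hH : ∀ s, s ≤ B → ¬ H s → ¬ H' (e s))
    (hB : ∀ s, s ≤ B → e s ≤ B') (h : Path S H B x y) : Path S' H' B' (e x) (e y) := by
  obtain ⟨T, h1, h2, h3⟩ := h
  have key : ∀ t, t ≤ T → S'^[t] (e x) = e (S^[t] x) := by
    intro t
    induction t with
    | zero => intro _; rfl
    | succ t ih =>
      intro ht
      rw [Function.iterate_succ_apply', ih (by omega), Function.iterate_succ_apply',
        hS _ (h3 t (by omega)) (h2 t (by omega))]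
  refine ⟨T, by rw [key T le_rfl, h1], ?_, ?_⟩
  · intro t ht
    rw [key t ht.le]
    exact hH _ (h3 t ht.le) (h2 t ht)
  · intro t ht
    rw [key t ht]
    exact hB _ (h3 t ht)

/-- A path that ends in a halting point has length at most `B`. -/
theorem Path.length_le {S : ℕ → ℕ} {H : ℕ → Prop} {B x y : ℕ} (h : Path S H B x y) (hy : H y) :
    ∃ T, T ≤ B ∧ S^[T] x = y ∧ (∀ t, t < T → ¬ H (S^[t] x)) ∧ ∀ t, t ≤ T → S^[t] x ≤ B := by
  obtain ⟨T, h1, h2, h3⟩ := h
  refine ⟨T, ?_, h1, h2, h3⟩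
  by_contra hT
  push Not at hT
  have hcard : (Finset.range (B + 1)).card < (Finset.range (B + 2)).card := by simp
  obtain ⟨i, hi, j, hj, hij, heq⟩ := Finset.exists_ne_map_eq_of_card_lt_of_maps_to hcard
    (f := fun t => S^[t] x) (fun t ht => by
      have ht' : t < B + 2 := by simpa using ht
      have := h3 t (by omega)
      simp only [Finset.coe_range, Set.mem_Iio]
      omega)
  simp only [Finset.mem_range] at hi hj
  have main : ∀ i j, i < j → j ≤ T → S^[i] x = S^[j] x → False := by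
    intro i j hlt hjT he
    have e1 : S^[T] x = S^[T - (j - i)] x := by
      have e2 : T = (T - j) + j := by omega
      have e3 : T - (j - i) = (T - j) + i := by omega
      rw [e3, Function.iterate_add_apply, he, ← Function.iterate_add_apply, ← e2]
    have := h2 (T - (j - i)) (by omega)
    rw [← e1, h1] at this
    exact this hy
  rcases Nat.lt_or_gt_of_ne hij with h | h
  · exact main i j h (by omega) heq
  · exact main j i h (by omega) heq.symm

/-- Functions computed by iterating a map with `Delta0` graph in a polynomially bounded set. -/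
def Comp (n : ℕ) (F : (Fin n → ℕ) → ℕ) : Prop :=
  ∃ (S O : ℕ → ℕ) (H : ℕ → Prop) (I B : (Fin n → ℕ) → ℕ),
    DFun 1 (fun v => S (v 0)) ∧ DFun 1 (fun v => O (v 0)) ∧ Delta0 1 (fun v => H (v 0)) ∧
    DFun n I ∧ DFun n B ∧ ∀ v, ∃ y, Path S H (B v) (I v) y ∧ H y ∧ O y = F v

theorem Comp.of_dfun {n : ℕ} {F : (Fin n → ℕ) → ℕ} (hF : DFun n F) : Comp n F := by
  refine ⟨fun x => x, fun x => x, fun _ => True, F, F, DFun.proj 0, DFun.proj 0, ?_, hF, hF, ?_⟩
  · refine (Delta0.eqFun (DFun.const 0) (DFun.const 0)).of_iff ?_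
    intro v; simp
  · intro v
    exact ⟨F v, Path.refl le_rfl, trivial, rfl⟩

theorem Comp.congr {n : ℕ} {F G : (Fin n → ℕ) → ℕ} (hF : Comp n F) (h : ∀ v, G v = F v) :
    Comp n G := by
  have : G = F := funext h
  rw [this]; exact hF

/-- The value of a `Comp` function is bounded by a `DFun`. -/
theorem Comp.bound {n : ℕ} {F : (Fin n → ℕ) → ℕ} (hF : Comp n F) :
    ∃ p : MvPolynomial (Fin n) ℕ, ∀ v, F v ≤ MvPolynomial.eval v p := by
  obtain ⟨S, O, H, I, B, _, hO, _, _, hB, h⟩ := hF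
  obtain ⟨r, hr⟩ := hO.bound
  obtain ⟨q, hq⟩ := hB.bound
  refine ⟨bind₁ (fun _ => q) r, fun v => ?_⟩
  obtain ⟨y, hy, _, hOy⟩ := h v
  rw [eval_bind, ← hOy]
  refine (hr (fun _ => y)).trans (eval_mono r ?_)
  intro _
  exact hy.le_right.trans (hq v)

/-- Composition with `DFun`s on the inside. -/
theorem Comp.precomp {m n : ℕ} {G : (Fin m → ℕ) → ℕ} (hG : Comp m G)
    {h : Fin m → (Fin n → ℕ) → ℕ} (hh : ∀ i, DFun n (h i)) :
    Comp n (fun v => G (fun i => h i v)) := by
  obtain ⟨S, O, H, I, B, hS, hO, hH, hI, hB, hc⟩ := hG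
  exact ⟨S, O, H, fun v => I (fun i => h i v), fun v => B (fun i => h i v), hS, hO, hH,
    hI.comp hh, hB.comp hh, fun v => hc _⟩

/-- Composition with a `DFun` on the outside. -/
theorem Comp.postcomp {n : ℕ} {F : (Fin n → ℕ) → ℕ} (hF : Comp n F) {D : ℕ → ℕ}
    (hD : DFun 1 (fun v => D (v 0))) : Comp n (fun v => D (F v)) := by
  obtain ⟨S, O, H, I, B, hS, hO, hH, hI, hB, hc⟩ := hF
  refine ⟨S, fun x => D (O x), H, I, B, hS, ?_, hH, hI, hB, ?_⟩
  · exact DFun.comp1 hD hO
  · intro v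
    obtain ⟨y, h1, h2, h3⟩ := hc v
    exact ⟨y, h1, h2, congrArg D h3⟩

/-- Monotonicity of pairing. -/
theorem pair_mono {a b c d : ℕ} (h1 : a ≤ c) (h2 : b ≤ d) : Nat.pair a b ≤ Nat.pair c d := by
  rcases Nat.lt_or_ge a c with h | h
  · rcases Nat.lt_or_ge b d with h' | h'
    · exact (Nat.pair_lt_pair_left b h).le.trans (Nat.pair_lt_pair_right c h').le
    · obtain rfl : b = d := by omega
      exact (Nat.pair_lt_pair_left b h).le
  · obtain rfl : a = c := by omega
    rcases Nat.lt_or_ge b d with h' | h'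
    · exact (Nat.pair_lt_pair_right a h').le
    · obtain rfl : b = d := by omega
      exact le_rfl

section seq

variable (S₁ O₁ : ℕ → ℕ) (H₁ : ℕ → Prop) [DecidablePred H₁] (S₂ I₂ : ℕ → ℕ)

/-- Step of the sequential composition. -/
def seqStep (x : ℕ) : ℕ :=
  if (Nat.unpair x).1 = 0 then
    (if H₁ (Nat.unpair x).2 then Nat.pair 1 (I₂ (O₁ (Nat.unpair x).2))
      else Nat.pair 0 (S₁ (Nat.unpair x).2))
  else Nat.pair 1 (S₂ (Nat.unpair x).2)

theorem seqStep_zero (s : ℕ) (h : ¬ H₁ s) : seqStep S₁ O₁ H₁ S₂ I₂ (Nat.pair 0 s) =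
    Nat.pair 0 (S₁ s) := by
  simp [seqStep, h]

theorem seqStep_switch (s : ℕ) (h : H₁ s) : seqStep S₁ O₁ H₁ S₂ I₂ (Nat.pair 0 s) =
    Nat.pair 1 (I₂ (O₁ s)) := by
  simp [seqStep, h]

theorem seqStep_one (s : ℕ) : seqStep S₁ O₁ H₁ S₂ I₂ (Nat.pair 1 s) =
    Nat.pair 1 (S₂ s) := by
  simp [seqStep]

end seq

/-- Sequential composition. -/
theorem Comp.seq {n : ℕ} {F : (Fin n → ℕ) → ℕ} {G : ℕ → ℕ} (hF : Comp n F)
    (hG : Comp 1 (fun v => G (v 0))) : Comp n (fun v => G (F v)) := by
  classical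
  obtain ⟨p, hp⟩ := hF.bound
  obtain ⟨S₁, O₁, H₁, I₁, B₁, hS₁, hO₁, hH₁, hI₁, hB₁, hc₁⟩ := hF
  obtain ⟨S₂, O₂, H₂, I₂, B₂, hS₂, hO₂, hH₂, hI₂, hB₂, hc₂⟩ := hG
  obtain ⟨q, hq⟩ := hB₂.bound
  set J : ℕ → ℕ := fun x => I₂ (fun _ => x) with hJ
  have hJ' : DFun 1 (fun v => J (v 0)) :=
    hI₂.comp (h := fun _ v => v 0) (fun _ => DFun.proj 0)
  have hx : DFun 1 (fun v => v 0) := DFun.proj 0
  refine ⟨seqStep S₁ O₁ H₁ S₂ J, fun x => O₂ (Nat.unpair x).2,
    fun x => (Nat.unpair x).1 ≠ 0 ∧ H₂ (Nat.unpair x).2, fun v => Nat.pair 0 (I₁ v),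
    fun v => Nat.pair 1 (B₁ v + MvPolynomial.eval (fun _ => MvPolynomial.eval v p) q),
    ?_, ?_, ?_, ?_, ?_, ?_⟩
  · unfold seqStep
    refine DFun.ite (Delta0.eqFun hx.unpair1 (DFun.const 0)) ?_ ?_
    · refine DFun.ite (Delta0.comp1 hH₁ hx.unpair2) ?_ ?_
      · exact (DFun.const 1).pair (DFun.comp1 hJ' (DFun.comp1 hO₁ hx.unpair2))
      · exact (DFun.const 0).pair (DFun.comp1 hS₁ hx.unpair2)
    · exact (DFun.const 1).pair (DFun.comp1 hS₂ hx.unpair2)
  · exact DFun.comp1 hO₂ hx.unpair2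
  · exact (Delta0.eqFun hx.unpair1 (DFun.const 0)).not.and (Delta0.comp1 hH₂ hx.unpair2)
  · exact (DFun.const 0).pair hI₁
  · exact (DFun.const 1).pair (hB₁.add (DFun.evalPoly q (fun _ => DFun.ofPoly p)))
  · intro v
    obtain ⟨y, hy1, hy2, hy3⟩ := hc₁ v
    obtain ⟨w, hw1, hw2, hw3⟩ := hc₂ (fun _ => F v)
    have hb2 : B₂ (fun _ => F v) ≤ MvPolynomial.eval (fun _ => MvPolynomial.eval v p) q :=
      (hq _).trans (eval_mono q (fun _ => hp v))
    set M := B₁ v + MvPolynomial.eval (fun _ => MvPolynomial.eval v p) q with hM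
    refine ⟨Nat.pair 1 w, ?_, ?_, ?_⟩
    · have p1 : Path (seqStep S₁ O₁ H₁ S₂ J) (fun x => (Nat.unpair x).1 ≠ 0 ∧
          H₂ (Nat.unpair x).2) (Nat.pair 1 M) (Nat.pair 0 (I₁ v)) (Nat.pair 0 y) := by
        refine Path.map (fun s => Nat.pair 0 s) ?_ ?_ ?_ hy1
        · intro s _ hs; exact seqStep_zero _ _ _ _ _ s hs
        · intro s _ _; simp
        · intro s hs; exact pair_mono (by omega) (by omega)
      have p2 : Path (seqStep S₁ O₁ H₁ S₂ J) (fun x => (Nat.unpair x).1 ≠ 0 ∧
          H₂ (Nat.unpair x).2) (Nat.pair 1 M) (Nat.pair 0 y) (Nat.pair 1 (J (F v))) := by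
        refine Path.step (by simp) p1.le_right ?_ ?_
        · rw [seqStep_switch _ _ _ _ _ y hy2, hy3]
        · exact pair_mono le_rfl (by have := hw1.le_left; simp only [hJ]; omega)
      have p3 : Path (seqStep S₁ O₁ H₁ S₂ J) (fun x => (Nat.unpair x).1 ≠ 0 ∧
          H₂ (Nat.unpair x).2) (Nat.pair 1 M) (Nat.pair 1 (J (F v))) (Nat.pair 1 w) := by
        refine Path.map (fun s => Nat.pair 1 s) ?_ ?_ ?_ hw1
        · intro s _ hs; exact seqStep_one _ _ _ _ _ s
        · intro s _ hs; simp [hs]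
        · intro s hs; exact pair_mono le_rfl (by omega)
      exact (p1.trans p2).trans p3
    · simp [hw2]
    · simp [hw3]

/-- Computing a function while keeping its argument. -/
theorem Comp.keep {G : ℕ → ℕ} (hG : Comp 1 (fun v => G (v 0))) :
    Comp 1 (fun v => Nat.pair (v 0) (G (v 0))) := by
  obtain ⟨S, O, H, I, B, hS, hO, hH, hI, hB, hc⟩ := hG
  have hx : DFun 1 (fun v => v 0) := DFun.proj 0
  refine ⟨fun x => Nat.pair (Nat.unpair x).1 (S (Nat.unpair x).2),
    fun x => Nat.pair (Nat.unpair x).1 (O (Nat.unpair x).2),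
    fun x => H (Nat.unpair x).2, fun v => Nat.pair (v 0) (I v), fun v => Nat.pair (v 0) (B v),
    ?_, ?_, ?_, ?_, ?_, ?_⟩
  · exact hx.unpair1.pair (DFun.comp1 hS hx.unpair2)
  · exact hx.unpair1.pair (DFun.comp1 hO hx.unpair2)
  · exact Delta0.comp1 hH hx.unpair2
  · exact hx.pair hI
  · exact hx.pair hB
  · intro v
    obtain ⟨y, hy1, hy2, hy3⟩ := hc v
    refine ⟨Nat.pair (v 0) y, ?_, ?_, ?_⟩
    · refine Path.map (fun s => Nat.pair (v 0) s) ?_ ?_ ?_ hy1
      · intro s _ _; simp
      · intro s _ hs; simpa using hs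
      · intro s hs; exact pair_mono le_rfl hs
    · simpa using hy2
    · simp [hy3]

theorem vec_eta {n : ℕ} (v : Fin n → ℕ) : (fun i => v i) = v := rfl

/-- Pairing two `Comp` functions. -/
theorem Comp.pair {n : ℕ} {F G : (Fin n → ℕ) → ℕ} (hF : Comp n F) (hG : Comp n G) :
    Comp n (fun v => Nat.pair (F v) (G v)) := by
  have hx : DFun 1 (fun v => v 0) := DFun.proj 0
  have h1 : Comp 1 (fun v => F (dec n (v 0))) :=
    (hF.precomp (n := 1) (h := fun i v => dec n (v 0) i) (fun i => DFun.dec hx i))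
  have h2 : Comp 1 (fun v => G (dec n (Nat.unpair (v 0)).1)) :=
    (hG.precomp (n := 1) (h := fun i v => dec n (Nat.unpair (v 0)).1 i)
      (fun i => DFun.dec hx.unpair1 i))
  have k1 := Comp.keep (G := fun x => F (dec n x)) h1
  have k2 := Comp.keep (G := fun x => G (dec n (Nat.unpair x).1)) h2
  have k3 : Comp n (fun v => enc n v) := Comp.of_dfun (DFun.enc (fun i => DFun.proj i))
  have k4 := (k3.seq (G := fun x => Nat.pair x (F (dec n x))) k1).seq
    (G := fun x => Nat.pair x (G (dec n (Nat.unpair x).1))) k2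
  have k5 := k4.postcomp (D := fun x => Nat.pair (Nat.unpair (Nat.unpair x).1).2 (Nat.unpair x).2)
    (hx.unpair1.unpair2.pair hx.unpair2)
  refine k5.congr ?_
  intro v
  simp [dec_enc]

/-- Coding a vector of `Comp` functions. -/
theorem Comp.enc {m : ℕ} : ∀ {n : ℕ} {h : Fin n → (Fin m → ℕ) → ℕ}, (∀ i, Comp m (h i)) →
    Comp m (fun w => enc n (fun i => h i w))
  | 0, _, _ => Comp.of_dfun (DFun.const 0)
  | n + 1, h, hh => by
    simp only [Grz.enc]
    exact (hh 0).pair (Comp.enc (n := n) (h := fun i => h i.succ) (fun i => hh i.succ))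

/-- General composition. -/
theorem Comp.comp {m n : ℕ} {G : (Fin m → ℕ) → ℕ} (hG : Comp m G)
    {h : Fin m → (Fin n → ℕ) → ℕ} (hh : ∀ i, Comp n (h i)) :
    Comp n (fun v => G (fun i => h i v)) := by
  have hx : DFun 1 (fun v => v 0) := DFun.proj 0
  have h1 : Comp 1 (fun v => G (dec m (v 0))) :=
    (hG.precomp (n := 1) (h := fun i v => dec m (v 0) i) (fun i => DFun.dec hx i))
  refine ((Comp.enc hh).seq (G := fun x => G (dec m x)) h1).congr ?_
  intro v
  rw [dec_enc]

section loop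

variable (S O : ℕ → ℕ) (H : ℕ → Prop) [DecidablePred H] (I : ℕ → ℕ)

/-- Step of the loop machine. States are `pair flag (pair c s)`. -/
def loopStep (x : ℕ) : ℕ :=
  if (Nat.unpair x).1 = 0 then
    Nat.pair 1 (Nat.pair ((Nat.unpair (Nat.unpair x).2).1 - 1) (I (Nat.unpair (Nat.unpair x).2).2))
  else
    (if H (Nat.unpair (Nat.unpair x).2).2 then
      Nat.pair 0 (Nat.pair (Nat.unpair (Nat.unpair x).2).1 (O (Nat.unpair (Nat.unpair x).2).2))
    else
      Nat.pair 1 (Nat.pair (Nat.unpair (Nat.unpair x).2).1 (S (Nat.unpair (Nat.unpair x).2).2)))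

theorem loopStep_zero (c s : ℕ) : loopStep S O H I (Nat.pair 0 (Nat.pair (c + 1) s)) =
    Nat.pair 1 (Nat.pair c (I s)) := by
  simp [loopStep]

theorem loopStep_run (c s : ℕ) (h : ¬ H s) : loopStep S O H I (Nat.pair 1 (Nat.pair c s)) =
    Nat.pair 1 (Nat.pair c (S s)) := by
  simp [loopStep, h]

theorem loopStep_stop (c s : ℕ) (h : H s) : loopStep S O H I (Nat.pair 1 (Nat.pair c s)) =
    Nat.pair 0 (Nat.pair c (O s)) := by
  simp [loopStep, h]

end loop

/-- Iteration of a `Comp` function with bounded values. -/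
theorem Comp.iterate {n : ℕ} {G : ℕ → ℕ} (hG : Comp 1 (fun v => G (v 0)))
    {N X B : (Fin n → ℕ) → ℕ} (hN : DFun n N) (hX : DFun n X) (hB : DFun n B)
    (hbd : ∀ v t, t ≤ N v → G^[t] (X v) ≤ B v) : Comp n (fun v => G^[N v] (X v)) := by
  classical
  obtain ⟨S, O, H, I', B₁, hS, hO, hH, hI, hB₁, hc⟩ := hG
  obtain ⟨q, hq⟩ := hB₁.bound
  set I : ℕ → ℕ := fun x => I' (fun _ => x) with hIdef
  have hI1 : DFun 1 (fun v => I (v 0)) := hI.comp (h := fun _ v => v 0) (fun _ => DFun.proj 0)
  have hx : DFun 1 (fun v => v 0) := DFun.proj 0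
  set M : (Fin n → ℕ) → ℕ := fun v => B v + MvPolynomial.eval (fun _ => B v) q with hMdef
  have hM : DFun n M := hB.add (DFun.evalPoly q (fun _ => hB))
  refine ⟨loopStep S O H I, fun x => (Nat.unpair (Nat.unpair x).2).2,
    fun x => (Nat.unpair x).1 = 0 ∧ (Nat.unpair (Nat.unpair x).2).1 = 0,
    fun v => Nat.pair 0 (Nat.pair (N v) (X v)), fun v => Nat.pair 1 (Nat.pair (N v) (M v)),
    ?_, ?_, ?_, ?_, ?_, ?_⟩
  · unfold loopStep
    refine DFun.ite (Delta0.eqFun hx.unpair1 (DFun.const 0)) ?_ ?_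
    · exact (DFun.const 1).pair ((hx.unpair2.unpair1.sub (DFun.const 1)).pair
        (DFun.comp1 hI1 hx.unpair2.unpair2))
    · refine DFun.ite (Delta0.comp1 hH hx.unpair2.unpair2) ?_ ?_
      · exact (DFun.const 0).pair (hx.unpair2.unpair1.pair (DFun.comp1 hO hx.unpair2.unpair2))
      · exact (DFun.const 1).pair (hx.unpair2.unpair1.pair (DFun.comp1 hS hx.unpair2.unpair2))
  · exact hx.unpair2.unpair2
  · exact (Delta0.eqFun hx.unpair1 (DFun.const 0)).and
      (Delta0.eqFun hx.unpair2.unpair1 (DFun.const 0))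
  · exact (DFun.const 0).pair (hN.pair hX)
  · exact (DFun.const 1).pair (hN.pair hM)
  · intro v
    set H' : ℕ → Prop := fun x => (Nat.unpair x).1 = 0 ∧ (Nat.unpair (Nat.unpair x).2).1 = 0
      with hH'
    set BB := Nat.pair 1 (Nat.pair (N v) (M v)) with hBB
    have hMv : ∀ z, z ≤ B v → MvPolynomial.eval (fun _ : Fin 1 => z) q ≤ M v := by
      intro z hz
      have := eval_mono q (v := fun _ => z) (w := fun _ => B v) (fun _ => hz)
      simp only [hMdef]
      omega
    -- one round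
    have round : ∀ c z, c + 1 ≤ N v → z ≤ B v → G z ≤ B v →
        Path (loopStep S O H I) H' BB (Nat.pair 0 (Nat.pair (c + 1) z))
          (Nat.pair 0 (Nat.pair c (G z))) := by
      intro c z hcN hz hGz
      obtain ⟨y, hy1, hy2, hy3⟩ := hc (fun _ => z)
      have hBz : B₁ (fun _ => z) ≤ M v := (hq _).trans (hMv z hz)
      have hzM : z ≤ M v := by simp only [hMdef]; omega
      have hGM : G z ≤ M v := by simp only [hMdef]; omega
      have p1 : Path (loopStep S O H I) H' BB (Nat.pair 0 (Nat.pair (c + 1) z))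
          (Nat.pair 1 (Nat.pair c (I z))) := by
        refine Path.step ?_ ?_ (loopStep_zero _ _ _ _ c z) ?_
        · simp [hH']
        · exact pair_mono (by omega) (pair_mono hcN hzM)
        · exact pair_mono le_rfl (pair_mono (by omega) (hy1.le_left.trans hBz))
      have p2 : Path (loopStep S O H I) H' BB (Nat.pair 1 (Nat.pair c (I z)))
          (Nat.pair 1 (Nat.pair c y)) := by
        refine Path.map (fun s => Nat.pair 1 (Nat.pair c s)) ?_ ?_ ?_ hy1
        · intro s _ hs; exact loopStep_run _ _ _ _ c s hs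
        · intro s _ hs; simp [hH']
        · intro s hs; exact pair_mono le_rfl (pair_mono (by omega) (by omega))
      have p3 : Path (loopStep S O H I) H' BB (Nat.pair 1 (Nat.pair c y))
          (Nat.pair 0 (Nat.pair c (G z))) := by
        refine Path.step ?_ p2.le_right ?_ ?_
        · simp [hH']
        · rw [loopStep_stop _ _ _ _ c y hy2, hy3]
        · exact pair_mono (by omega) (pair_mono (by omega) hGM)
      exact (p1.trans p2).trans p3
    have key : ∀ t, t ≤ N v → Path (loopStep S O H I) H' BB (Nat.pair 0 (Nat.pair (N v) (X v)))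
        (Nat.pair 0 (Nat.pair (N v - t) (G^[t] (X v)))) := by
      intro t
      induction t with
      | zero =>
        intro _
        refine Path.refl ?_
        refine pair_mono (by omega) (pair_mono le_rfl ?_)
        have := hbd v 0 (Nat.zero_le _)
        simp only [Function.iterate_zero, id_eq] at this
        simp only [hMdef]; omega
      | succ t ih =>
        intro ht
        have h1 := ih (by omega)
        have h2 := round (N v - (t + 1)) (G^[t] (X v)) (by omega) (hbd v t (by omega)) (by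
          have := hbd v (t + 1) ht
          rwa [Function.iterate_succ_apply'] at this)
        have e : N v - (t + 1) + 1 = N v - t := by omega
        rw [e] at h2
        rw [Function.iterate_succ_apply']
        exact h1.trans h2
    refine ⟨_, key (N v) le_rfl, ?_, ?_⟩
    · simp [hH']
    · simp

/-- Limited recursion. -/
theorem Comp.limrec {n : ℕ} {g : (Fin n → ℕ) → ℕ} {h : (Fin (n + 2) → ℕ) → ℕ}
    {b F : (Fin (n + 1) → ℕ) → ℕ} (hg : Comp n g) (hh : Comp (n + 2) h) (hb : Comp (n + 1) b)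
    (hFb : ∀ v : Fin (n + 1) → ℕ, F v ≤ b v)
    (hF0 : ∀ v : Fin n → ℕ, F (Matrix.vecCons 0 v) = g v)
    (hFs : ∀ (v : Fin n → ℕ) (y : ℕ), F (Matrix.vecCons (y + 1) v) =
        h (Matrix.vecCons (F (Matrix.vecCons y v)) (Matrix.vecCons y v))) : Comp (n + 1) F := by
  obtain ⟨p, hp⟩ := hb.bound
  have hx : DFun 1 (fun v => v 0) := DFun.proj 0
  -- states are `pair data (pair i value)` with `data = enc (y :: v)`
  set cap : ℕ → ℕ := fun a => MvPolynomial.eval (dec (n + 1) a) p with hcap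
  have hcap' : DFun 1 (fun v => cap (v 0)) :=
    DFun.evalPoly p (h := fun i v => dec (n + 1) (v 0) i) (fun i => DFun.dec hx i)
  set hv : ℕ → ℕ := fun x => h (Matrix.vecCons (Nat.unpair (Nat.unpair x).2).2
    (Matrix.vecCons (Nat.unpair (Nat.unpair x).2).1
      (fun i => dec (n + 1) (Nat.unpair x).1 i.succ))) with hhv
  have hhv' : Comp 1 (fun v => hv (v 0)) := by
    have := hh.precomp (n := 1) (h := Fin.cons (fun v => (Nat.unpair (Nat.unpair (v 0)).2).2)
      (Fin.cons (fun v => (Nat.unpair (Nat.unpair (v 0)).2).1)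
        (fun i v => dec (n + 1) (Nat.unpair (v 0)).1 i.succ))) (by
      intro i
      refine Fin.cases ?_ (fun j => ?_) i
      · exact hx.unpair2.unpair2
      · refine Fin.cases ?_ (fun k => ?_) j
        · exact hx.unpair2.unpair1
        · exact DFun.dec hx.unpair1 k.succ)
    refine this.congr ?_
    intro v
    simp only [hhv]
    congr 1
    funext i
    refine Fin.cases ?_ (fun j => ?_) i
    · simp
    · refine Fin.cases ?_ (fun k => ?_) j <;> simp
  set G : ℕ → ℕ := fun x => Nat.pair (Nat.unpair x).1 (Nat.pair ((Nat.unpair (Nat.unpair x).2).1 + 1)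
    (min (hv x) (cap (Nat.unpair x).1))) with hG
  have hG' : Comp 1 (fun v => G (v 0)) := by
    have h1 : Comp 1 (fun v => Nat.pair (v 0) (hv (v 0))) := Comp.keep hhv'
    have h2 := h1.postcomp (D := fun z => Nat.pair (Nat.unpair (Nat.unpair z).1).1
      (Nat.pair ((Nat.unpair (Nat.unpair (Nat.unpair z).1).2).1 + 1)
        (min (Nat.unpair z).2 (cap (Nat.unpair (Nat.unpair z).1).1)))) (by
      exact hx.unpair1.unpair1.pair (((hx.unpair1.unpair2.unpair1).add (DFun.const 1)).pair
        (hx.unpair2.min (DFun.comp1 hcap' hx.unpair1.unpair1))))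
    refine h2.congr ?_
    intro v
    simp [hG]
  -- the loop, started from `w = pair data start`
  have hloop := Comp.iterate (n := 1) hG' (N := fun v => dec (n + 1) (Nat.unpair (v 0)).1 0)
    (X := fun v => Nat.pair (Nat.unpair (v 0)).1 (Nat.pair 0 (Nat.unpair (v 0)).2))
    (B := fun v => Nat.pair (Nat.unpair (v 0)).1 (Nat.pair (dec (n + 1) (Nat.unpair (v 0)).1 0)
      ((Nat.unpair (v 0)).2 + cap (Nat.unpair (v 0)).1)))
    (DFun.dec hx.unpair1 0) (hx.unpair1.pair ((DFun.const 0).pair hx.unpair2))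
    (hx.unpair1.pair ((DFun.dec hx.unpair1 0).pair
      (hx.unpair2.add (DFun.comp1 hcap' hx.unpair1)))) (by
      intro v t ht
      have inv : ∀ t, ∃ s, s ≤ (Nat.unpair (v 0)).2 + cap (Nat.unpair (v 0)).1 ∧
          G^[t] (Nat.pair (Nat.unpair (v 0)).1 (Nat.pair 0 (Nat.unpair (v 0)).2)) =
            Nat.pair (Nat.unpair (v 0)).1 (Nat.pair t s) := by
        intro t
        induction t with
        | zero => exact ⟨(Nat.unpair (v 0)).2, by omega, rfl⟩
        | succ t ih =>
          obtain ⟨s, hs, he⟩ := ih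
          rw [Function.iterate_succ_apply', he]
          refine ⟨min (hv (Nat.pair (Nat.unpair (v 0)).1 (Nat.pair t s)))
            (cap (Nat.unpair (v 0)).1), ?_, ?_⟩
          · exact (min_le_right _ _).trans (Nat.le_add_left _ _)
          · simp [hG]
      obtain ⟨s, hs, he⟩ := inv t
      rw [he]
      exact pair_mono le_rfl (pair_mono ht hs))
  have hstart : Comp (n + 1) (fun v => Nat.pair (Grz.enc (n + 1) v) (g (fun i => v i.succ))) :=
    Comp.pair (Comp.of_dfun (DFun.enc (fun i => DFun.proj i)))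
      (hg.precomp (h := fun i v => v i.succ) (fun i => DFun.proj i.succ))
  have hall := (hstart.seq (G := fun x => G^[dec (n + 1) (Nat.unpair x).1 0]
    (Nat.pair (Nat.unpair x).1 (Nat.pair 0 (Nat.unpair x).2))) hloop).postcomp
    (D := fun x => (Nat.unpair (Nat.unpair x).2).2) hx.unpair2.unpair2
  refine hall.congr ?_
  intro u
  set v : Fin n → ℕ := fun i => u i.succ with hvdef
  have hu : u = Matrix.vecCons (u 0) v := by
    funext i
    refine Fin.cases ?_ (fun j => ?_) i
    · rfl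
    · simp [hvdef]
  simp only [Nat.unpair_pair, dec_enc]
  have key : ∀ t, t ≤ u 0 → G^[t] (Nat.pair (Grz.enc (n + 1) u) (Nat.pair 0 (g v))) =
      Nat.pair (Grz.enc (n + 1) u) (Nat.pair t (F (Matrix.vecCons t v))) := by
    intro t
    induction t with
    | zero => intro _; simp [hF0]
    | succ t ih =>
      intro ht
      rw [Function.iterate_succ_apply', ih (by omega)]
      simp only [hG, hhv, hcap, Nat.unpair_pair, dec_enc]
      have e1 : h (Matrix.vecCons (F (Matrix.vecCons t v)) (Matrix.vecCons t fun i => u i.succ)) =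
          F (Matrix.vecCons (t + 1) v) := (hFs v t).symm
      rw [e1, min_eq_left]
      refine (hFb _).trans ((hp _).trans (eval_mono p ?_))
      intro i
      rw [hu]
      refine Fin.cases ?_ (fun j => ?_) i
      · simpa using ht
      · simp
  rw [key (u 0) le_rfl]
  simp only [Nat.unpair_pair]
  rw [← hu]

/-- Every function in `E2` is computed by one iteration. -/
theorem E2.comp_iter {n : ℕ} {f : (Fin n → ℕ) → ℕ} (hf : E2 n f) : Comp n f := by
  induction hf with
  | zero n => exact Comp.of_dfun (DFun.const 0)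
  | succ => exact Comp.of_dfun ((DFun.proj 0).add (DFun.const 1))
  | proj i => exact Comp.of_dfun (DFun.proj i)
  | prod =>
    exact Comp.of_dfun (((DFun.proj 0).add (DFun.const 1)).mul ((DFun.proj 1).add (DFun.const 1)))
  | comp _ _ ih1 ih2 => exact ih1.comp ih2
  | limrec _ _ _ hFb hF0 hFs ihg ihh ihb => exact Comp.limrec ihg ihh ihb hFb hF0 hFs

section final

variable (S O : ℕ → ℕ) (H : ℕ → Prop) [DecidablePred H]

/-- The regressive map: codes are `pair (b+1) (clock * (b+1) + state)`. -/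
def regMap (x : ℕ) : ℕ :=
  if x = 1 then 1 else if (Nat.unpair x).1 = 0 then 0 else
    if H ((Nat.unpair x).2 % ((Nat.unpair x).1 - 1 + 1)) then
      (if O ((Nat.unpair x).2 % ((Nat.unpair x).1 - 1 + 1)) = 0 then 1 else 0)
    else if (Nat.unpair x).2 / ((Nat.unpair x).1 - 1 + 1) = 0 then 0 else
      Nat.pair (Nat.unpair x).1
        (((Nat.unpair x).2 / ((Nat.unpair x).1 - 1 + 1) - 1) * ((Nat.unpair x).1 - 1 + 1) +
          min (S ((Nat.unpair x).2 % ((Nat.unpair x).1 - 1 + 1))) ((Nat.unpair x).1 - 1))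

theorem regMap_zero : regMap S O H 0 = 0 := by simp [regMap]

theorem regMap_one : regMap S O H 1 = 1 := by simp [regMap]

theorem regMap_lt (x : ℕ) (hx2 : 2 ≤ x) : regMap S O H x < x := by
  unfold regMap
  split_ifs with h1 h2 h3 h4 h5
  · omega
  · omega
  · omega
  · omega
  · omega
  · set b := (Nat.unpair x).1 - 1 with hb
    set s := (Nat.unpair x).2 with hs
    have hx : Nat.pair (Nat.unpair x).1 s = x := Nat.pair_unpair x
    conv_rhs => rw [← hx]
    refine Nat.pair_lt_pair_right _ ?_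
    set m := min (S (s % (b + 1))) b with hm
    have hmb : m ≤ b := min_le_right _ _
    have h5 : s / (b + 1) * (b + 1) ≤ s := Nat.div_mul_le_self _ _
    obtain ⟨k, hk⟩ : ∃ k, s / (b + 1) = k + 1 := Nat.exists_eq_succ_of_ne_zero ‹_›
    rw [hk] at h5 ⊢
    have : (k + 1 - 1) * (b + 1) = k * (b + 1) := by simp
    rw [this]
    nlinarith

theorem DFun.regMap (hS : DFun 1 (fun v => S (v 0))) (hO : DFun 1 (fun v => O (v 0)))
    (hH : Delta0 1 (fun v => H (v 0))) : DFun 1 (fun v => regMap S O H (v 0)) := by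
  unfold Grz.regMap
  have hx : DFun 1 (fun v => v 0) := DFun.proj 0
  have ha := hx.unpair1
  have hs := hx.unpair2
  have hb := ha.sub (DFun.const (n := 1) 1)
  have hz := hs.mod hb
  have hr := hs.div hb
  refine DFun.ite (Delta0.eqFun hx (DFun.const 1)) (DFun.const 1) ?_
  refine DFun.ite (Delta0.eqFun ha (DFun.const 0)) (DFun.const 0) ?_
  refine DFun.ite (Delta0.comp1 hH hz) ?_ ?_
  · exact DFun.ite (Delta0.eqFun (DFun.comp1 hO hz) (DFun.const 0)) (DFun.const 1) (DFun.const 0)
  · refine DFun.ite (Delta0.eqFun hr (DFun.const 0)) (DFun.const 0) ?_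
    exact ha.pair (((hr.sub (DFun.const 1)).mul (hb.add (DFun.const 1))).add
      ((DFun.comp1 hS hz).min hb))

theorem regMap_step (b c z : ℕ) (hz : z ≤ b) (h : ¬ H z) :
    regMap S O H (Nat.pair (b + 1) ((c + 1) * (b + 1) + z)) =
      Nat.pair (b + 1) (c * (b + 1) + min (S z) b) := by
  have h2 := two_le_pair b ((c + 1) * (b + 1) + z)
  unfold regMap
  simp only [Nat.unpair_pair, Nat.add_sub_cancel]
  have hdiv : ((c + 1) * (b + 1) + z) / (b + 1) = c + 1 := by
    rw [mul_comm, Nat.mul_add_div (Nat.succ_pos _), Nat.div_eq_of_lt (by omega)]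
  have hmod : ((c + 1) * (b + 1) + z) % (b + 1) = z := by
    rw [mul_comm, Nat.mul_add_mod, Nat.mod_eq_of_lt (by omega)]
  rw [hdiv, hmod, if_neg (by omega), if_neg (by omega), if_neg h, if_neg (by omega)]
  simp

theorem regMap_stop (b c z : ℕ) (hz : z ≤ b) (h : H z) :
    regMap S O H (Nat.pair (b + 1) (c * (b + 1) + z)) = if O z = 0 then 1 else 0 := by
  have h2 := two_le_pair b (c * (b + 1) + z)
  unfold regMap
  simp only [Nat.unpair_pair, Nat.add_sub_cancel]
  have hmod : (c * (b + 1) + z) % (b + 1) = z := by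
    rw [mul_comm, Nat.mul_add_mod, Nat.mod_eq_of_lt (by omega)]
  rw [hmod, if_neg (by omega), if_neg (by omega), if_pos h]

end final

/-- **Normal form.** Every predicate in `E2Star` is decided by following the orbit of a
regressive map with `Delta0` graph, started at the value of a `DFun`. -/
theorem E2Star.normalForm {n : ℕ} {R : (Fin n → ℕ) → Prop} (hR : E2Star n R) :
    ∃ (f : ℕ → ℕ) (g : (Fin n → ℕ) → ℕ), f 0 = 0 ∧ f 1 = 1 ∧ (∀ x, 2 ≤ x → f x < x) ∧
      DFun 1 (fun v => f (v 0)) ∧ DFun n g ∧ (∀ v, 2 ≤ g v) ∧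
      ∀ v, (R v ↔ ∃ t, f^[t] (g v) = 1) := by
  classical
  obtain ⟨F, hF, hRF⟩ := hR
  obtain ⟨S, O, H, I, B, hS, hO, hH, hI, hB, hc⟩ := hF.comp_iter
  refine ⟨regMap S O H, fun v => Nat.pair (B v + 1) (B v * (B v + 1) + I v), regMap_zero _ _ _,
    regMap_one _ _ _, regMap_lt _ _ _, DFun.regMap _ _ _ hS hO hH, ?_, ?_, ?_⟩
  · exact (hB.add (DFun.const 1)).pair ((hB.mul (hB.add (DFun.const 1))).add hI)
  · intro v; exact two_le_pair _ _
  · intro v
    obtain ⟨y, hy1, hy2, hy3⟩ := hc v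
    obtain ⟨T, hT, h1, h2, h3⟩ := hy1.length_le hy2
    set b := B v with hb
    have key : ∀ t, t ≤ T → (regMap S O H)^[t] (Nat.pair (b + 1) (b * (b + 1) + I v)) =
        Nat.pair (b + 1) ((b - t) * (b + 1) + S^[t] (I v)) := by
      intro t
      induction t with
      | zero => intro _; simp
      | succ t ih =>
        intro ht
        rw [Function.iterate_succ_apply', ih (by omega)]
        have e : b - t = (b - (t + 1)) + 1 := by omega
        have h4 := h3 (t + 1) ht
        rw [Function.iterate_succ_apply'] at h4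
        rw [e, regMap_step _ _ _ _ _ _ (h3 t (by omega)) (h2 t (by omega)),
          Function.iterate_succ_apply', min_eq_left h4]
    have hfin : (regMap S O H)^[T + 1] (Nat.pair (b + 1) (b * (b + 1) + I v)) =
        if F v = 0 then 1 else 0 := by
      rw [Function.iterate_succ_apply', key T le_rfl, h1, regMap_stop _ _ _ _ _ _
        (by rw [← h1]; exact h3 T le_rfl) hy2, hy3]
    have hzero : ∀ t, (regMap S O H)^[t] 0 = 0 := fun t =>
      Function.iterate_fixed (regMap_zero _ _ _) t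
    constructor
    · intro hv
      refine ⟨T + 1, ?_⟩
      rw [hfin, if_pos ((hRF v).1 hv)]
    · rintro ⟨t, ht⟩
      by_contra hv
      have hF1 := (hRF v).2 hv
      rcases Nat.lt_or_ge T t with h | h
      · obtain ⟨s, rfl⟩ : ∃ s, t = s + (T + 1) := ⟨t - (T + 1), by omega⟩
        rw [Function.iterate_add_apply, hfin, if_neg (by omega), hzero] at ht
        omega
      · rw [key t h] at ht
        have := two_le_pair b ((b - t) * (b + 1) + S^[t] (I v))
        omega

end Pool.Agent.Grz
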