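import Mathlib
import Pool.Agent.Grz.Regressive

/-!
The Euler tour of a forest given by a regressive map, as a permutation of an initial segment.
-/

set_option autoImplicit false

namespace Pool.Agent.Grz

open Function

open Classical in
/-- The least `c` with `u < c < m` and `f c = p`, or `0` if there is none. -/
noncomputable def nxt (f : ℕ → ℕ) (m u p : ℕ) : ℕ :=
  if h : ∃ c, u < c ∧ c < m ∧ f c = p then Nat.find h else 0

theorem nxt_spec (f : ℕ → ℕ) (m u p : ℕ) :
    (nxt f m u p ≠ 0 ∧ u < nxt f m u p ∧ nxt f m u p < m ∧ f (nxt f m u p) = p ∧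
      ∀ c, u < c → c < nxt f m u p → f c ≠ p) ∨
    (nxt f m u p = 0 ∧ ∀ c, u < c → c < m → f c ≠ p) := by
  classical
  unfold nxt
  split_ifs with h
  · left
    obtain ⟨h1, h2, h3⟩ := Nat.find_spec h
    refine ⟨by omega, h1, h2, h3, ?_⟩
    intro c hc1 hc2 hc3
    exact Nat.find_min h hc2 ⟨hc1, by omega, hc3⟩
  · right
    push Not at h
    exact ⟨rfl, h⟩

theorem eq_nxt_iff (f : ℕ → ℕ) (m u p w : ℕ) :
    w = nxt f m u p ↔
    ((w ≠ 0 ∧ u < w ∧ w < m ∧ f w = p ∧ ∀ c, c ≤ w → (u < c ∧ c < w → f c ≠ p)) ∨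
    (w = 0 ∧ ∀ c, c ≤ m → (u < c ∧ c < m → f c ≠ p))) := by
  rcases nxt_spec f m u p with ⟨h0, h1, h2, h3, h4⟩ | ⟨h0, h1⟩
  · constructor
    · rintro rfl
      exact Or.inl ⟨h0, h1, h2, h3, fun c _ hc => h4 c hc.1 hc.2⟩
    · rintro (⟨k0, k1, k2, k3, k4⟩ | ⟨_, k1⟩)
      · rcases lt_trichotomy w (nxt f m u p) with h | h | h
        · exact absurd k3 (h4 w k1 h)
        · exact h
        · exact absurd h3 (k4 _ h.le ⟨h1, h⟩)
      · exact absurd h3 (k1 _ h2.le ⟨h1, h2⟩)
  · constructor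
    · intro h
      exact Or.inr ⟨h.trans h0, fun c _ hc => h1 c hc.1 hc.2⟩
    · rintro (⟨k0, k1, k2, k3, k4⟩ | ⟨k0, _⟩)
      · exact absurd k3 (h1 w k1 k2)
      · rw [h0, k0]

theorem DFun.nxt {f : ℕ → ℕ} (hf : DFun 1 (fun v => f (v 0))) :
    DFun 3 (fun v => nxt f (v 0) (v 1) (v 2)) := by
  refine DFun.ofGraph (b := fun v => v 0) (DFun.proj 0) ?_ ?_
  · intro v
    rcases nxt_spec f (v 0) (v 1) (v 2) with ⟨_, _, h, _, _⟩ | ⟨h, _⟩ <;> omega
  · have hw : DFun 4 (fun v => v 0) := DFun.proj 0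
    have hm : DFun 4 (fun v => v 1) := DFun.proj 1
    have hu : DFun 4 (fun v => v 2) := DFun.proj 2
    have hp : DFun 4 (fun v => v 3) := DFun.proj 3
    have hzero : DFun 4 (fun _ => 0) := DFun.const 0
    have hc : DFun 5 (fun v => v 0) := DFun.proj 0
    have hw' : DFun 5 (fun v => v 1) := DFun.proj 1
    have hm' : DFun 5 (fun v => v 2) := DFun.proj 2
    have hu' : DFun 5 (fun v => v 3) := DFun.proj 3
    have hp' : DFun 5 (fun v => v 4) := DFun.proj 4
    have h1 : Delta0 4 (fun v => ∀ c, c ≤ v 0 → (v 2 < c ∧ c < v 0 → f c ≠ v 3)) :=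
      Delta0.ballFun (P := fun c v => (v 2 < c ∧ c < v 0 → f c ≠ v 3)) hw
        (((Delta0.ltFun hu' hc).and (Delta0.ltFun hc hw')).imp
          (Delta0.eqFun (DFun.comp1 hf hc) hp').not)
    have h2 : Delta0 4 (fun v => ∀ c, c ≤ v 1 → (v 2 < c ∧ c < v 1 → f c ≠ v 3)) :=
      Delta0.ballFun (P := fun c v => (v 2 < c ∧ c < v 1 → f c ≠ v 3)) hm
        (((Delta0.ltFun hu' hc).and (Delta0.ltFun hc hm')).imp
          (Delta0.eqFun (DFun.comp1 hf hc) hp').not)
    have h3 := (((Delta0.eqFun hw hzero).not.and ((Delta0.ltFun hu hw).and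
      ((Delta0.ltFun hw hm).and ((Delta0.eqFun (DFun.comp1 hf hw) hp).and h1)))).or
      ((Delta0.eqFun hw hzero).and h2))
    refine h3.of_iff ?_
    intro v
    exact eq_nxt_iff f (v 1) (v 2) (v 3) (v 0)

/-- One move of the tour towards the next child of `p` after `u`. -/
noncomputable def tourStep (f : ℕ → ℕ) (m u p : ℕ) : ℕ :=
  if nxt f m u p = 0 then 2 * p + 1 else 2 * nxt f m u p

/-- The Euler tour of the forest `f` on `[0, m)` where `m = (z+1)/2`. The number `2u` is the entry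
into `u` and `2u+1` is the exit from `u`. -/
noncomputable def tour (f : ℕ → ℕ) (z d : ℕ) : ℕ :=
  if 2 * ((z + 1) / 2) ≤ d then d else
  if d % 2 = 0 then tourStep f ((z + 1) / 2) (d / 2) (d / 2) else
  if f (d / 2) = d / 2 then d - 1 else tourStep f ((z + 1) / 2) (d / 2) (f (d / 2))

theorem DFun.tourStep {f : ℕ → ℕ} (hf : DFun 1 (fun v => f (v 0))) {n : ℕ}
    {m u p : (Fin n → ℕ) → ℕ} (hm : DFun n m) (hu : DFun n u) (hp : DFun n p) :
    DFun n (fun v => tourStep f (m v) (u v) (p v)) := by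
  have h := (DFun.nxt hf).comp (n := n) (h := ![m, u, p]) (by
    intro i
    fin_cases i
    · exact hm
    · exact hu
    · exact hp)
  have h' : DFun n (fun v => Grz.nxt f (m v) (u v) (p v)) := by simpa using h
  exact DFun.ite (Delta0.eqFun h' (DFun.const 0)) (((DFun.const 2).mul hp).add (DFun.const 1))
    ((DFun.const 2).mul h')

theorem DFun.half {n : ℕ} {f : (Fin n → ℕ) → ℕ} (hf : DFun n f) : DFun n (fun v => f v / 2) :=
  hf.div (DFun.const 1)

theorem DFun.mod2 {n : ℕ} {f : (Fin n → ℕ) → ℕ} (hf : DFun n f) : DFun n (fun v => f v % 2) :=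
  hf.mod (DFun.const 1)

theorem DFun.tour {f : ℕ → ℕ} (hf : DFun 1 (fun v => f (v 0))) {n : ℕ}
    {z d : (Fin n → ℕ) → ℕ} (hz : DFun n z) (hd : DFun n d) :
    DFun n (fun v => tour f (z v) (d v)) := by
  unfold Grz.tour
  have hm : DFun n (fun v => (z v + 1) / 2) := (hz.add (DFun.const 1)).half
  have hu := hd.half
  have hfu := DFun.comp1 hf hu
  refine DFun.ite (Delta0.leFun ((DFun.const 2).mul hm) hd) hd ?_
  refine DFun.ite (Delta0.eqFun hd.mod2 (DFun.const 0)) (DFun.tourStep hf hm hu hu) ?_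
  exact DFun.ite (Delta0.eqFun hfu hu) (hd.sub (DFun.const 1)) (DFun.tourStep hf hm hu hfu)

section perm

variable {f : ℕ → ℕ} (hf : ∀ x, f x ≤ x)

/-- Description of the moves of the tour. -/
theorem tour_even (f : ℕ → ℕ) (z u : ℕ) (hu : u < (z + 1) / 2) :
    tour f z (2 * u) = tourStep f ((z + 1) / 2) u u := by
  unfold tour
  rw [if_neg (by omega), if_pos (by omega)]
  congr 1 <;> omega

theorem tour_root (f : ℕ → ℕ) (z u : ℕ) (hu : u < (z + 1) / 2) (hr : f u = u) :
    tour f z (2 * u + 1) = 2 * u := by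
  unfold tour
  have h : (2 * u + 1) / 2 = u := by omega
  rw [if_neg (by omega), if_neg (by omega), h, if_pos hr]
  omega

theorem tour_odd (f : ℕ → ℕ) (z u : ℕ) (hu : u < (z + 1) / 2) (hr : f u ≠ u) :
    tour f z (2 * u + 1) = tourStep f ((z + 1) / 2) u (f u) := by
  unfold tour
  have h : (2 * u + 1) / 2 = u := by omega
  rw [if_neg (by omega), if_neg (by omega), h, if_neg hr]

theorem tour_big (f : ℕ → ℕ) (z d : ℕ) (hd : 2 * ((z + 1) / 2) ≤ d) : tour f z d = d := by
  unfold tour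
  rw [if_pos hd]

/-- The possible shapes of a move. -/
theorem tourStep_cases (f : ℕ → ℕ) (m u p : ℕ) :
    (∃ c, tourStep f m u p = 2 * c ∧ u < c ∧ c < m ∧ f c = p ∧
      ∀ c', u < c' → c' < c → f c' ≠ p) ∨
    (tourStep f m u p = 2 * p + 1 ∧ ∀ c, u < c → c < m → f c ≠ p) := by
  unfold tourStep
  rcases nxt_spec f m u p with ⟨h0, h1, h2, h3, h4⟩ | ⟨h0, h1⟩
  · left
    rw [if_neg h0]
    exact ⟨_, rfl, h1, h2, h3, h4⟩
  · right
    rw [if_pos h0]
    exact ⟨rfl, h1⟩

include hf in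
theorem tour_mapsTo (z : ℕ) : Set.MapsTo (tour f z) (Set.Iic z) (Set.Iic z) := by
  intro d hd
  simp only [Set.mem_Iic] at hd ⊢
  rcases Nat.lt_or_ge d (2 * ((z + 1) / 2)) with h | h
  · rcases Nat.even_or_odd' d with ⟨u, rfl | rfl⟩
    · rw [tour_even f z u (by omega)]
      rcases tourStep_cases f ((z + 1) / 2) u u with ⟨c, h1, _, h3, _⟩ | ⟨h1, _⟩ <;>
        rw [h1] <;> omega
    · by_cases hr : f u = u
      · rw [tour_root f z u (by omega) hr]; omega
      · rw [tour_odd f z u (by omega) hr]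
        have := hf u
        rcases tourStep_cases f ((z + 1) / 2) u (f u) with ⟨c, h1, _, h3, _⟩ | ⟨h1, _⟩ <;>
          rw [h1] <;> omega
  · rw [tour_big f z d h]; exact hd

/-- The origin of a move: `d` moves to `2 * c`. -/
theorem tour_to_even {z d c : ℕ} (hd : d < 2 * ((z + 1) / 2)) (h : tour f z d = 2 * c) :
    (d = 2 * c + 1 ∧ f c = c) ∨
    (∃ u p, u < c ∧ f c = p ∧ (∀ c', u < c' → c' < c → f c' ≠ p) ∧
      ((d = 2 * u ∧ p = u) ∨ (d = 2 * u + 1 ∧ f u ≠ u ∧ p = f u))) := by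
  rcases Nat.even_or_odd' d with ⟨u, rfl | rfl⟩
  · rw [tour_even f z u (by omega)] at h
    rcases tourStep_cases f ((z + 1) / 2) u u with ⟨c', h1, h2, h3, h4, h5⟩ | ⟨h1, _⟩
    · obtain rfl : c' = c := by omega
      exact Or.inr ⟨u, u, h2, h4, h5, Or.inl ⟨rfl, rfl⟩⟩
    · omega
  · by_cases hr : f u = u
    · rw [tour_root f z u (by omega) hr] at h
      obtain rfl : u = c := by omega
      exact Or.inl ⟨rfl, hr⟩
    · rw [tour_odd f z u (by omega) hr] at h
      rcases tourStep_cases f ((z + 1) / 2) u (f u) with ⟨c', h1, h2, h3, h4, h5⟩ | ⟨h1, _⟩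
      · obtain rfl : c' = c := by omega
        exact Or.inr ⟨u, f u, h2, h4, h5, Or.inr ⟨rfl, hr, rfl⟩⟩
      · omega

theorem tour_to_odd {z d p : ℕ} (hd : d < 2 * ((z + 1) / 2)) (h : tour f z d = 2 * p + 1) :
    ∃ u, (∀ c, u < c → c < (z + 1) / 2 → f c ≠ p) ∧
      ((d = 2 * u ∧ p = u) ∨ (d = 2 * u + 1 ∧ f u ≠ u ∧ p = f u)) := by
  rcases Nat.even_or_odd' d with ⟨u, rfl | rfl⟩
  · rw [tour_even f z u (by omega)] at h
    rcases tourStep_cases f ((z + 1) / 2) u u with ⟨c', h1, h2, h3, h4, h5⟩ | ⟨h1, h2⟩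
    · omega
    · obtain rfl : u = p := by omega
      exact ⟨u, h2, Or.inl ⟨rfl, rfl⟩⟩
  · by_cases hr : f u = u
    · rw [tour_root f z u (by omega) hr] at h
      omega
    · rw [tour_odd f z u (by omega) hr] at h
      rcases tourStep_cases f ((z + 1) / 2) u (f u) with ⟨c', h1, h2, h3, h4, h5⟩ | ⟨h1, h2⟩
      · omega
      · obtain rfl : f u = p := by omega
        exact ⟨u, h2, Or.inr ⟨rfl, hr, rfl⟩⟩

include hf in
theorem tour_small {z d : ℕ} (hd : d < 2 * ((z + 1) / 2)) :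
    tour f z d < 2 * ((z + 1) / 2) := by
  rcases Nat.even_or_odd' d with ⟨u, rfl | rfl⟩
  · rw [tour_even f z u (by omega)]
    rcases tourStep_cases f ((z + 1) / 2) u u with ⟨c, h1, _, h3, _⟩ | ⟨h1, _⟩ <;>
      rw [h1] <;> omega
  · by_cases hr : f u = u
    · rw [tour_root f z u (by omega) hr]; omega
    · rw [tour_odd f z u (by omega) hr]
      have := hf u
      rcases tourStep_cases f ((z + 1) / 2) u (f u) with ⟨c, h1, _, h3, _⟩ | ⟨h1, _⟩ <;>
        rw [h1] <;> omega

include hf in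
theorem tour_injective (z : ℕ) : Function.Injective (tour f z) := by
  intro d e hde
  rcases Nat.lt_or_ge d (2 * ((z + 1) / 2)) with hd | hd
  · rcases Nat.lt_or_ge e (2 * ((z + 1) / 2)) with he | he
    · rcases Nat.even_or_odd' (tour f z e) with ⟨c, hc | hc⟩
      · have h1 := tour_to_even hd (hde.trans hc)
        have h2 := tour_to_even he hc
        rcases h1 with ⟨rfl, hr⟩ | ⟨u, p, hu, hp, hmin, hcase⟩
        · rcases h2 with ⟨rfl, _⟩ | ⟨u', p', hu', hp', hmin', hcase'⟩
          · rfl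
          · have := hf u'
            rcases hcase' with ⟨_, h⟩ | ⟨_, _, h⟩ <;> omega
        · rcases h2 with ⟨rfl, hr⟩ | ⟨u', p', hu', hp', hmin', hcase'⟩
          · have := hf u
            rcases hcase with ⟨_, h⟩ | ⟨_, _, h⟩ <;> omega
          · obtain rfl : p = p' := hp.symm.trans hp'
            have hfu := hf u
            have hfu' := hf u'
            rcases hcase with ⟨rfl, h⟩ | ⟨rfl, hn, h⟩
            · rcases hcase' with ⟨rfl, h'⟩ | ⟨rfl, hn', h'⟩
              · omega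
              · exact absurd h'.symm (hmin u' (by omega) hu')
            · rcases hcase' with ⟨rfl, h'⟩ | ⟨rfl, hn', h'⟩
              · exact absurd h.symm (hmin' u (by omega) hu)
              · rcases lt_trichotomy u u' with h3 | h3 | h3
                · exact absurd h'.symm (hmin u' h3 hu')
                · rw [h3]
                · exact absurd h.symm (hmin' u h3 hu)
      · obtain ⟨u, hmin, hcase⟩ := tour_to_odd hd (hde.trans hc)
        obtain ⟨u', hmin', hcase'⟩ := tour_to_odd he hc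
        have hfu := hf u
        have hfu' := hf u'
        rcases hcase with ⟨rfl, h⟩ | ⟨rfl, hn, h⟩
        · rcases hcase' with ⟨rfl, h'⟩ | ⟨rfl, hn', h'⟩
          · omega
          · exact absurd h'.symm (hmin u' (by omega) (by omega))
        · rcases hcase' with ⟨rfl, h'⟩ | ⟨rfl, hn', h'⟩
          · exact absurd h.symm (hmin' u (by omega) (by omega))
          · rcases lt_trichotomy u u' with h3 | h3 | h3
            · exact absurd h'.symm (hmin u' h3 (by omega))
            · rw [h3]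
            · exact absurd h.symm (hmin' u h3 (by omega))
    · have h1 := tour_small hf hd
      rw [hde, tour_big f z e he] at h1
      omega
  · rcases Nat.lt_or_ge e (2 * ((z + 1) / 2)) with he | he
    · have h1 := tour_small hf he
      rw [← hde, tour_big f z d hd] at h1
      omega
    · rwa [tour_big f z d hd, tour_big f z e he] at hde

include hf in
theorem tour_bijOn (z : ℕ) : Set.BijOn (tour f z) (Set.Iic z) (Set.Iic z) := by
  rw [← Set.Finite.injOn_iff_bijOn_of_mapsTo (Set.finite_Iic z) (tour_mapsTo hf z)]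
  exact (tour_injective hf z).injOn

end perm

end Pool.Agent.Grz
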