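import Mathlib
import Pool.Agent.Grz.Tour

/-!
The cycles of the Euler tour are the trees of the forest.
-/

set_option autoImplicit false

namespace Pool.Agent.Grz

open Function

/-- `e` is reached from `d` by iterating `g`. -/
def Reach (g : ℕ → ℕ) (d e : ℕ) : Prop := ∃ t, g^[t] d = e

theorem Reach.refl (g : ℕ → ℕ) (d : ℕ) : Reach g d d := ⟨0, rfl⟩

theorem Reach.trans {g : ℕ → ℕ} {a b c : ℕ} (h1 : Reach g a b) (h2 : Reach g b c) :
    Reach g a c := by
  obtain ⟨s, hs⟩ := h1
  obtain ⟨t, ht⟩ := h2
  exact ⟨t + s, by rw [Function.iterate_add_apply, hs, ht]⟩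

theorem Reach.step (g : ℕ → ℕ) (d : ℕ) : Reach g d (g d) := ⟨1, rfl⟩

/-- For an injective map preserving `[0,z]` every point of `[0,z]` is periodic with a period
between `1` and `z+1`. -/
theorem exists_period {g : ℕ → ℕ} {z : ℕ} (hm : Set.MapsTo g (Set.Iic z) (Set.Iic z))
    (hi : Set.InjOn g (Set.Iic z)) {x : ℕ} (hx : x ≤ z) :
    ∃ k, 1 ≤ k ∧ k ≤ z + 1 ∧ g^[k] x = x := by
  have hit : ∀ t, g^[t] x ∈ Set.Iic z := by
    intro t
    induction t with
    | zero => exact hx
    | succ t ih => rw [Function.iterate_succ_apply']; exact hm ih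
  have hcard : (Finset.range (z + 1)).card < (Finset.range (z + 2)).card := by simp
  obtain ⟨i, hi1, j, hj1, hij, heq⟩ := Finset.exists_ne_map_eq_of_card_lt_of_maps_to hcard
    (f := fun t => g^[t] x) (fun t _ => by
      have := hit t
      simp only [Set.mem_Iic] at this
      simp only [Finset.coe_range, Set.mem_Iio]
      omega)
  have main : ∀ i j, i < j → j < z + 2 → g^[i] x = g^[j] x →
      ∃ k, 1 ≤ k ∧ k ≤ z + 1 ∧ g^[k] x = x := by
    intro i j hlt hj heq
    refine ⟨j - i, by omega, by omega, ?_⟩
    induction i generalizing j with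
    | zero => simpa using heq.symm
    | succ i ih =>
      obtain ⟨j', rfl⟩ : ∃ j', j = j' + 1 := ⟨j - 1, by omega⟩
      rw [Function.iterate_succ_apply', Function.iterate_succ_apply'] at heq
      have := ih j' (by omega) (by omega) (hi (hit i) (hit j') heq)
      rwa [Nat.add_sub_add_right]
  simp only [Finset.mem_range] at hi1 hj1
  rcases Nat.lt_or_gt_of_ne hij with h | h
  · exact main i j h hj1 heq
  · exact main j i h hi1 heq.symm

theorem Reach.symm {g : ℕ → ℕ} {z : ℕ} (hm : Set.MapsTo g (Set.Iic z) (Set.Iic z))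
    (hi : Set.InjOn g (Set.Iic z)) {x y : ℕ} (hx : x ≤ z) (h : Reach g x y) : Reach g y x := by
  obtain ⟨k, hk1, _, hk⟩ := exists_period hm hi hx
  obtain ⟨t, ht⟩ := h
  have hkt : g^[k * (t + 1)] x = x := by
    rw [Function.iterate_mul]
    exact Function.iterate_fixed hk _
  refine ⟨k * (t + 1) - t, ?_⟩
  have hle : t ≤ k * (t + 1) := by nlinarith
  rw [← ht, ← Function.iterate_add_apply, Nat.sub_add_cancel hle, hkt]

theorem Reach.bounded {g : ℕ → ℕ} {z : ℕ} (hm : Set.MapsTo g (Set.Iic z) (Set.Iic z))
    (hi : Set.InjOn g (Set.Iic z)) {x y : ℕ} (hx : x ≤ z) (h : Reach g x y) :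
    ∃ t, t ≤ z ∧ g^[t] x = y := by
  obtain ⟨k, hk1, hk2, hk⟩ := exists_period hm hi hx
  obtain ⟨t, ht⟩ := h
  refine ⟨t % k, ?_, ?_⟩
  · have := Nat.mod_lt t (show 0 < k by omega)
    omega
  · have hp : Function.IsPeriodicPt g k x := hk
    rw [hp.iterate_mod_apply, ht]

theorem exists_greatest {P : ℕ → Prop} {N : ℕ} (h : ∃ c, c < N ∧ P c) :
    ∃ c, c < N ∧ P c ∧ ∀ c', c < c' → c' < N → ¬ P c' := by
  induction N with
  | zero => obtain ⟨c, hc, _⟩ := h; omega
  | succ N ih =>
    by_cases hN : P N
    · exact ⟨N, Nat.lt_succ_self N, hN, fun c' h1 h2 => by omega⟩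
    · obtain ⟨c, hc, hPc⟩ := h
      have hcN : c < N := by
        rcases Nat.lt_or_ge c N with h | h
        · exact h
        · obtain rfl : c = N := by omega
          exact absurd hPc hN
      obtain ⟨c, hc, hPc, hmax⟩ := ih ⟨c, hcN, hPc⟩
      refine ⟨c, by omega, hPc, ?_⟩
      intro c' h1 h2
      rcases Nat.lt_or_ge c' N with h | h
      · exact hmax c' h1 h
      · obtain rfl : c' = N := by omega
        exact hN

variable {f : ℕ → ℕ} (hf : ∀ x, f x ≤ x)

/-- If `c` is the next element after `u` with parent `p`, the tour step goes to the entry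
of `c`. -/
theorem tourStep_eq_even {m u p c : ℕ} (h1 : u < c) (h2 : c < m) (h3 : f c = p)
    (h4 : ∀ c', u < c' → c' < c → f c' ≠ p) : tourStep f m u p = 2 * c := by
  rcases tourStep_cases f m u p with ⟨c', h5, h6, h7, h8, h9⟩ | ⟨_, h6⟩
  · rcases lt_trichotomy c c' with h | h | h
    · exact absurd h3 (h9 c h1 h)
    · rw [h5, h]
    · exact absurd h8 (h4 c' h6 h)
  · exact absurd h3 (h6 c h1 h2)

theorem tourStep_eq_odd {m u p : ℕ} (h : ∀ c, u < c → c < m → f c ≠ p) :
    tourStep f m u p = 2 * p + 1 := by
  rcases tourStep_cases f m u p with ⟨c', h5, h6, h7, h8, h9⟩ | ⟨h5, _⟩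
  · exact absurd h8 (h c' h6 h7)
  · exact h5

omit hf in
/-- Inside the tour, the entry of `u` leads to the exit of `u` and to the entries of the
children of `u`. -/
theorem reach_children (z : ℕ) : ∀ k u, u < (z + 1) / 2 → (z + 1) / 2 - u ≤ k →
    Reach (tour f z) (2 * u) (2 * u + 1) ∧
    ∀ c, u < c → c < (z + 1) / 2 → f c = u → Reach (tour f z) (2 * u) (2 * c) := by
  intro k
  induction k with
  | zero => intro u hu hk; omega
  | succ k ih =>
    intro u hu hk
    have hch : ∀ c, u < c → c < (z + 1) / 2 → f c = u → Reach (tour f z) (2 * u) (2 * c) := by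
      intro c
      induction c using Nat.strong_induction_on with
      | _ c ihc =>
        intro h1 h2 h3
        by_cases hprev : ∃ c', c' < c ∧ (u < c' ∧ f c' = u)
        · obtain ⟨c', hc', ⟨huc', hfc'⟩, hmax⟩ := exists_greatest hprev
          have r1 := ihc c' hc' huc' (by omega) hfc'
          have r2 := (ih c' (by omega) (by omega)).1
          have r3 : tour f z (2 * c' + 1) = 2 * c := by
            rw [tour_odd f z c' (by omega) (by omega), hfc']
            refine tourStep_eq_even hc' h2 h3 ?_
            intro c'' h4 h5 h6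
            exact hmax c'' h4 h5 ⟨by omega, h6⟩
          refine r1.trans (r2.trans ?_)
          rw [← r3]
          exact Reach.step _ _
        · push Not at hprev
          have r3 : tour f z (2 * u) = 2 * c := by
            rw [tour_even f z u hu]
            refine tourStep_eq_even h1 h2 h3 ?_
            intro c'' h4 h5 h6
            exact hprev c'' h5 h4 h6
          rw [← r3]
          exact Reach.step _ _
    refine ⟨?_, hch⟩
    by_cases hlast : ∃ c, c < (z + 1) / 2 ∧ (u < c ∧ f c = u)
    · obtain ⟨c, hc, ⟨huc, hfc⟩, hmax⟩ := exists_greatest hlast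
      have r1 := hch c huc hc hfc
      have r2 := (ih c (by omega) (by omega)).1
      have r3 : tour f z (2 * c + 1) = 2 * u + 1 := by
        rw [tour_odd f z c (by omega) (by omega), hfc]
        refine tourStep_eq_odd ?_
        intro c'' h4 h5 h6
        exact hmax c'' h4 h5 ⟨by omega, h6⟩
      refine r1.trans (r2.trans ?_)
      rw [← r3]
      exact Reach.step _ _
    · push Not at hlast
      have r3 : tour f z (2 * u) = 2 * u + 1 := by
        rw [tour_even f z u hu]
        refine tourStep_eq_odd ?_
        intro c'' h4 h5 h6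
        exact hlast c'' h5 h4 h6
      rw [← r3]
      exact Reach.step _ _

include hf in
/-- If the orbit of `x` under `f` contains `r`, the tour leads from the entry of `r` to the
entry of `x`. -/
theorem reach_of_orbit {z x r : ℕ} (hx : x < (z + 1) / 2) (h : ∃ t, f^[t] x = r) :
    Reach (tour f z) (2 * r) (2 * x) := by
  obtain ⟨t, ht⟩ := h
  induction t generalizing x with
  | zero => simp only [Function.iterate_zero, id_eq] at ht; rw [ht]; exact Reach.refl _ _
  | succ t ih =>
    rw [Function.iterate_succ_apply] at ht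
    have hfx := hf x
    have h1 := ih (by omega) ht
    by_cases hr : f x = x
    · rwa [hr] at h1
    · exact h1.trans ((reach_children z _ (f x) (by omega) le_rfl).2 x (by omega) hx rfl)

/-- Going to the root `r` is invariant under the tour. -/
theorem orbit_iff_of_fixed {r : ℕ} (hr : f r = r) (u : ℕ) :
    (∃ t, f^[t] u = r) ↔ ∃ t, f^[t] (f u) = r := by
  constructor
  · rintro ⟨t, ht⟩
    refine ⟨t, ?_⟩
    rw [← Function.iterate_succ_apply, Function.iterate_succ_apply', ht, hr]
  · rintro ⟨t, ht⟩
    exact ⟨t + 1, by rw [Function.iterate_succ_apply, ht]⟩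

theorem tour_root_invariant {r : ℕ} (hr : f r = r) (z d : ℕ) :
    (∃ t, f^[t] (d / 2) = r) ↔ ∃ t, f^[t] (tour f z d / 2) = r := by
  rcases Nat.lt_or_ge d (2 * ((z + 1) / 2)) with hd | hd
  · rcases Nat.even_or_odd' d with ⟨u, rfl | rfl⟩
    · have e0 : 2 * u / 2 = u := by omega
      rw [tour_even f z u (by omega), e0]
      rcases tourStep_cases f ((z + 1) / 2) u u with ⟨c, h1, _, _, h4, _⟩ | ⟨h1, _⟩
      · have e1 : 2 * c / 2 = c := by omega
        rw [h1, e1, orbit_iff_of_fixed hr c, h4]
      · have e1 : (2 * u + 1) / 2 = u := by omega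
        rw [h1, e1]
    · have e0 : (2 * u + 1) / 2 = u := by omega
      rw [e0]
      by_cases hu : f u = u
      · have e1 : 2 * u / 2 = u := by omega
        rw [tour_root f z u (by omega) hu, e1]
      · rw [tour_odd f z u (by omega) hu]
        rcases tourStep_cases f ((z + 1) / 2) u (f u) with ⟨c, h1, _, _, h4, _⟩ | ⟨h1, _⟩
        · have e1 : 2 * c / 2 = c := by omega
          rw [h1, e1, orbit_iff_of_fixed hr c, h4, ← orbit_iff_of_fixed hr u]
        · have e1 : (2 * f u + 1) / 2 = f u := by omega
          rw [h1, e1, ← orbit_iff_of_fixed hr u]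
  · rw [tour_big f z d hd]

include hf in
/-- The tour leads from the entry of a fixed point `r` to the entry of `x` exactly when
the orbit of `x` contains `r`. -/
theorem reach_tour_iff {z x r : ℕ} (hx : x < (z + 1) / 2) (hr : f r = r) :
    Reach (tour f z) (2 * r) (2 * x) ↔ ∃ t, f^[t] x = r := by
  constructor
  · rintro ⟨s, hs⟩
    have key : ∀ s, ∃ t, f^[t] ((tour f z)^[s] (2 * r) / 2) = r := by
      intro s
      induction s with
      | zero =>
        refine ⟨0, ?_⟩
        simp
      | succ s ih =>
        rw [Function.iterate_succ_apply', ← tour_root_invariant hr]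
        exact ih
    have := key s
    rw [hs] at this
    have e1 : 2 * x / 2 = x := by omega
    rwa [e1] at this
  · exact reach_of_orbit hf hx

end Pool.Agent.Grz
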