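import Mathlib
import Pool.Agent.Grz.Cycles
import Pool.Agent.Grz.Iter

/-!
Cycles of a permutation of `[0,z]` and their behaviour under multiplication by a transposition.
The glued Euler tour of a forest has one or three cycles.
-/

set_option autoImplicit false

namespace Pool.Agent.Grz

/-- The cycle (forward orbit) of `x` under `g`. -/
def cycleOf (g : ℕ → ℕ) (x : ℕ) : Set ℕ := {y | ∃ t, g^[t] x = y}

/-- The number of cycles of a permutation `g` of `[0,z]` (fixed points are cycles). -/
noncomputable def numCycles (g : ℕ → ℕ) (z : ℕ) : ℕ :=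
  Set.ncard {C : Set ℕ | ∃ x, x ≤ z ∧ C = cycleOf g x}

theorem mem_cycleOf {g : ℕ → ℕ} {x y : ℕ} : y ∈ cycleOf g x ↔ Reach g x y := Iff.rfl

section basic

variable {g : ℕ → ℕ} {z : ℕ} (hm : Set.MapsTo g (Set.Iic z) (Set.Iic z))
  (hi : Set.InjOn g (Set.Iic z))

include hm in
theorem Reach.le {x y : ℕ} (hx : x ≤ z) (h : Reach g x y) : y ≤ z := by
  obtain ⟨t, ht⟩ := h
  have : ∀ t, g^[t] x ≤ z := by
    intro t
    induction t with
    | zero => exact hx
    | succ t ih => rw [Function.iterate_succ_apply']; exact hm ih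
  rw [← ht]
  exact this t

include hm hi in
theorem cycleOf_eq_iff {x y : ℕ} (hx : x ≤ z) :
    cycleOf g x = cycleOf g y ↔ Reach g x y := by
  constructor
  · intro h
    have : y ∈ cycleOf g y := Reach.refl g y
    rw [← h] at this
    exact this
  · intro h
    have h' := Reach.symm hm hi hx h
    ext w
    exact ⟨fun hw => h'.trans hw, fun hw => h.trans hw⟩

include hm hi in
theorem numCycles_eq_one_iff : numCycles g z = 1 ↔ ∀ x, x ≤ z → Reach g 0 x := by
  unfold numCycles
  rw [Set.ncard_eq_one]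
  constructor
  · rintro ⟨C, hC⟩ x hx
    have h0 : cycleOf g 0 ∈ {C : Set ℕ | ∃ x, x ≤ z ∧ C = cycleOf g x} := ⟨0, Nat.zero_le _, rfl⟩
    have hx' : cycleOf g x ∈ {C : Set ℕ | ∃ x, x ≤ z ∧ C = cycleOf g x} := ⟨x, hx, rfl⟩
    rw [hC] at h0 hx'
    have : cycleOf g 0 = cycleOf g x := h0.trans hx'.symm
    exact (cycleOf_eq_iff hm hi (Nat.zero_le _)).mp this
  · intro h
    refine ⟨cycleOf g 0, ?_⟩
    ext C
    constructor
    · rintro ⟨x, hx, rfl⟩
      exact ((cycleOf_eq_iff hm hi (Nat.zero_le _)).mpr (h x hx)).symm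
    · intro hC
      exact ⟨0, Nat.zero_le _, hC⟩

include hm hi in
theorem numCycles_eq_three {a b c : ℕ} (ha : a ≤ z) (hb : b ≤ z) (hc : c ≤ z)
    (hab : ¬ Reach g a b) (hac : ¬ Reach g a c) (hbc : ¬ Reach g b c)
    (hall : ∀ x, x ≤ z → Reach g x a ∨ Reach g x b ∨ Reach g x c) : numCycles g z = 3 := by
  unfold numCycles
  rw [Set.ncard_eq_three]
  refine ⟨cycleOf g a, cycleOf g b, cycleOf g c, ?_, ?_, ?_, ?_⟩
  · intro h; exact hab ((cycleOf_eq_iff hm hi ha).mp h)
  · intro h; exact hac ((cycleOf_eq_iff hm hi ha).mp h)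
  · intro h; exact hbc ((cycleOf_eq_iff hm hi hb).mp h)
  · ext C
    simp only [Set.mem_ofPred_eq, Set.mem_insert_iff, Set.mem_singleton_iff]
    constructor
    · rintro ⟨x, hx, rfl⟩
      rcases hall x hx with h | h | h
      · exact Or.inl ((cycleOf_eq_iff hm hi hx).mpr h)
      · exact Or.inr (Or.inl ((cycleOf_eq_iff hm hi hx).mpr h))
      · exact Or.inr (Or.inr ((cycleOf_eq_iff hm hi hx).mpr h))
    · rintro (rfl | rfl | rfl)
      · exact ⟨a, ha, rfl⟩
      · exact ⟨b, hb, rfl⟩
      · exact ⟨c, hc, rfl⟩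

end basic

/-- `τ` precomposed with the transposition of `a` and `b`. -/
def twist (τ : ℕ → ℕ) (a b d : ℕ) : ℕ := if d = a then τ b else if d = b then τ a else τ d

theorem twist_left (τ : ℕ → ℕ) (a b : ℕ) : twist τ a b a = τ b := by simp [twist]

theorem twist_right (τ : ℕ → ℕ) (a b : ℕ) : twist τ a b b = τ a := by
  unfold twist
  by_cases h : b = a
  · rw [if_pos h, h]
  · rw [if_neg h, if_pos rfl]

theorem twist_other (τ : ℕ → ℕ) {a b d : ℕ} (ha : d ≠ a) (hb : d ≠ b) :
    twist τ a b d = τ d := by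
  unfold twist
  rw [if_neg ha, if_neg hb]

section twist

variable {τ : ℕ → ℕ} {z : ℕ} (hm : Set.MapsTo τ (Set.Iic z) (Set.Iic z))
  (hi : Set.InjOn τ (Set.Iic z)) {a b : ℕ} (ha : a ≤ z) (hb : b ≤ z)

include hm ha hb in
theorem twist_mapsTo : Set.MapsTo (twist τ a b) (Set.Iic z) (Set.Iic z) := by
  intro d hd
  unfold twist
  split_ifs
  · exact hm hb
  · exact hm ha
  · exact hm hd

include hi ha hb in
theorem twist_injOn : Set.InjOn (twist τ a b) (Set.Iic z) := by
  intro d hd e he h
  unfold twist at h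
  split_ifs at h with h1 h2 h3 h4 h5 h6 h7 h8
  all_goals first
    | (rw [h1, h2])
    | skip
  all_goals first
    | (have := hi hb ha h; omega)
    | (have := hi hb he h; omega)
    | (have := hi ha hb h; omega)
    | (have := hi ha he h; omega)
    | (have := hi hd hb h; omega)
    | (have := hi hd ha h; omega)
    | (have := hi hd he h; omega)
    | omega

include hm hi ha hb in
theorem twist_bijOn : Set.BijOn (twist τ a b) (Set.Iic z) (Set.Iic z) := by
  rw [← Set.Finite.injOn_iff_bijOn_of_mapsTo (Set.finite_Iic z) (twist_mapsTo hm ha hb)]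
  exact twist_injOn hi ha hb

/-- Before the first visit of `{a, b}` the two maps agree. -/
theorem iterate_twist {c t : ℕ} (h : ∀ s, s < t → τ^[s] c ≠ a ∧ τ^[s] c ≠ b) :
    (twist τ a b)^[t] c = τ^[t] c := by
  induction t with
  | zero => rfl
  | succ t ih =>
    rw [Function.iterate_succ_apply', Function.iterate_succ_apply',
      ih (fun s hs => h s (by omega))]
    exact twist_other τ (h t (by omega)).1 (h t (by omega)).2

/-- The first visit of `{a, b}`. -/
theorem first_hit {c : ℕ} (h : Reach τ c a ∨ Reach τ c b) :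
    ∃ t, (τ^[t] c = a ∨ τ^[t] c = b) ∧ ∀ s, s < t → τ^[s] c ≠ a ∧ τ^[s] c ≠ b := by
  classical
  have hex : ∃ t, τ^[t] c = a ∨ τ^[t] c = b := by
    rcases h with ⟨t, ht⟩ | ⟨t, ht⟩
    · exact ⟨t, Or.inl ht⟩
    · exact ⟨t, Or.inr ht⟩
  refine ⟨Nat.find hex, Nat.find_spec hex, ?_⟩
  intro s hs
  have := Nat.find_min hex hs
  push Not at this
  exact this

theorem twist_reach_either {c : ℕ} (h : Reach τ c a ∨ Reach τ c b) :
    Reach (twist τ a b) c a ∨ Reach (twist τ a b) c b := by
  obtain ⟨t, ht, hmin⟩ := first_hit h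
  have e := iterate_twist hmin
  rcases ht with ht | ht
  · exact Or.inl ⟨t, by rw [e, ht]⟩
  · exact Or.inr ⟨t, by rw [e, ht]⟩

theorem twist_reach_left {c : ℕ} (h : Reach τ c a) (h' : ¬ Reach τ c b) :
    Reach (twist τ a b) c a := by
  obtain ⟨t, ht, hmin⟩ := first_hit (b := b) (Or.inl h)
  have e := iterate_twist hmin
  rcases ht with ht | ht
  · exact ⟨t, by rw [e, ht]⟩
  · exact absurd ⟨t, ht⟩ h'

theorem twist_reach_right {c : ℕ} (h : Reach τ c b) (h' : ¬ Reach τ c a) :
    Reach (twist τ a b) c b := by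
  obtain ⟨t, ht, hmin⟩ := first_hit (a := a) (Or.inr h)
  have e := iterate_twist hmin
  rcases ht with ht | ht
  · exact absurd ⟨t, ht⟩ h'
  · exact ⟨t, by rw [e, ht]⟩

include hm hi ha hb in
/-- Points in different cycles: the two cycles merge. -/
theorem twist_merge (hab : ¬ Reach τ a b) :
    Reach (twist τ a b) a b ∧ Reach (twist τ a b) b a ∧
      (∀ c, Reach τ c a → Reach (twist τ a b) c a) ∧
      (∀ c, Reach τ c b → Reach (twist τ a b) c a) := by
  have hba : ¬ Reach τ b a := fun h => hab (Reach.symm hm hi hb h)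
  have h1 : Reach (twist τ a b) (τ b) b := by
    refine twist_reach_right ?_ ?_
    · exact Reach.symm hm hi hb (Reach.step τ b)
    · intro h; exact hba ((Reach.step τ b).trans h)
  have h2 : Reach (twist τ a b) a b := by
    have := Reach.step (twist τ a b) a
    rw [twist_left] at this
    exact this.trans h1
  have h3 : Reach (twist τ a b) (τ a) a := by
    refine twist_reach_left ?_ ?_
    · exact Reach.symm hm hi ha (Reach.step τ a)
    · intro h; exact hab ((Reach.step τ a).trans h)
  have h4 : Reach (twist τ a b) b a := by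
    have := Reach.step (twist τ a b) b
    rw [twist_right] at this
    exact this.trans h3
  refine ⟨h2, h4, ?_, ?_⟩
  · intro c hc
    rcases twist_reach_either (b := b) (Or.inl hc) with h | h
    · exact h
    · exact h.trans h4
  · intro c hc
    rcases twist_reach_either (a := a) (Or.inr hc) with h | h
    · exact h
    · exact h.trans h4

/-- Reached points occur before the period. -/
theorem Reach.lt_period {g : ℕ → ℕ} {x y p : ℕ} (hp : 0 < p) (h : g^[p] x = x)
    (hy : Reach g x y) : ∃ i, i < p ∧ g^[i] x = y := by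
  obtain ⟨t, ht⟩ := hy
  refine ⟨t % p, Nat.mod_lt _ hp, ?_⟩
  have hp' : Function.IsPeriodicPt g p x := h
  rw [hp'.iterate_mod_apply, ht]

include hm hi hb in
/-- Points in the same cycle: the cycle splits. -/
theorem twist_split (hne : a ≠ b) (hab : Reach τ b a) : ¬ Reach (twist τ a b) a b := by
  have hback : Reach τ (τ b) b := Reach.symm hm hi hb (Reach.step τ b)
  obtain ⟨t, ht, hmin⟩ := first_hit (a := a) (Or.inr hback)
  have hta : τ^[t] (τ b) = a := by
    rcases ht with ht | ht
    · exact ht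
    · exfalso
      have hper : τ^[t + 1] b = b := by rw [Function.iterate_succ_apply, ht]
      obtain ⟨i, hi', he⟩ := hab.lt_period (Nat.succ_pos t) hper
      rcases i with _ | i
      · exact hne he.symm
      · rw [Function.iterate_succ_apply] at he
        exact (hmin i (by omega)).1 he
  have hit : ∀ i, i ≤ t → (twist τ a b)^[i + 1] a = τ^[i] (τ b) := by
    intro i hi'
    rw [Function.iterate_succ_apply, twist_left]
    exact iterate_twist (fun s hs => hmin s (by omega))
  have hper : (twist τ a b)^[t + 1] a = a := by rw [hit t le_rfl, hta]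
  intro h
  obtain ⟨i, hi', he⟩ := h.lt_period (Nat.succ_pos t) hper
  rcases i with _ | i
  · exact hne he
  · rw [hit i (by omega)] at he
    exact (hmin i (by omega)).2 he

/-- Cycles that avoid `a` and `b` do not change. -/
theorem twist_reach_iff_of_avoid {c d : ℕ} (h1 : ¬ Reach τ c a) (h2 : ¬ Reach τ c b) :
    Reach (twist τ a b) c d ↔ Reach τ c d := by
  have : ∀ t, (twist τ a b)^[t] c = τ^[t] c := by
    intro t
    refine iterate_twist ?_
    intro s _
    exact ⟨fun h => h1 ⟨s, h⟩, fun h => h2 ⟨s, h⟩⟩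
  constructor
  · rintro ⟨t, ht⟩; exact ⟨t, by rw [← this, ht]⟩
  · rintro ⟨t, ht⟩; exact ⟨t, by rw [this, ht]⟩

end twist

/-- The Euler tour of the forest `f`, twisted by the transposition of the entry of `x` and the
entry of the root `0`. -/
noncomputable def glue (f : ℕ → ℕ) (z x d : ℕ) : ℕ := twist (tour f z) (2 * x) 0 d

theorem DFun.glue {f : ℕ → ℕ} (hf : DFun 1 (fun v => f (v 0))) {n : ℕ}
    {z x d : (Fin n → ℕ) → ℕ} (hz : DFun n z) (hx : DFun n x) (hd : DFun n d) :
    DFun n (fun v => glue f (z v) (x v) (d v)) := by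
  unfold Grz.glue twist
  refine DFun.ite (Delta0.eqFun hd ((DFun.const 2).mul hx)) (DFun.tour hf hz (DFun.const 0)) ?_
  exact DFun.ite (Delta0.eqFun hd (DFun.const 0)) (DFun.tour hf hz ((DFun.const 2).mul hx))
    (DFun.tour hf hz hd)

section glue

variable {f : ℕ → ℕ} (h0 : f 0 = 0) (h1 : f 1 = 1) (h2 : ∀ x, 2 ≤ x → f x < x)

include h0 h1 h2 in
theorem regressive_le (x : ℕ) : f x ≤ x := by
  rcases Nat.lt_or_ge x 2 with h | h
  · interval_cases x
    · omega
    · omega
  · exact (h2 x h).le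

include h2 in
omit h0 h1 in
theorem regressive_ends (x : ℕ) : (∃ t, f^[t] x = 0) ∨ (∃ t, f^[t] x = 1) := by
  induction x using Nat.strong_induction_on with
  | _ x ih =>
    rcases Nat.lt_or_ge x 2 with h | h
    · interval_cases x
      · exact Or.inl ⟨0, rfl⟩
      · exact Or.inr ⟨0, rfl⟩
    · rcases ih (f x) (h2 x h) with ⟨t, ht⟩ | ⟨t, ht⟩
      · exact Or.inl ⟨t + 1, by rw [Function.iterate_succ_apply, ht]⟩
      · exact Or.inr ⟨t + 1, by rw [Function.iterate_succ_apply, ht]⟩

include h0 h1 in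
theorem regressive_excl (x : ℕ) (hz : ∃ t, f^[t] x = 0) (ho : ∃ t, f^[t] x = 1) : False := by
  have hone : ∀ t, f^[t] 1 = 1 := fun t => Function.iterate_fixed h1 t
  have hzero : ∀ t, f^[t] 0 = 0 := fun t => Function.iterate_fixed h0 t
  obtain ⟨s, hs⟩ := hz
  obtain ⟨t, ht⟩ := ho
  rcases Nat.le_total s t with h | h
  · obtain ⟨d, rfl⟩ := Nat.exists_eq_add_of_le h
    rw [Nat.add_comm, Function.iterate_add_apply, hs, hzero] at ht
    omega
  · obtain ⟨d, rfl⟩ := Nat.exists_eq_add_of_le h
    rw [Nat.add_comm, Function.iterate_add_apply, ht, hone] at hs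
    omega

include h0 h1 h2 in
theorem glue_bijOn {z x : ℕ} (hx : 2 * x ≤ z) :
    Set.BijOn (glue f z x) (Set.Iic z) (Set.Iic z) := by
  have hle := regressive_le h0 h1 h2
  have hb := tour_bijOn hle z
  exact twist_bijOn hb.mapsTo hb.injOn hx (Nat.zero_le _)

include h0 h1 h2 in
/-- Every dart is in the cycle of one of the two roots. -/
theorem tour_reach_root {z : ℕ} (hz : z % 2 = 1) (hz3 : 3 ≤ z) {d : ℕ} (hd : d ≤ z) :
    ((∃ t, f^[t] (d / 2) = 0) ∧ Reach (tour f z) d 0) ∨
    ((∃ t, f^[t] (d / 2) = 1) ∧ Reach (tour f z) d 2) := by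
  have hle := regressive_le h0 h1 h2
  have hb := tour_bijOn hle z
  have hu : d / 2 < (z + 1) / 2 := by omega
  have hback : Reach (tour f z) d (2 * (d / 2)) := by
    rcases Nat.even_or_odd' d with ⟨u, h | h⟩
    · have : 2 * (d / 2) = d := by omega
      rw [this]; exact Reach.refl _ _
    · have hr := (reach_children (f := f) z _ (d / 2) hu le_rfl).1
      have e : 2 * (d / 2) + 1 = d := by omega
      rw [e] at hr
      exact Reach.symm hb.mapsTo hb.injOn (by omega) hr
  rcases regressive_ends h2 (d / 2) with h | h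
  · left
    refine ⟨h, hback.trans ?_⟩
    have := reach_of_orbit hle (z := z) hu h
    exact Reach.symm hb.mapsTo hb.injOn (by omega) this
  · right
    refine ⟨h, hback.trans ?_⟩
    have := reach_of_orbit hle (z := z) hu h
    exact Reach.symm hb.mapsTo hb.injOn (by omega) this

include h0 h1 h2 in
/-- The two roots are in different cycles of the tour. -/
theorem tour_roots_apart {z : ℕ} (hz3 : 3 ≤ z) : ¬ Reach (tour f z) 0 2 := by
  have hle := regressive_le h0 h1 h2
  intro h
  have := (reach_tour_iff hle (z := z) (x := 1) (r := 0) (by omega) h0).mp h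
  exact regressive_excl h0 h1 1 this ⟨0, rfl⟩

include h0 h1 h2 in
theorem glue_one {z x : ℕ} (hz : z % 2 = 1) (hx : 2 ≤ x) (hxz : 2 * x ≤ z)
    (hr : ∃ t, f^[t] x = 1) : numCycles (glue f z x) z = 1 := by
  have hle := regressive_le h0 h1 h2
  have hb := tour_bijOn hle z
  have hg := glue_bijOn h0 h1 h2 hxz
  have h02 : ¬ Reach (tour f z) 0 2 := tour_roots_apart h0 h1 h2 (by omega)
  have e : 2 * x / 2 = x := by omega
  have hx2 : Reach (tour f z) (2 * x) 2 := by
    rcases tour_reach_root h0 h1 h2 hz (by omega) hxz with ⟨h, _⟩ | ⟨_, h⟩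
    · rw [e] at h
      exact (regressive_excl h0 h1 x h hr).elim
    · exact h
  have hsep : ¬ Reach (tour f z) (2 * x) 0 := by
    intro h
    exact h02 ((Reach.symm hb.mapsTo hb.injOn hxz h).trans hx2)
  obtain ⟨m1, m2, m3, m4⟩ := twist_merge hb.mapsTo hb.injOn hxz (Nat.zero_le z) hsep
  rw [numCycles_eq_one_iff hg.mapsTo hg.injOn]
  intro d hd
  refine Reach.symm hg.mapsTo hg.injOn hd ?_
  have hd' : Reach (glue f z x) d (2 * x) := by
    rcases tour_reach_root h0 h1 h2 hz (by omega) hd with ⟨_, h⟩ | ⟨_, h⟩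
    · exact m4 d h
    · exact m3 d (h.trans (Reach.symm hb.mapsTo hb.injOn hxz hx2))
  exact hd'.trans m1

include h0 h1 h2 in
theorem glue_three {z x : ℕ} (hz : z % 2 = 1) (hx : 2 ≤ x) (hxz : 2 * x ≤ z)
    (hr : ¬ ∃ t, f^[t] x = 1) : numCycles (glue f z x) z = 3 := by
  have hle := regressive_le h0 h1 h2
  have hb := tour_bijOn hle z
  have hg := glue_bijOn h0 h1 h2 hxz
  have h02 : ¬ Reach (tour f z) 0 2 := tour_roots_apart h0 h1 h2 (by omega)
  have e : 2 * x / 2 = x := by omega
  have hx0 : Reach (tour f z) (2 * x) 0 := by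
    rcases tour_reach_root h0 h1 h2 hz (by omega) hxz with ⟨_, h⟩ | ⟨h, _⟩
    · exact h
    · rw [e] at h
      exact absurd h hr
  have h0x : Reach (tour f z) 0 (2 * x) := Reach.symm hb.mapsTo hb.injOn hxz hx0
  have hsplit : ¬ Reach (glue f z x) (2 * x) 0 :=
    twist_split hb.mapsTo hb.injOn (Nat.zero_le z) (by omega) h0x
  have h20 : ¬ Reach (tour f z) 2 0 := fun h =>
    h02 (Reach.symm hb.mapsTo hb.injOn (by omega) h)
  have h2x : ¬ Reach (tour f z) 2 (2 * x) := fun h => h20 (h.trans hx0)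
  have havoid : ∀ d, Reach (glue f z x) 2 d ↔ Reach (tour f z) 2 d := fun d =>
    twist_reach_iff_of_avoid h2x h20
  refine numCycles_eq_three hg.mapsTo hg.injOn (a := 2) (b := 2 * x) (c := 0) (by omega) hxz
    (Nat.zero_le _) ?_ ?_ hsplit ?_
  · rw [havoid]; exact h2x
  · rw [havoid]; exact h20
  · intro d hd
    rcases tour_reach_root h0 h1 h2 hz (by omega) hd with ⟨_, h⟩ | ⟨_, h⟩
    · right
      exact twist_reach_either (Or.inr h)
    · left
      have h2d : Reach (tour f z) 2 d := Reach.symm hb.mapsTo hb.injOn hd h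
      exact Reach.symm hg.mapsTo hg.injOn (by omega) ((havoid d).mpr h2d)

end glue

end Pool.Agent.Grz
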