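import Mathlib
import Pool.Agent.Grz.Split
import Pool.Agent.Grz.NormalForm

/-!
Determinants `det (1 - A)` for matrices `A` with at most one `1` in every row and column, and the
`E2Star` decision procedures for single cycles and for such determinants.
-/

set_option autoImplicit false

namespace Pool.Agent.Grz

open MvPolynomial

/-- The `z × z` integer matrix with entry `1` at `(i,j)` if `q i j` and `0` otherwise. -/
noncomputable def mat (z : ℕ) (q : ℕ → ℕ → Prop) : Matrix (Fin z) (Fin z) ℤ :=
  open Classical in Matrix.of fun i j => if q i j then 1 else 0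

theorem mat_apply_pos {z : ℕ} {q : ℕ → ℕ → Prop} {i j : Fin z} (h : q i j) :
    mat z q i j = 1 := by
  classical
  simp [mat, h]

theorem mat_apply_neg {z : ℕ} {q : ℕ → ℕ → Prop} {i j : Fin z} (h : ¬ q i j) :
    mat z q i j = 0 := by
  classical
  simp [mat, h]

section single

variable {g : ℕ → ℕ} {z : ℕ} (hm : Set.MapsTo g (Set.Iic z) (Set.Iic z))
  (hi : Set.InjOn g (Set.Iic z))

include hm hi in
/-- In a single cycle the first `z+1` iterates of `0` are distinct. -/
theorem single_inj (hs : ∀ x, x ≤ z → Reach g 0 x) {s t : ℕ} (hsz : s ≤ z) (htz : t ≤ z)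
    (h : g^[s] 0 = g^[t] 0) : s = t := by
  have hle : ∀ t, g^[t] 0 ≤ z := fun t => Reach.le hm (Nat.zero_le z) ⟨t, rfl⟩
  let φ : Fin (z + 1) → Fin (z + 1) := fun t => ⟨g^[(t : ℕ)] 0, Nat.lt_succ_of_le (hle t)⟩
  have hsurj : Function.Surjective φ := by
    intro y
    obtain ⟨t, ht, he⟩ := (hs y (Nat.lt_succ_iff.mp y.2)).bounded hm hi (Nat.zero_le z)
    exact ⟨⟨t, Nat.lt_succ_of_le ht⟩, Fin.ext he⟩
  have hinj : Function.Injective φ := Finite.injective_iff_surjective.mpr hsurj
  have := @hinj ⟨s, Nat.lt_succ_of_le hsz⟩ ⟨t, Nat.lt_succ_of_le htz⟩ (Fin.ext h)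
  exact congrArg Fin.val this

include hm hi in
theorem single_period (hs : ∀ x, x ≤ z → Reach g 0 x) : g^[z + 1] 0 = 0 := by
  obtain ⟨k, hk1, hk2, hk⟩ := exists_period hm hi (Nat.zero_le z)
  rcases Nat.lt_or_ge z k with h | h
  · obtain rfl : k = z + 1 := by omega
    exact hk
  · have := single_inj hm hi hs h (Nat.zero_le z) hk
    omega

include hm hi in
theorem det_single (hs : ∀ x, x ≤ z → Reach g 0 x) :
    (1 - mat z (fun i j => g (i + 1) = j + 1)).det = 1 := by
  classical
  have hle : ∀ t, g^[t] 0 ≤ z := fun t => Reach.le hm (Nat.zero_le z) ⟨t, rfl⟩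
  have hpos : ∀ t, 1 ≤ t → t ≤ z → 1 ≤ g^[t] 0 := by
    intro t h1 h2
    by_contra hc
    have h0 : g^[t] 0 = g^[0] 0 := by simp only [Function.iterate_zero, id_eq]; omega
    have := single_inj hm hi hs h2 (Nat.zero_le z) h0
    omega
  let e₀ : Fin z → Fin z := fun t => ⟨g^[(t : ℕ) + 1] 0 - 1, by
    have h1 := hpos (t + 1) (by omega) (by omega)
    have h2 := hle (t + 1)
    have := t.2
    omega⟩
  have he₀ : ∀ t : Fin z, ((e₀ t : Fin z) : ℕ) + 1 = g^[(t : ℕ) + 1] 0 := by
    intro t
    have h1 := hpos (t + 1) (by omega) (by omega)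
    simp only [e₀]
    omega
  have hinj : Function.Injective e₀ := by
    intro s t hst
    have h1 := he₀ s
    have h2 := he₀ t
    rw [hst, h2] at h1
    have := single_inj hm hi hs (s := (t : ℕ) + 1) (t := (s : ℕ) + 1) (by omega) (by omega) h1
    exact Fin.ext (by omega)
  let e : Fin z ≃ Fin z := Equiv.ofBijective e₀ (Finite.injective_iff_bijective.mp hinj)
  rw [← Matrix.det_submatrix_equiv_self e]
  have hentry : ∀ s t : Fin z, (1 - mat z (fun i j => g (i + 1) = j + 1)).submatrix e e s t =
      (if s = t then 1 else 0) - (if (s : ℕ) + 1 = t then 1 else 0) := by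
    intro s t
    have e1 : ∀ t, e t = e₀ t := fun t => rfl
    rw [Matrix.submatrix_apply, Matrix.sub_apply, Matrix.one_apply, e1, e1]
    congr 1
    · by_cases h : s = t
      · rw [if_pos h, if_pos (by rw [h])]
      · rw [if_neg h, if_neg (fun h' => h (hinj h'))]
    · by_cases h : (s : ℕ) + 1 = t
      · rw [if_pos h, mat_apply_pos]
        rw [he₀, he₀, ← h, ← Function.iterate_succ_apply' g]
      · rw [if_neg h, mat_apply_neg]
        intro hc
        rw [he₀, he₀, ← Function.iterate_succ_apply' g] at hc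
        rcases Nat.lt_or_ge ((s : ℕ) + 1) z with h' | h'
        · have := single_inj hm hi hs (s := (s : ℕ) + 1 + 1) (t := (t : ℕ) + 1) (by omega)
            (by omega) hc
          omega
        · have hs2 := s.2
          have e3 : (s : ℕ) + 1 = z := by omega
          have e4 : g^[((s : ℕ) + 1).succ] 0 = 0 := by
            rw [e3]; exact single_period hm hi hs
          rw [e4] at hc
          have := hpos (t + 1) (by omega) (by omega)
          omega
  rw [Matrix.det_of_isUpperTriangular]
  · refine Finset.prod_eq_one ?_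
    intro s _
    rw [hentry]
    simp
  · intro s t hst
    rw [hentry]
    simp only [id_eq] at hst
    have hst' : (t : ℕ) < s := hst
    rw [if_neg (by omega), if_neg (by omega)]
    simp

include hm hi in
theorem det_not_single (hs : ¬ ∀ x, x ≤ z → Reach g 0 x) :
    (1 - mat z (fun i j => g (i + 1) = j + 1)).det = 0 := by
  classical
  push Not at hs
  obtain ⟨x, hx, hnx⟩ := hs
  rw [← Matrix.exists_mulVec_eq_zero_iff]
  refine ⟨fun i => if Reach g 0 ((i : ℕ) + 1) then 0 else 1, ?_, ?_⟩
  · intro h
    have hx0 : x ≠ 0 := by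
      rintro rfl
      exact hnx (Reach.refl _ _)
    have := congrFun h ⟨x - 1, by omega⟩
    have e : x - 1 + 1 = x := by omega
    simp only [e, if_neg hnx, Pi.zero_apply] at this
    omega
  · funext i
    rw [Matrix.sub_mulVec, Matrix.one_mulVec]
    simp only [Pi.sub_apply, Pi.zero_apply]
    have hi1 : (i : ℕ) + 1 ≤ z := i.2
    have hgi : g ((i : ℕ) + 1) ≤ z := hm hi1
    have hiff : Reach g 0 ((i : ℕ) + 1) ↔ Reach g 0 (g ((i : ℕ) + 1)) := by
      constructor
      · intro h; exact h.trans (Reach.step _ _)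
      · intro h
        exact h.trans (Reach.symm hm hi hi1 (Reach.step _ _))
    by_cases h0 : g ((i : ℕ) + 1) = 0
    · have hr : Reach g 0 ((i : ℕ) + 1) := hiff.mpr (by rw [h0]; exact Reach.refl _ _)
      rw [if_pos hr]
      have : (mat z (fun i j => g (i + 1) = j + 1)).mulVec
          (fun i : Fin z => if Reach g 0 ((i : ℕ) + 1) then (0 : ℤ) else 1) i = 0 := by
        rw [Matrix.mulVec, dotProduct]
        refine Finset.sum_eq_zero ?_
        intro j _
        rw [mat_apply_neg]
        · simp
        · rw [h0]; omega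
      rw [this]; simp
    · set j : Fin z := ⟨g ((i : ℕ) + 1) - 1, by omega⟩ with hj
      have hj1 : (j : ℕ) + 1 = g ((i : ℕ) + 1) := by simp only [hj]; omega
      have : (mat z (fun i j => g (i + 1) = j + 1)).mulVec
          (fun i : Fin z => if Reach g 0 ((i : ℕ) + 1) then (0 : ℤ) else 1) i =
          if Reach g 0 ((j : ℕ) + 1) then (0 : ℤ) else 1 := by
        rw [Matrix.mulVec, dotProduct, Finset.sum_eq_single j]
        · rw [mat_apply_pos hj1.symm, one_mul]
        · intro k _ hk
          rw [mat_apply_neg, zero_mul]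
          intro hc
          exact hk (Fin.ext (by omega))
        · intro h; exact absurd (Finset.mem_univ _) h
      rw [this, hj1]
      by_cases hr : Reach g 0 ((i : ℕ) + 1)
      · rw [if_pos hr, if_pos (hiff.mp hr)]; simp
      · rw [if_neg hr, if_neg (fun h => hr (hiff.mpr h))]; simp

end single

section follow

open Classical in
/-- The successor function of a row-unique relation on `[0,z)`; `z` means undefined. -/
noncomputable def nextOf (z : ℕ) (q : ℕ → ℕ → Prop) (x : ℕ) : ℕ :=
  if h : x < z ∧ ∃ j, j < z ∧ q x j then Classical.choose h.2 else z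

theorem nextOf_le (z : ℕ) (q : ℕ → ℕ → Prop) (x : ℕ) : nextOf z q x ≤ z := by
  unfold nextOf
  split_ifs with h
  · exact (Classical.choose_spec h.2).1.le
  · exact le_rfl

theorem eq_nextOf_iff {z : ℕ} {q : ℕ → ℕ → Prop} (hq : ∀ i j j', q i j → q i j' → j = j')
    (x y : ℕ) : y = nextOf z q x ↔
      ((y < z ∧ x < z ∧ q x y) ∨ (y = z ∧ ¬ (x < z ∧ ∃ j, j ≤ z ∧ (j < z ∧ q x j)))) := by
  unfold nextOf
  split_ifs with h
  · have hsp := Classical.choose_spec h.2
    constructor
    · rintro rfl
      exact Or.inl ⟨hsp.1, h.1, hsp.2⟩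
    · rintro (⟨h1, h2, h3⟩ | ⟨_, h2⟩)
      · exact hq x _ _ h3 hsp.2
      · exfalso
        apply h2
        obtain ⟨h3, j, hj1, hj2⟩ := h
        exact ⟨h3, j, hj1.le, hj1, hj2⟩
  · constructor
    · rintro rfl
      refine Or.inr ⟨rfl, ?_⟩
      rintro ⟨h1, j, _, h2, h3⟩
      exact h ⟨h1, j, h2, h3⟩
    · rintro (⟨h1, h2, h3⟩ | ⟨h1, _⟩)
      · exact absurd ⟨h2, y, h1, h3⟩ h
      · exact h1

variable {z : ℕ} {q : ℕ → ℕ → Prop}

theorem nextOf_big {x : ℕ} (h : z ≤ x) : nextOf z q x = z := by
  unfold nextOf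
  rw [dif_neg]
  rintro ⟨h1, _⟩
  omega

theorem nextOf_iterate_le {x : ℕ} (hx : x ≤ z) (t : ℕ) : (nextOf z q)^[t] x ≤ z := by
  induction t with
  | zero => exact hx
  | succ t ih => rw [Function.iterate_succ_apply']; exact nextOf_le _ _ _

theorem det_zero_iff (hq : ∀ i j j', q i j → q i j' → j = j') :
    (1 - mat z q).det = 0 ↔
      ∃ i, i ≤ z ∧ ∀ t, t ≤ z → (nextOf z q)^[t] i < z := by
  classical
  -- rows of the matrix
  have hrow : ∀ (w : Fin z → ℤ) (i : Fin z), (mat z q).mulVec w i =
      if h : nextOf z q i < z then w ⟨nextOf z q i, h⟩ else 0 := by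
    intro w i
    split_ifs with h
    · rw [Matrix.mulVec, dotProduct, Finset.sum_eq_single ⟨nextOf z q i, h⟩]
      · rw [mat_apply_pos, one_mul]
        rcases (eq_nextOf_iff hq (i : ℕ) (nextOf z q i)).mp rfl with h1 | h1
        · exact h1.2.2
        · omega
      · intro k _ hk
        rw [mat_apply_neg, zero_mul]
        intro hc
        apply hk
        apply Fin.ext
        exact (eq_nextOf_iff hq (i : ℕ) (k : ℕ)).mpr (Or.inl ⟨k.2, i.2, hc⟩)
      · intro h'; exact absurd (Finset.mem_univ _) h'
    · rw [Matrix.mulVec, dotProduct]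
      refine Finset.sum_eq_zero ?_
      intro j _
      rw [mat_apply_neg, zero_mul]
      intro hc
      have := (eq_nextOf_iff hq (i : ℕ) (j : ℕ)).mpr (Or.inl ⟨j.2, i.2, hc⟩)
      rw [← this] at h
      exact h j.2
  rw [← Matrix.exists_mulVec_eq_zero_iff]
  constructor
  · rintro ⟨w, hw0, hw⟩
    by_contra hcon
    push Not at hcon
    apply hw0
    let W : ℕ → ℤ := fun i => if h : i < z then w ⟨i, h⟩ else 0
    have hW : ∀ i, W i = W (nextOf z q i) := by
      intro i
      rcases Nat.lt_or_ge i z with h | h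
      · have h1 := congrFun hw ⟨i, h⟩
        rw [Matrix.sub_mulVec, Matrix.one_mulVec] at h1
        simp only [Pi.sub_apply, Pi.zero_apply] at h1
        rw [hrow] at h1
        simp only [W, dif_pos h]
        exact sub_eq_zero.mp h1
      · rw [nextOf_big h]
        simp only [W]
        rw [dif_neg (by omega), dif_neg (by omega)]
    have hWt : ∀ t i, W i = W ((nextOf z q)^[t] i) := by
      intro t
      induction t with
      | zero => intro i; rfl
      | succ t ih => intro i; rw [Function.iterate_succ_apply', ← hW]; exact ih i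
    funext i
    obtain ⟨t, _, ht⟩ := hcon i i.2.le
    have h1 := hWt t i
    simp only [W] at h1
    rw [dif_pos i.2, dif_neg (by omega)] at h1
    simpa using h1
  · rintro ⟨i, hiz, hi⟩
    have hi0 : i < z := by simpa using hi 0 (Nat.zero_le _)
    -- all iterates are defined
    have hall : ∀ t, (nextOf z q)^[t] i < z := by
      have hcard : (Finset.range z).card < (Finset.range (z + 1)).card := by simp
      obtain ⟨a, ha, b, hb, hab, heq⟩ := Finset.exists_ne_map_eq_of_card_lt_of_maps_to hcard
        (f := fun t => (nextOf z q)^[t] i) (fun t ht => by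
          have ht' : t < z + 1 := by simpa using ht
          have := hi t (by omega)
          simpa using this)
      simp only [Finset.mem_range] at ha hb
      have main : ∀ a b, a < b → b ≤ z → (nextOf z q)^[a] i = (nextOf z q)^[b] i →
          ∀ t, (nextOf z q)^[t] i < z := by
        intro a b hlt hbz he t
        induction t using Nat.strong_induction_on with
        | _ t ih =>
          rcases Nat.lt_or_ge z t with h | h
          · have e1 : (nextOf z q)^[t] i = (nextOf z q)^[t - (b - a)] i := by
              have e2 : t = (t - b) + b := by omega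
              have e3 : t - (b - a) = (t - b) + a := by omega
              rw [e3, Function.iterate_add_apply, he, ← Function.iterate_add_apply, ← e2]
            rw [e1]
            exact ih _ (by omega)
          · exact hi t h
      rcases Nat.lt_or_gt_of_ne hab with h | h
      · exact main a b h (by omega) heq
      · exact main b a h (by omega) heq.symm
    refine ⟨fun k => if ∀ t, (nextOf z q)^[t] (k : ℕ) < z then 1 else 0, ?_, ?_⟩
    · intro h
      have := congrFun h ⟨i, hi0⟩
      simp only [Pi.zero_apply] at this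
      rw [if_pos hall] at this
      omega
    · funext k
      rw [Matrix.sub_mulVec, Matrix.one_mulVec]
      simp only [Pi.sub_apply, Pi.zero_apply]
      rw [hrow, sub_eq_zero]
      have hiff : (∀ t, (nextOf z q)^[t] (k : ℕ) < z) ↔
          ∀ t, (nextOf z q)^[t] (nextOf z q k) < z := by
        constructor
        · intro h t
          have := h (t + 1)
          rwa [Function.iterate_succ_apply] at this
        · intro h t
          rcases t with _ | t
          · exact k.2
          · rw [Function.iterate_succ_apply]; exact h t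
      by_cases h1 : ∀ t, (nextOf z q)^[t] (k : ℕ) < z
      · have h2 := hiff.mp h1
        have h3 : nextOf z q k < z := h2 0
        rw [if_pos h1, dif_pos h3, if_pos h2]
      · rw [if_neg h1]
        by_cases h3 : nextOf z q k < z
        · rw [dif_pos h3, if_neg (fun h => h1 (hiff.mpr h))]
        · rw [dif_neg h3]

end follow

/-! ### Decision procedures in `E2` -/

theorem DFun.e2 {n : ℕ} {f : (Fin n → ℕ) → ℕ} (hf : DFun n f) : E2 n f := by
  obtain ⟨p, hp⟩ := hf.bound
  exact E2.ofGraph (E2.evalPoly p) hp hf.graph.e2Star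

theorem E2Star.ball {n : ℕ} {b : (Fin n → ℕ) → ℕ} (hb : E2 n b) {P : ℕ → (Fin n → ℕ) → Prop}
    (hP : E2Star (n + 1) (fun w => P (w 0) (fun i => w i.succ))) :
    E2Star n (fun v => ∀ x, x ≤ b v → P x v) := by
  refine ((E2Star.bex (P := fun x v => ¬ P x v) hb hP.not).not).of_iff ?_
  intro v
  push Not
  rfl

theorem E2Star.ltFun {n : ℕ} {f g : (Fin n → ℕ) → ℕ} (hf : E2 n f) (hg : E2 n g) :
    E2Star n (fun v => f v < g v) := by
  refine ((E2Star.leFun hg hf).not).of_iff ?_
  intro v; simp

/-- Iterating a `DFun` family with values bounded by a polynomial. -/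
theorem E2.iter_family {n : ℕ} {s : ℕ → (Fin n → ℕ) → ℕ} {b : (Fin n → ℕ) → ℕ} (hb : E2 n b)
    (hs : E2 (n + 1) (fun w => s (w 0) (fun i => w i.succ))) (hle : ∀ x v, s x v ≤ b v) :
    E2 (n + 2) (fun u => (fun x => s x (fun i => u i.succ.succ))^[u 0] (u 1)) := by
  have h1 : E2 (n + 1 + 1) (fun w => (fun x w => s x (fun i => w i.succ)) (w 0)
      (fun i : Fin (n + 1) => w i.succ)) := by
    have := hs.comp (n := n + 2) (hs := Fin.cons (fun u => u 0) (fun i u => u i.succ.succ)) (by
      intro i
      refine Fin.cases ?_ (fun j => ?_) i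
      · exact E2.proj 0
      · exact E2.proj _)
    refine this.congr ?_
    intro v
    simp
  exact E2.iterate (n := n + 1) (P := fun x w => s x (fun i => w i.succ)) (S := fun w => w 0)
    (B := fun w => w 0 + b (fun i => w i.succ)) h1 (E2.proj 0) ((E2.proj 0).add hb.weak) (by
      intro t v
      rcases t with _ | t
      · simp
      · rw [Function.iterate_succ_apply']
        exact (hle _ _).trans (Nat.le_add_left _ _))

/-- Being a single cycle is an `E2Star` property of `Delta0` families of permutations. -/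
theorem E2Star.singleCycle {n : ℕ} (P : MvPolynomial (Fin n) ℕ) (π : (Fin n → ℕ) → ℕ → ℕ)
    (hb : ∀ v, Set.BijOn (π v) (Set.Iic (MvPolynomial.eval v P))
      (Set.Iic (MvPolynomial.eval v P)))
    (hg : Delta0 (n + 2) (fun w => w 1 ≤ MvPolynomial.eval (fun i => w i.succ.succ) P ∧
      π (fun i => w i.succ.succ) (w 1) = w 0)) :
    E2Star n (fun v => numCycles (π v) (MvPolynomial.eval v P) = 1) := by
  classical
  set b : (Fin n → ℕ) → ℕ := fun v => MvPolynomial.eval v P with hbdef
  let s : ℕ → (Fin n → ℕ) → ℕ := fun x v => if x ≤ b v then π v x else 0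
  have hsle : ∀ x v, s x v ≤ b v := by
    intro x v
    simp only [s]
    split_ifs with h
    · exact (hb v).mapsTo h
    · omega
  have hsD : DFun (n + 1) (fun w => s (w 0) (fun i => w i.succ)) := by
    refine DFun.ofGraph (b := fun w => b (fun i => w i.succ)) (DFun.ofPoly P).weak
      (fun w => hsle _ _) ?_
    have h1 : Delta0 (n + 2) (fun w => w 1 ≤ b (fun i => w i.succ.succ)) :=
      Delta0.leFun (DFun.proj 1) (DFun.ofPoly P).weak.weak
    refine (hg.or (h1.not.and (Delta0.eqFun (DFun.proj 0) (DFun.const 0)))).of_iff ?_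
    intro w
    have e1 : (fun i : Fin (n + 1) => w i.succ) 0 = w 1 := rfl
    simp only [s, hbdef]
    by_cases h : w 1 ≤ MvPolynomial.eval (fun i => w i.succ.succ) P
    · have h' : w (Fin.succ 0) ≤ MvPolynomial.eval (fun i : Fin n => w i.succ.succ) P := h
      rw [if_pos h']
      constructor
      · intro h3; exact Or.inl ⟨h, h3.symm⟩
      · rintro (⟨_, h3⟩ | ⟨h3, _⟩)
        · exact h3.symm
        · exact absurd h h3
    · have h' : ¬ w (Fin.succ 0) ≤ MvPolynomial.eval (fun i : Fin n => w i.succ.succ) P := h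
      rw [if_neg h']
      constructor
      · intro h3; exact Or.inr ⟨h, h3⟩
      · rintro (⟨h3, _⟩ | ⟨_, h3⟩)
        · exact absurd h3 h
        · exact h3
  have hit := E2.iter_family (E2.evalPoly P) hsD.e2 hsle
  -- the iterates of `0`
  have hrun : ∀ v t, (fun x => s x v)^[t] 0 = (π v)^[t] 0 := by
    intro v t
    have : (π v)^[t] 0 ≤ b v ∧ (fun x => s x v)^[t] 0 = (π v)^[t] 0 := by
      induction t with
      | zero => exact ⟨Nat.zero_le _, rfl⟩
      | succ t ih =>
        rw [Function.iterate_succ_apply', Function.iterate_succ_apply', ih.2]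
        refine ⟨(hb v).mapsTo ih.1, ?_⟩
        simp only [s]
        rw [if_pos ih.1]
    exact this.2
  have hmain : E2Star n (fun v => ∀ x, x ≤ b v → ∃ t, t ≤ b v ∧ (π v)^[t] 0 = x) := by
    refine E2Star.ball (P := fun x v => ∃ t, t ≤ b v ∧ (π v)^[t] 0 = x) (E2.evalPoly P) ?_
    refine E2Star.bex (P := fun t w => (π (fun i => w i.succ))^[t] 0 = w 0)
      (E2.evalPoly P).weak ?_
    have h1 := hit.comp (n := n + 2) (hs := Fin.cons (fun u => u 0)
      (Fin.cons (fun _ => 0) (fun i u => u i.succ.succ))) (by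
      intro i
      refine Fin.cases ?_ (fun j => ?_) i
      · exact E2.proj 0
      · refine Fin.cases ?_ (fun k => ?_) j
        · exact E2.zero _
        · exact E2.proj _)
    have h2 : E2 (n + 2) (fun u => (π (fun i => u i.succ.succ))^[u 0] 0) := by
      refine h1.congr ?_
      intro u
      have := hrun (fun i => u i.succ.succ) (u 0)
      rw [← this]
      simp
    exact E2Star.eqFun h2 (E2.proj 1)
  refine hmain.of_iff ?_
  intro v
  rw [numCycles_eq_one_iff (hb v).mapsTo (hb v).injOn]
  constructor
  · intro h x hx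
    exact (h x hx).bounded (hb v).mapsTo (hb v).injOn (Nat.zero_le _)
  · intro h x hx
    obtain ⟨t, _, ht⟩ := h x hx
    exact ⟨t, ht⟩

/-- Vanishing of `det (1 - A)` is an `E2Star` property. -/
theorem E2Star.detZero {n : ℕ} (P : MvPolynomial (Fin n) ℕ) (Q : (Fin (n + 2) → ℕ) → Prop)
    (hQ : Delta0 (n + 2) Q)
    (hrow : ∀ v i j j', Q (Matrix.vecCons i (Matrix.vecCons j v)) →
      Q (Matrix.vecCons i (Matrix.vecCons j' v)) → j = j') :
    E2Star n (fun v => (1 - mat (MvPolynomial.eval v P)
      (fun i j => Q (Matrix.vecCons i (Matrix.vecCons j v)))).det = 0) := by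
  classical
  set b : (Fin n → ℕ) → ℕ := fun v => MvPolynomial.eval v P with hbdef
  let q : (Fin n → ℕ) → ℕ → ℕ → Prop := fun v i j => Q (Matrix.vecCons i (Matrix.vecCons j v))
  let s : ℕ → (Fin n → ℕ) → ℕ := fun x v => nextOf (b v) (q v) x
  have hsle : ∀ x v, s x v ≤ b v := fun x v => nextOf_le _ _ _
  have hqD : ∀ {m : ℕ} {x y : (Fin m → ℕ) → ℕ} {h : Fin n → (Fin m → ℕ) → ℕ}, DFun m x →
      DFun m y → (∀ i, DFun m (h i)) → Delta0 m (fun w => q (fun i => h i w) (x w) (y w)) := by
    intro m x y h hx hy hh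
    refine (hQ.subst (h := Fin.cons x (Fin.cons y h)) ?_).of_iff ?_
    · intro i
      refine Fin.cases ?_ (fun j => ?_) i
      · exact hx
      · refine Fin.cases ?_ (fun k => ?_) j
        · exact hy
        · exact hh k
    · intro w
      simp only [q]
      have : (Matrix.vecCons (x w) (Matrix.vecCons (y w) (fun i => h i w)) : Fin (n + 2) → ℕ) =
          fun i => (Fin.cons x (Fin.cons y h) : Fin (n + 2) → (Fin m → ℕ) → ℕ) i w := by
        funext i
        refine Fin.cases ?_ (fun j => ?_) i
        · simp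
        · refine Fin.cases ?_ (fun k => ?_) j <;> simp
      rw [this]
  have hsD : DFun (n + 1) (fun w => s (w 0) (fun i => w i.succ)) := by
    refine DFun.ofGraph (b := fun w => b (fun i => w i.succ)) (DFun.ofPoly P).weak
      (fun w => hsle _ _) ?_
    have hy : DFun (n + 2) (fun w => w 0) := DFun.proj 0
    have hx : DFun (n + 2) (fun w => w 1) := DFun.proj 1
    have hB : DFun (n + 2) (fun w => b (fun i => w i.succ.succ)) := (DFun.ofPoly P).weak.weak
    have h1 : Delta0 (n + 2) (fun w => q (fun i => w i.succ.succ) (w 1) (w 0)) :=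
      hqD hx hy (fun i => DFun.proj i.succ.succ)
    have h2 : Delta0 (n + 2) (fun w => ∃ j, j ≤ b (fun i => w i.succ.succ) ∧
        (j < b (fun i => w i.succ.succ) ∧ q (fun i => w i.succ.succ) (w 1) j)) := by
      refine Delta0.bexFun (P := fun j w => j < b (fun i => w i.succ.succ) ∧
        q (fun i => w i.succ.succ) (w 1) j) hB ?_
      exact (Delta0.ltFun (DFun.proj 0) hB.weak).and
        (hqD (DFun.proj 2) (DFun.proj 0) (fun i => DFun.proj i.succ.succ.succ))
    refine (((Delta0.ltFun hy hB).and ((Delta0.ltFun hx hB).and h1)).or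
      ((Delta0.eqFun hy hB).and ((Delta0.ltFun hx hB).and h2).not)).of_iff ?_
    intro w
    exact eq_nextOf_iff (z := b (fun i => w i.succ.succ)) (q := q (fun i => w i.succ.succ))
      (fun i j j' => hrow _ i j j') (w 1) (w 0)
  have hit := E2.iter_family (E2.evalPoly P) hsD.e2 hsle
  have hmain : E2Star n (fun v => ∃ i, i ≤ b v ∧ ∀ t, t ≤ b v →
      (nextOf (b v) (q v))^[t] i < b v) := by
    refine E2Star.bex (P := fun i v => ∀ t, t ≤ b v → (nextOf (b v) (q v))^[t] i < b v)
      (E2.evalPoly P) ?_
    refine E2Star.ball (P := fun t w => (nextOf (b (fun i => w i.succ)) (q (fun i => w i.succ)))^[t]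
      (w 0) < b (fun i => w i.succ)) (E2.evalPoly P).weak ?_
    exact E2Star.ltFun hit (E2.evalPoly P).weak.weak
  refine hmain.of_iff ?_
  intro v
  exact det_zero_iff (fun i j j' => hrow v i j j')

end Pool.Agent.Grz
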