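import Mathlib
import Pool.Agent.Grz.Regressive
import Pool.Agent.Grz.Iter

/-!
`Delta0 = E2Star` holds if and only if its non-uniform version holds, and if and only if orbits
of regressive maps with bounded-formula graph have closed certificates that are definable by one
bounded formula with one parameter of polynomial size.
-/

set_option autoImplicit false

namespace Pool.Agent.Results.MP_a56640_lc.Nonuniform

open Pool.Agent.Grz

section aux

variable {f : ℕ → ℕ} (h0 : f 0 = 0) (h1 : f 1 = 1) (h2 : ∀ x, 2 ≤ x → f x < x)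

include h0 h1 h2 in
theorem le_self (x : ℕ) : f x ≤ x := by
  rcases Nat.lt_or_ge x 2 with h | h
  · interval_cases x
    · omega
    · omega
  · exact (h2 x h).le

include h0 h1 h2 in
theorem iter_bound (x t : ℕ) : f^[t] x ≤ max 1 (x - t) := by
  induction t with
  | zero => simp
  | succ t ih =>
    rw [Function.iterate_succ_apply']
    rcases Nat.lt_or_ge (f^[t] x) 2 with h | h
    · have := le_self h0 h1 h2 (f^[t] x)
      have h3 : f (f^[t] x) ≤ 1 := by omega
      exact h3.trans (le_max_left _ _)
    · have h3 := h2 _ h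
      have h4 : f^[t] x ≤ x - t := by
        rcases le_max_iff.mp ih with h5 | h5
        · omega
        · exact h5
      have h5 : f (f^[t] x) ≤ x - (t + 1) := by omega
      exact h5.trans (le_max_right _ _)

include h0 h1 h2 in
theorem iter_stable (x t : ℕ) (ht : x ≤ t) : f^[t] x = f^[x] x := by
  obtain ⟨d, rfl⟩ := Nat.exists_eq_add_of_le ht
  rw [Nat.add_comm, Function.iterate_add_apply]
  have hb : f^[x] x ≤ 1 := by
    have := iter_bound h0 h1 h2 x x
    simpa using this
  apply Function.iterate_fixed
  generalize f^[x] x = y at hb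
  interval_cases y
  · exact h0
  · exact h1

end aux

/-- The following are equivalent.

1. `Delta0 = E2Star`.
2. Every unary predicate `R` in `E2Star` is non-uniformly `Delta0`: there are a bounded formula
   `ψ` and an exponent `c` such that for every `N` some parameter `a ≤ (N + 2) ^ c` makes
   `ψ (a, x)` equivalent to `R x` for all `x ≤ N`.
3. Let `f` be a map with `f 0 = 0`, `f 1 = 1` and `f x < x` for `x ≥ 2` whose graph is defined
   by a bounded formula, so every orbit ends in `0` or in `1`. Then there are a bounded formula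
   `ψ` and an exponent `c` such that for every `x` whose orbit avoids `0` some parameter
   `a ≤ (x + 2) ^ c` makes `{u ≤ x : ψ (a, u)}` closed under `f`, with `x` inside and `0`
   outside. -/
theorem result :
    List.TFAE [
      ∀ (k : ℕ) (R : (Fin k → ℕ) → Prop), Delta0 k R ↔ E2Star k R,
      ∀ R : ℕ → Prop, E2Star 1 (fun v => R (v 0)) →
        ∃ (c : ℕ) (ψ : (Fin 2 → ℕ) → Prop), Delta0 2 ψ ∧
          ∀ N, ∃ a, a ≤ (N + 2) ^ c ∧ ∀ x, x ≤ N → (R x ↔ ψ ![a, x]),
      ∀ f : ℕ → ℕ, f 0 = 0 → f 1 = 1 → (∀ x, 2 ≤ x → f x < x) →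
        Delta0 2 (fun v => f (v 0) = v 1) →
        ∃ (c : ℕ) (ψ : (Fin 2 → ℕ) → Prop), Delta0 2 ψ ∧
          ∀ x, (∀ t, f^[t] x ≠ 0) →
            ∃ a, a ≤ (x + 2) ^ c ∧ ψ ![a, x] ∧ ¬ ψ ![a, 0] ∧
              ∀ u, u ≤ x → ψ ![a, u] → ψ ![a, f u]] := by
  tfae_have 1 → 2 := by
    intro H R hR
    refine ⟨0, fun v => R (v 1), ((H 1 _).mpr hR).rename (fun _ => 1), ?_⟩
    intro N
    exact ⟨0, Nat.zero_le _, fun x _ => Iff.rfl⟩
  tfae_have 2 → 3 := by
    intro H f h0 h1 h2 hg
    have hle := le_self h0 h1 h2
    have hgr : E2Star 2 (fun w => w 0 = f (w 1)) := by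
      have := (Delta0.comp2 (P := fun x y => f x = y) hg (DFun.proj (n := 2) 1)
        (DFun.proj 0)).e2Star
      refine this.of_iff ?_
      intro v; exact eq_comm
    have hfE : E2 1 (fun v => f (v 0)) :=
      E2.ofGraph (b := fun v => v 0) (E2.proj 0) (fun v => hle _) hgr
    have hiter : E2 2 (fun w => f^[w 0] (w 1)) := by
      have := E2.iterate (n := 1) (P := fun x _ => f x) (S := fun v => v 0) (B := fun v => v 0)
        (E2.comp1 hfE (E2.proj 0)) (E2.proj 0) (E2.proj 0) (by
          intro t v
          have : ∀ t x, f^[t] x ≤ x := by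
            intro t x
            induction t with
            | zero => exact le_rfl
            | succ t ih => rw [Function.iterate_succ_apply']; exact (hle _).trans ih
          exact this t (v 0))
      exact this
    obtain ⟨c, ψ, hψ, hN⟩ := H (fun x => f^[x] x = 1)
      (E2Star.eqFun (E2.comp2 (g := fun a b => f^[a] b) hiter (E2.proj 0) (E2.proj 0))
        (E2.const 1))
    refine ⟨c, ψ, hψ, ?_⟩
    intro x hx
    obtain ⟨a, ha, hax⟩ := hN x
    refine ⟨a, ha, ?_, ?_, ?_⟩
    · rw [← hax x le_rfl]
      have hb := iter_bound h0 h1 h2 x x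
      have hb' : f^[x] x ≤ 1 := by simpa using hb
      have := hx x
      omega
    · rw [← hax 0 (Nat.zero_le _)]
      simp
    · intro u hu hψu
      rw [← hax u hu] at hψu
      rw [← hax (f u) ((hle u).trans hu)]
      have e1 := iter_stable h0 h1 h2 (f u) u (hle u)
      rw [← e1, ← Function.iterate_succ_apply, Function.iterate_succ_apply', hψu, h1]
  tfae_have 3 → 1 := by
    intro H k R
    constructor
    · exact fun h => h.e2Star
    · refine fun h => delta0_of_reach ?_ h
      intro f h0 h1 h2 hf
      have hle := le_self h0 h1 h2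
      obtain ⟨c, ψ, hψ, hsep⟩ := H f h0 h1 h2
        (Delta0.eqFun (DFun.comp1 hf (DFun.proj 0)) (DFun.proj 1))
      have hψ' : ∀ {n : ℕ} {a u : (Fin n → ℕ) → ℕ}, DFun n a → DFun n u →
          Delta0 n (fun v => ψ ![a v, u v]) := by
        intro n a u ha hu
        refine Delta0.comp2 (P := fun a u => ψ ![a, u]) ?_ ha hu
        refine hψ.of_iff ?_
        intro v
        have : ![v 0, v 1] = v := by
          funext i; fin_cases i <;> rfl
        rw [this]
      have hpow : ∀ k : ℕ, DFun 1 (fun v => (v 0 + 2) ^ k) := by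
        intro k
        induction k with
        | zero => simpa using DFun.const (n := 1) 1
        | succ k ih =>
          have hb : DFun 1 (fun v => v 0 + 2) := (DFun.proj 0).add (DFun.const 2)
          simpa [pow_succ] using ih.mul hb
      have ha2 : DFun 2 (fun v => v 0) := DFun.proj 0
      have hx2 : DFun 2 (fun v => v 1) := DFun.proj 1
      have hu3 : DFun 3 (fun v => v 0) := DFun.proj 0
      have ha3 : DFun 3 (fun v => v 1) := DFun.proj 1
      have hall : Delta0 2 (fun v => ∀ u, u ≤ v 1 → (ψ ![v 0, u] → ψ ![v 0, f u])) :=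
        Delta0.ballFun (P := fun u v => (ψ ![v 0, u] → ψ ![v 0, f u])) hx2
          ((hψ' ha3 hu3).imp (hψ' ha3 (DFun.comp1 hf hu3)))
      have hmain := Delta0.bexFun (P := fun a v =>
          (ψ ![a, v 0] ∧ ¬ ψ ![a, 0] ∧ ∀ u, u ≤ v 0 → (ψ ![a, u] → ψ ![a, f u])))
          (hpow c) ((hψ' ha2 hx2).and ((hψ' ha2 (DFun.const 0)).not.and hall))
      refine hmain.of_iff ?_
      intro v
      constructor
      · rintro ⟨t, ht⟩
        refine hsep (v 0) ?_
        intro s hs
        rcases Nat.le_total s t with h | h
        · obtain ⟨d, rfl⟩ := Nat.exists_eq_add_of_le h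
          rw [Nat.add_comm, Function.iterate_add_apply, hs,
            Function.iterate_fixed h0] at ht
          omega
        · obtain ⟨d, rfl⟩ := Nat.exists_eq_add_of_le h
          rw [Nat.add_comm, Function.iterate_add_apply, ht,
            Function.iterate_fixed h1] at hs
          omega
      · rintro ⟨a, _, hax, ha0, hcl⟩
        have key : ∀ t, f^[t] (v 0) ≤ v 0 ∧ ψ ![a, f^[t] (v 0)] := by
          intro t
          induction t with
          | zero => exact ⟨le_rfl, hax⟩
          | succ t ih =>
            rw [Function.iterate_succ_apply']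
            exact ⟨(hle _).trans ih.1, hcl _ ih.1 ih.2⟩
        refine ⟨v 0, ?_⟩
        have hb := iter_bound h0 h1 h2 (v 0) (v 0)
        have hb' : f^[v 0] (v 0) ≤ 1 := by simpa using hb
        rcases Nat.lt_or_ge (f^[v 0] (v 0)) 1 with h | h
        · exfalso
          have h3 : f^[v 0] (v 0) = 0 := by omega
          have h4 := (key (v 0)).2
          rw [h3] at h4
          exact ha0 h4
        · omega
  tfae_finish

end Pool.Agent.Results.MP_a56640_lc.Nonuniform
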