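import Mathlib
import Pool.Agent.Grz.Matrices

/-!
Normal forms for the predicates in `E2Star`: they are exactly the predicates
that say that `π_v` is a single cycle, for families of permutations with bounded-formula graph, and exactly
the predicates whose characteristic function is `det (1 - A_v)` for families of sub-permutation
matrices with bounded-formula entries. Consequently `Delta0 = E2Star` holds if and only if being
a single cycle (equivalently, vanishing of `det (1 - A)`) is definable by a bounded formula.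
-/

set_option autoImplicit false

namespace Pool.Agent.Results.MP_a56640_lc.CycleNormalForm

open Pool.Agent.Grz MvPolynomial

/-- The `z × z` matrix given by `q` has at most one `1` in every row and every column. -/
def SubPerm (z : ℕ) (q : ℕ → ℕ → Prop) : Prop :=
  (∀ i j j', i < z → j < z → j' < z → q i j → q i j' → j = j') ∧
  (∀ i i' j, i < z → i' < z → j < z → q i j → q i' j → i = i')

/-- `R v` holds if and only if the permutation `π v` of `[0, P v]` is a single cycle; otherwise
it has exactly three cycles. -/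
def HasCycleForm (n : ℕ) (R : (Fin n → ℕ) → Prop) : Prop :=
  ∃ (P : MvPolynomial (Fin n) ℕ) (π : (Fin n → ℕ) → ℕ → ℕ),
    (∀ v, Set.BijOn (π v) (Set.Iic (MvPolynomial.eval v P)) (Set.Iic (MvPolynomial.eval v P))) ∧
    Delta0 (n + 2) (fun w => w 1 ≤ MvPolynomial.eval (fun i => w i.succ.succ) P ∧
      π (fun i => w i.succ.succ) (w 1) = w 0) ∧
    ∀ v, (R v → numCycles (π v) (MvPolynomial.eval v P) = 1) ∧
      (¬ R v → numCycles (π v) (MvPolynomial.eval v P) = 3)

/-- The determinant of `1 - A v` is `1` if `R v` and `0` otherwise, where `A v` is a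
sub-permutation matrix of size `P v`. -/
def HasDetForm (n : ℕ) (R : (Fin n → ℕ) → Prop) : Prop :=
  ∃ (P : MvPolynomial (Fin n) ℕ) (Q : (Fin (n + 2) → ℕ) → Prop),
    Delta0 (n + 2) Q ∧
    (∀ v, SubPerm (MvPolynomial.eval v P) (fun i j => Q (Matrix.vecCons i (Matrix.vecCons j v)))) ∧
    ∀ v, (R v → (1 - mat (MvPolynomial.eval v P)
        (fun i j => Q (Matrix.vecCons i (Matrix.vecCons j v)))).det = 1) ∧
      (¬ R v → (1 - mat (MvPolynomial.eval v P)
        (fun i j => Q (Matrix.vecCons i (Matrix.vecCons j v)))).det = 0)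

theorem cycleForm_of_e2Star {n : ℕ} {R : (Fin n → ℕ) → Prop} (hR : E2Star n R) :
    HasCycleForm n R := by
  obtain ⟨f, g, h0, h1, h2, hf, hg, hg2, hRf⟩ := hR.normalForm
  obtain ⟨p, hp⟩ := hg.bound
  have hz : ∀ v : Fin n → ℕ, MvPolynomial.eval v (C 2 * p + 1) = 2 * MvPolynomial.eval v p + 1 := by
    intro v; simp
  refine ⟨C 2 * p + 1, fun v d => glue f (2 * MvPolynomial.eval v p + 1) (g v) d, ?_, ?_, ?_⟩
  · intro v
    rw [hz]
    exact glue_bijOn h0 h1 h2 (by have := hp v; omega)
  · have hx : DFun (n + 2) (fun w => w 1) := DFun.proj 1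
    have hy : DFun (n + 2) (fun w => w 0) := DFun.proj 0
    have hP : DFun (n + 2) (fun w => 2 * MvPolynomial.eval (fun i : Fin n => w i.succ.succ) p + 1) :=
      ((DFun.const 2).mul (DFun.ofPoly p).weak.weak).add (DFun.const 1)
    have hG : DFun (n + 2) (fun w => g (fun i => w i.succ.succ)) := hg.weak.weak
    refine ((Delta0.leFun hx hP).and (Delta0.eqFun (DFun.glue hf hP hG hx) hy)).of_iff ?_
    intro w
    rw [hz]
  · intro v
    rw [hz]
    have hle := hp v
    refine ⟨fun h => glue_one h0 h1 h2 (by omega) (hg2 v) (by omega) ((hRf v).mp h),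
      fun h => glue_three h0 h1 h2 (by omega) (hg2 v) (by omega) (fun h' => h ((hRf v).mpr h'))⟩

theorem det_of_cycles {g : ℕ → ℕ} {z : ℕ} (hm : Set.MapsTo g (Set.Iic z) (Set.Iic z))
    (hi : Set.InjOn g (Set.Iic z)) :
    (numCycles g z = 1 → (1 - mat z (fun i j => g (i + 1) = j + 1)).det = 1) ∧
    (¬ numCycles g z = 1 → (1 - mat z (fun i j => g (i + 1) = j + 1)).det = 0) := by
  rw [numCycles_eq_one_iff hm hi]
  exact ⟨det_single hm hi, det_not_single hm hi⟩

theorem mat_congr {z : ℕ} {q q' : ℕ → ℕ → Prop} (h : ∀ i j, i < z → j < z → (q i j ↔ q' i j)) :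
    mat z q = mat z q' := by
  classical
  ext i j
  by_cases hq : q i j
  · rw [mat_apply_pos hq, mat_apply_pos ((h i j i.2 j.2).mp hq)]
  · rw [mat_apply_neg hq, mat_apply_neg (fun h' => hq ((h i j i.2 j.2).mpr h'))]

/-- `E2Star.detZero` with the condition on rows only inside the matrix. -/
theorem e2Star_detZero {n : ℕ} (P : MvPolynomial (Fin n) ℕ) (Q : (Fin (n + 2) → ℕ) → Prop)
    (hQ : Delta0 (n + 2) Q)
    (hsub : ∀ v, SubPerm (MvPolynomial.eval v P)
      (fun i j => Q (Matrix.vecCons i (Matrix.vecCons j v)))) :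
    E2Star n (fun v => (1 - mat (MvPolynomial.eval v P)
      (fun i j => Q (Matrix.vecCons i (Matrix.vecCons j v)))).det = 0) := by
  have hi : DFun (n + 2) (fun w => w 0) := DFun.proj 0
  have hj : DFun (n + 2) (fun w => w 1) := DFun.proj 1
  have hP : DFun (n + 2) (fun w => MvPolynomial.eval (fun i : Fin n => w i.succ.succ) P) :=
    (DFun.ofPoly P).weak.weak
  have hQ' := (Delta0.ltFun hi hP).and ((Delta0.ltFun hj hP).and hQ)
  refine (E2Star.detZero P _ hQ' ?_).of_iff ?_
  · rintro v i j j' ⟨h1, h2, h3⟩ ⟨_, h5, h6⟩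
    exact (hsub v).1 i j j' h1 h2 h5 h3 h6
  · intro v
    have e : mat (MvPolynomial.eval v P)
        (fun i j => Q (Matrix.vecCons i (Matrix.vecCons j v))) =
        mat (MvPolynomial.eval v P) (fun i j =>
          (fun w : Fin (n + 2) → ℕ => w 0 < MvPolynomial.eval (fun i : Fin n => w i.succ.succ) P ∧
            w 1 < MvPolynomial.eval (fun i : Fin n => w i.succ.succ) P ∧ Q w)
            (Matrix.vecCons i (Matrix.vecCons j v))) := by
      refine mat_congr ?_
      intro i j hi hj
      exact ⟨fun h => ⟨hi, hj, h⟩, fun h => h.2.2⟩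
    rw [e]

theorem detForm_of_cycleForm {n : ℕ} {R : (Fin n → ℕ) → Prop} (h : HasCycleForm n R) :
    HasDetForm n R := by
  obtain ⟨P, π, hb, hg, hR⟩ := h
  refine ⟨P, fun w => w 0 + 1 ≤ MvPolynomial.eval (fun i => w i.succ.succ) P ∧
    π (fun i => w i.succ.succ) (w 0 + 1) = w 1 + 1, ?_, fun v => ⟨?_, ?_⟩, ?_⟩
  · refine (hg.subst (n := n + 2) (h := Fin.cons (fun w => w 1 + 1) (Fin.cons (fun w => w 0 + 1)
      (fun i w => w i.succ.succ))) ?_).of_iff ?_
    · intro i
      refine Fin.cases ?_ (fun j => ?_) i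
      · exact (DFun.proj 1).add (DFun.const 1)
      · refine Fin.cases ?_ (fun k => ?_) j
        · exact (DFun.proj 0).add (DFun.const 1)
        · exact DFun.proj _
    · intro w
      have e1 : (fun i : Fin (n + 2) => (Fin.cons (fun w : Fin (n + 2) → ℕ => w 1 + 1)
        (Fin.cons (fun w : Fin (n + 2) → ℕ => w 0 + 1)
        (fun (i : Fin n) (w : Fin (n + 2) → ℕ) => w i.succ.succ)) : Fin (n + 2) →
          (Fin (n + 2) → ℕ) → ℕ) i w) 1 = w 0 + 1 := rfl
      exact Iff.rfl
  · rintro i j j' _ _ _ ⟨_, h1⟩ ⟨_, h2⟩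
    simp only [Matrix.cons_val_zero, Matrix.cons_val_one] at h1 h2
    have := h1.symm.trans h2
    omega
  · rintro i i' j _ _ _ ⟨k1, h1⟩ ⟨k2, h2⟩
    simp only [Matrix.cons_val_zero, Matrix.cons_val_one, Matrix.cons_val_succ] at h1 h2 k1 k2
    have := (hb v).injOn (show i + 1 ∈ Set.Iic _ from k1) (show i' + 1 ∈ Set.Iic _ from k2) (h1.trans h2.symm)
    omega
  · intro v
    have hd := det_of_cycles (hb v).mapsTo (hb v).injOn
    have e : mat (MvPolynomial.eval v P) (fun i j =>
        (fun w : Fin (n + 2) → ℕ => w 0 + 1 ≤ MvPolynomial.eval (fun i => w i.succ.succ) P ∧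
          π (fun i => w i.succ.succ) (w 0 + 1) = w 1 + 1)
          (Matrix.vecCons i (Matrix.vecCons j v))) =
        mat (MvPolynomial.eval v P) (fun i j => π v (i + 1) = j + 1) := by
      refine mat_congr ?_
      intro i j hi _
      simp only [Matrix.cons_val_zero, Matrix.cons_val_one, Matrix.cons_val_succ]
      constructor
      · exact fun h => h.2
      · exact fun h => ⟨hi, h⟩
    rw [e]
    constructor
    · intro h; exact hd.1 ((hR v).1 h)
    · intro h
      refine hd.2 ?_
      rw [(hR v).2 h]; omega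

theorem e2Star_of_detForm {n : ℕ} {R : (Fin n → ℕ) → Prop} (h : HasDetForm n R) :
    E2Star n R := by
  obtain ⟨P, Q, hQ, hsub, hR⟩ := h
  refine (e2Star_detZero P Q hQ hsub).not.of_iff ?_
  intro v
  constructor
  · intro h h0
    have := (hR v).1 h
    rw [h0] at this
    omega
  · intro h
    by_contra hn
    exact h ((hR v).2 hn)

/-- The standard single cycle on `[0,z]`. -/
def shift (z d : ℕ) : ℕ := if d = z then 0 else d + 1

theorem shift_bijOn (z : ℕ) : Set.BijOn (shift z) (Set.Iic z) (Set.Iic z) := by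
  have hm : Set.MapsTo (shift z) (Set.Iic z) (Set.Iic z) := by
    intro d hd
    simp only [Set.mem_Iic] at hd ⊢
    unfold shift
    split_ifs <;> omega
  rw [← Set.Finite.injOn_iff_bijOn_of_mapsTo (Set.finite_Iic z) hm]
  intro d hd e he h
  simp only [Set.mem_Iic] at hd he
  unfold shift at h
  split_ifs at h <;> omega

theorem shift_single (z : ℕ) : numCycles (shift z) z = 1 := by
  rw [numCycles_eq_one_iff (shift_bijOn z).mapsTo (shift_bijOn z).injOn]
  intro x hx
  refine ⟨x, ?_⟩
  induction x with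
  | zero => rfl
  | succ x ih =>
    rw [Function.iterate_succ_apply', ih (by omega)]
    unfold shift
    rw [if_neg (by omega)]

/-- If single cycles are definable, then `Delta0 = E2Star`. -/
theorem eq_of_cycles
    (H : ∀ π : ℕ → ℕ → ℕ, (∀ z, Set.BijOn (π z) (Set.Iic z) (Set.Iic z)) →
      Delta0 3 (fun v => v 1 ≤ v 0 ∧ π (v 0) (v 1) = v 2) →
      (∀ z, numCycles (π z) z = 1 ∨ numCycles (π z) z = 3) →
      Delta0 1 (fun v => numCycles (π (v 0)) (v 0) = 1))
    (k : ℕ) (R : (Fin k → ℕ) → Prop) (hR : E2Star k R) : Delta0 k R := by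
  classical
  obtain ⟨f, g, h0, h1, h2, hf, hg, hg2, hRf⟩ := hR.normalForm
  let π : ℕ → ℕ → ℕ := fun z d =>
    if z % 2 = 1 ∧ 5 ≤ z then glue f z ((z - 1) / 2) d else shift z d
  have hπ1 : ∀ z, z % 2 = 1 ∧ 5 ≤ z → π z = glue f z ((z - 1) / 2) := by
    intro z hz
    funext d
    simp only [π, if_pos hz]
  have hπ2 : ∀ z, ¬ (z % 2 = 1 ∧ 5 ≤ z) → π z = shift z := by
    intro z hz
    funext d
    simp only [π, if_neg hz]
  have hb : ∀ z, Set.BijOn (π z) (Set.Iic z) (Set.Iic z) := by
    intro z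
    by_cases hz : z % 2 = 1 ∧ 5 ≤ z
    · rw [hπ1 z hz]
      exact glue_bijOn h0 h1 h2 (by omega)
    · rw [hπ2 z hz]
      exact shift_bijOn z
  have hz3 : DFun 3 (fun v => v 0) := DFun.proj 0
  have hd3 : DFun 3 (fun v => v 1) := DFun.proj 1
  have hhalf : DFun 3 (fun v => (v 0 - 1) / 2) := (hz3.sub (DFun.const 1)).half
  have hπD : DFun 3 (fun v => π (v 0) (v 1)) := by
    refine DFun.ite ?_ (DFun.glue hf hz3 hhalf hd3) ?_
    · exact (Delta0.eqFun hz3.mod2 (DFun.const 1)).and (Delta0.leFun (DFun.const 5) hz3)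
    · exact DFun.ite (Delta0.eqFun hd3 hz3) (DFun.const 0) (hd3.add (DFun.const 1))
  have hgr : Delta0 3 (fun v => v 1 ≤ v 0 ∧ π (v 0) (v 1) = v 2) :=
    (Delta0.leFun hd3 hz3).and (Delta0.eqFun hπD (DFun.proj 2))
  have hdich : ∀ z, numCycles (π z) z = 1 ∨ numCycles (π z) z = 3 := by
    intro z
    by_cases hz : z % 2 = 1 ∧ 5 ≤ z
    · rw [hπ1 z hz]
      by_cases hr : ∃ t, f^[t] ((z - 1) / 2) = 1
      · exact Or.inl (glue_one h0 h1 h2 hz.1 (by omega) (by omega) hr)
      · exact Or.inr (glue_three h0 h1 h2 hz.1 (by omega) (by omega) hr)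
    · rw [hπ2 z hz]
      exact Or.inl (shift_single z)
  have hT := H π hb hgr hdich
  have hgo : DFun k (fun v => 2 * g v + 1) := ((DFun.const 2).mul hg).add (DFun.const 1)
  refine (Delta0.comp1 (P := fun z => numCycles (π z) z = 1) hT hgo).of_iff ?_
  intro v
  have hv := hg2 v
  have hz : (2 * g v + 1) % 2 = 1 ∧ 5 ≤ 2 * g v + 1 := by omega
  have e : (2 * g v + 1 - 1) / 2 = g v := by omega
  rw [hπ1 _ hz, e, hRf v]
  constructor
  · intro h
    exact glue_one h0 h1 h2 hz.1 hv (by omega) h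
  · intro h
    by_contra hn
    have := glue_three h0 h1 h2 hz.1 hv (z := 2 * g v + 1) (by omega) hn
    omega

/-- **Main theorem.** -/
theorem result :
    (∀ (n : ℕ) (R : (Fin n → ℕ) → Prop),
      List.TFAE [E2Star n R, HasCycleForm n R, HasDetForm n R]) ∧
    List.TFAE [
      ∀ (k : ℕ) (R : (Fin k → ℕ) → Prop), E2Star k R ↔ Delta0 k R,
      ∀ π : ℕ → ℕ → ℕ, (∀ z, Set.BijOn (π z) (Set.Iic z) (Set.Iic z)) →
        Delta0 3 (fun v => v 1 ≤ v 0 ∧ π (v 0) (v 1) = v 2) →
        (∀ z, numCycles (π z) z = 1 ∨ numCycles (π z) z = 3) →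
        Delta0 1 (fun v => numCycles (π (v 0)) (v 0) = 1),
      ∀ q : ℕ → ℕ → ℕ → Prop, Delta0 3 (fun v => q (v 0) (v 1) (v 2)) →
        (∀ z, SubPerm z (q z)) →
        Delta0 1 (fun v => (1 - mat (v 0) (q (v 0))).det = 0)] := by
  refine ⟨?_, ?_⟩
  · intro n R
    tfae_have 1 → 2 := cycleForm_of_e2Star
    tfae_have 2 → 3 := detForm_of_cycleForm
    tfae_have 3 → 1 := e2Star_of_detForm
    tfae_finish
  · tfae_have 2 → 1 := fun H k R => ⟨eq_of_cycles H k R, fun h => h.e2Star⟩
    tfae_have 1 → 3 := by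
      intro H q hq hsub
      refine (H 1 _).mp ?_
      have hQ : Delta0 3 (fun w => q (w 2) (w 0) (w 1)) :=
        Delta0.comp3 (P := fun z i j => q z i j) hq (DFun.proj 2) (DFun.proj 0) (DFun.proj 1)
      have := e2Star_detZero (n := 1) (X 0) (fun w => q (w 2) (w 0) (w 1)) hQ (by
        intro v
        rw [eval_X]
        exact hsub (v 0))
      refine this.of_iff ?_
      intro v
      rw [eval_X]
      exact Iff.rfl
    tfae_have 3 → 2 := by
      intro H π hb hg _
      have hq : Delta0 3 (fun v => (fun z i j => i + 1 ≤ z ∧ π z (i + 1) = j + 1)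
          (v 0) (v 1) (v 2)) := by
        exact Delta0.comp3 (P := fun z x y => x ≤ z ∧ π z x = y) hg (DFun.proj 0)
          ((DFun.proj 1).add (DFun.const 1)) ((DFun.proj 2).add (DFun.const 1))
      have h1 := H (fun z i j => i + 1 ≤ z ∧ π z (i + 1) = j + 1) hq (by
        intro z
        refine ⟨?_, ?_⟩
        · rintro i j j' _ _ _ ⟨_, h1⟩ ⟨_, h2⟩
          have := h1.symm.trans h2
          omega
        rintro i i' j _ _ _ ⟨k1, h1⟩ ⟨k2, h2⟩
        have := (hb z).injOn (show i + 1 ∈ Set.Iic z from k1) (show i' + 1 ∈ Set.Iic z from k2) (h1.trans h2.symm)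
        omega)
      refine h1.not.of_iff ?_
      intro v
      have e : mat (v 0) ((fun z i j => i + 1 ≤ z ∧ π z (i + 1) = j + 1) (v 0)) =
          mat (v 0) (fun i j => π (v 0) (i + 1) = j + 1) := by
        refine mat_congr ?_
        intro i j hi _
        exact ⟨fun h => h.2, fun h => ⟨hi, h⟩⟩
      rw [e]
      have hd := det_of_cycles (hb (v 0)).mapsTo (hb (v 0)).injOn
      constructor
      · intro h h'
        rw [hd.1 h] at h'
        omega
      · intro h
        by_contra hn
        exact h (hd.2 hn)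
    tfae_finish

end Pool.Agent.Results.MP_a56640_lc.CycleNormalForm
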