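import Mathlib
import Pool.Agent.Grz.Cycles
import Pool.Agent.Grz.Iter

/-!
`Delta0 = E2Star` holds if and only if cycles of permutations with bounded-formula graph are
separated by invariant sets that are definable by one bounded formula with one parameter of
polynomial size.
-/

set_option autoImplicit false

namespace Pool.Agent.Results.MP_a56640_lc.PermInvariants

open Pool.Agent.Grz

/-- Separation gives a `Delta0` definition of the set of points whose orbit ends in `1`. -/
theorem reach_delta0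
    (H : ∀ π : ℕ → ℕ → ℕ, (∀ z, Set.BijOn (π z) (Set.Iic z) (Set.Iic z)) →
      Delta0 3 (fun v => v 1 ≤ v 0 ∧ π (v 0) (v 1) = v 2) →
      ∃ (c : ℕ) (ψ : (Fin 3 → ℕ) → Prop), Delta0 3 ψ ∧
        ∀ z x, x ≤ z → (∀ t, (π z)^[t] x ≠ 0) →
          ∃ a, a ≤ (z + 2) ^ c ∧ ψ ![a, z, x] ∧ ¬ ψ ![a, z, 0] ∧
            ∀ u, u ≤ z → (ψ ![a, z, u] ↔ ψ ![a, z, π z u]))
    (f : ℕ → ℕ) (h0 : f 0 = 0) (h1 : f 1 = 1) (h2 : ∀ x, 2 ≤ x → f x < x)
    (hf : DFun 1 (fun v => f (v 0))) : Delta0 1 (fun v => ∃ t, f^[t] (v 0) = 1) := by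
  have hle : ∀ x, f x ≤ x := by
    intro x
    rcases Nat.lt_or_ge x 2 with h | h
    · interval_cases x
      · omega
      · omega
    · exact (h2 x h).le
  -- every orbit ends in `0` or in `1`
  have hends : ∀ x, (∃ t, f^[t] x = 0) ∨ (∃ t, f^[t] x = 1) := by
    intro x
    induction x using Nat.strong_induction_on with
    | _ x ih =>
      rcases Nat.lt_or_ge x 2 with h | h
      · interval_cases x
        · exact Or.inl ⟨0, rfl⟩
        · exact Or.inr ⟨0, rfl⟩
      · rcases ih (f x) (h2 x h) with ⟨t, ht⟩ | ⟨t, ht⟩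
        · exact Or.inl ⟨t + 1, by rw [Function.iterate_succ_apply, ht]⟩
        · exact Or.inr ⟨t + 1, by rw [Function.iterate_succ_apply, ht]⟩
  have hone : ∀ t, f^[t] 1 = 1 := fun t => Function.iterate_fixed h1 t
  have hzero : ∀ t, f^[t] 0 = 0 := fun t => Function.iterate_fixed h0 t
  have hexcl : ∀ x, (∃ t, f^[t] x = 0) → ¬ (∃ t, f^[t] x = 1) := by
    rintro x ⟨s, hs⟩ ⟨t, ht⟩
    rcases Nat.le_total s t with h | h
    · obtain ⟨d, rfl⟩ := Nat.exists_eq_add_of_le h
      rw [Nat.add_comm, Function.iterate_add_apply, hs, hzero] at ht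
      omega
    · obtain ⟨d, rfl⟩ := Nat.exists_eq_add_of_le h
      rw [Nat.add_comm, Function.iterate_add_apply, ht, hone] at hs
      omega
  have htour : DFun 2 (fun v => tour f (v 0) (v 1)) := DFun.tour hf (DFun.proj 0) (DFun.proj 1)
  obtain ⟨c, ψ, hψ, hsep⟩ := H (tour f) (tour_bijOn hle) (by
    refine (Delta0.leFun (DFun.proj 1) (DFun.proj 0)).and ?_
    exact Delta0.eqFun (DFun.tour hf (DFun.proj 0) (DFun.proj 1)) (DFun.proj 2))
  have hψ' : ∀ {n : ℕ} {a z u : (Fin n → ℕ) → ℕ}, DFun n a → DFun n z → DFun n u →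
      Delta0 n (fun v => ψ ![a v, z v, u v]) := by
    intro n a z u ha hz hu
    refine Delta0.comp3 (P := fun a z u => ψ ![a, z, u]) ?_ ha hz hu
    refine hψ.of_iff ?_
    intro v
    have : ![v 0, v 1, v 2] = v := by
      funext i; fin_cases i <;> rfl
    rw [this]
  -- the definition
  have hpow : ∀ k : ℕ, DFun 1 (fun v => (2 * v 0 + 1 + 2) ^ k) := by
    intro k
    induction k with
    | zero => simpa using DFun.const (n := 1) 1
    | succ k ih =>
      have hb : DFun 1 (fun v => 2 * v 0 + 1 + 2) :=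
        (((DFun.const 2).mul (DFun.proj 0)).add (DFun.const 1)).add (DFun.const 2)
      simpa [pow_succ] using ih.mul hb
  have hx2 : DFun 2 (fun v => v 1) := DFun.proj 1
  have ha2 : DFun 2 (fun v => v 0) := DFun.proj 0
  have hz2 : DFun 2 (fun v => 2 * v 1 + 1) := ((DFun.const 2).mul hx2).add (DFun.const 1)
  have hu3 : DFun 3 (fun v => v 0) := DFun.proj 0
  have ha3 : DFun 3 (fun v => v 1) := DFun.proj 1
  have hz3 : DFun 3 (fun v => 2 * v 2 + 1) :=
    ((DFun.const 2).mul (DFun.proj 2)).add (DFun.const 1)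
  have hall : Delta0 2 (fun v => ∀ u, u ≤ 2 * v 1 + 1 →
      (ψ ![v 0, 2 * v 1 + 1, u] ↔ ψ ![v 0, 2 * v 1 + 1, tour f (2 * v 1 + 1) u])) :=
    Delta0.ballFun (P := fun u v =>
      (ψ ![v 0, 2 * v 1 + 1, u] ↔ ψ ![v 0, 2 * v 1 + 1, tour f (2 * v 1 + 1) u])) hz2
      ((hψ' ha3 hz3 hu3).iff (hψ' ha3 hz3 (DFun.tour hf hz3 hu3)))
  have hmain := Delta0.bexFun (P := fun a v =>
      (ψ ![a, 2 * v 0 + 1, 2 * v 0] ∧ ¬ ψ ![a, 2 * v 0 + 1, 0] ∧
        ∀ u, u ≤ 2 * v 0 + 1 →
          (ψ ![a, 2 * v 0 + 1, u] ↔ ψ ![a, 2 * v 0 + 1, tour f (2 * v 0 + 1) u])))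
      (hpow c)
      ((hψ' ha2 hz2 ((DFun.const 2).mul hx2)).and ((hψ' ha2 hz2 (DFun.const 0)).not.and hall))
  refine hmain.of_iff ?_
  intro v
  set x := v 0 with hx
  have hxm : x < (2 * x + 1 + 1) / 2 := by omega
  have hcyc := reach_tour_iff (f := f) hle (z := 2 * x + 1) (x := x) (r := 0) hxm h0
  constructor
  · intro hr
    have hnr : ¬ Reach (tour f (2 * x + 1)) 0 (2 * x) := by
      intro h
      exact hexcl x (hcyc.mp h) hr
    have hnr' : ∀ t, (tour f (2 * x + 1))^[t] (2 * x) ≠ 0 := by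
      intro t ht
      apply hnr
      exact Reach.symm (z := 2 * x + 1) (tour_mapsTo hle _) (tour_injective hle _).injOn
        (by omega) ⟨t, ht⟩
    exact hsep (2 * x + 1) (2 * x) (by omega) hnr'
  · rintro ⟨a, _, hax, ha0, hinv⟩
    rcases hends x with h | h
    · exfalso
      obtain ⟨s, hs⟩ := hcyc.mpr h
      have key : ∀ s, (tour f (2 * x + 1))^[s] 0 ≤ 2 * x + 1 ∧
          ¬ ψ ![a, 2 * x + 1, (tour f (2 * x + 1))^[s] 0] := by
        intro s
        induction s with
        | zero => exact ⟨by simp, ha0⟩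
        | succ s ih =>
          rw [Function.iterate_succ_apply']
          refine ⟨tour_mapsTo hle _ ih.1, ?_⟩
          rw [← hinv _ ih.1]
          exact ih.2
      have := (key s).2
      simp only [Nat.mul_zero] at hs
      rw [hs] at this
      exact this hax
    · exact h

/-- Conversely, if `Delta0 = E2Star` then the cycle of a point is itself definable with the
point as parameter. -/
theorem separation_of_eq (H : ∀ (k : ℕ) (R : (Fin k → ℕ) → Prop), E2Star k R → Delta0 k R)
    (π : ℕ → ℕ → ℕ) (hb : ∀ z, Set.BijOn (π z) (Set.Iic z) (Set.Iic z))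
    (hg : Delta0 3 (fun v => v 1 ≤ v 0 ∧ π (v 0) (v 1) = v 2)) :
    ∃ (c : ℕ) (ψ : (Fin 3 → ℕ) → Prop), Delta0 3 ψ ∧
      ∀ z x, x ≤ z → (∀ t, (π z)^[t] x ≠ 0) →
        ∃ a, a ≤ (z + 2) ^ c ∧ ψ ![a, z, x] ∧ ¬ ψ ![a, z, 0] ∧
          ∀ u, u ≤ z → (ψ ![a, z, u] ↔ ψ ![a, z, π z u]) := by
  classical
  -- the total version of the family of maps
  let P : ℕ → (Fin 2 → ℕ) → ℕ := fun x v => if x ≤ v 1 then π (v 1) x else 0
  have hP : E2 3 (fun w => P (w 0) (fun i => w i.succ)) := by
    refine E2.ofGraph (b := fun w => w 2) (E2.proj 2) ?_ ?_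
    · intro v
      simp only [P]
      split_ifs with h
      · exact (hb _).mapsTo h
      · omega
    · have hw : DFun 4 (fun v => v 0) := DFun.proj 0
      have hx : DFun 4 (fun v => v 1) := DFun.proj 1
      have hz : DFun 4 (fun v => v 3) := DFun.proj 3
      have h1 := Delta0.comp3 (P := fun z x y => x ≤ z ∧ π z x = y) hg hz hx hw
      have h2 := h1.or ((Delta0.leFun hx hz).not.and (Delta0.eqFun hw (DFun.const 0)))
      refine (h2.e2Star).of_iff ?_
      intro w
      have e1 : (fun i : Fin 2 => w i.succ.succ) 1 = w 3 := rfl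
      have e0 : w (Fin.succ 0) = w 1 := rfl
      simp only [P, e1, e0]
      by_cases h : w 1 ≤ w 3
      · rw [if_pos h]
        constructor
        · intro h3; exact Or.inl ⟨h, h3.symm⟩
        · rintro (⟨_, h3⟩ | ⟨h3, _⟩)
          · exact h3.symm
          · exact absurd h h3
      · rw [if_neg h]
        constructor
        · intro h3; exact Or.inr ⟨h, h3⟩
        · rintro (⟨h3, _⟩ | ⟨_, h3⟩)
          · exact absurd h3 h
          · exact h3
  have hPle : ∀ x v, P x v ≤ v 1 := by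
    intro x v
    simp only [P]
    split_ifs with h
    · exact (hb _).mapsTo h
    · omega
  have hit : E2 3 (fun w => (fun x => P x (fun i => w i.succ))^[w 0] (w 1)) :=
    E2.iterate (n := 2) (P := P) (S := fun v => v 0) (B := fun v => v 0 + v 1) hP (E2.proj 0)
      ((E2.proj 0).add (E2.proj 1)) (by
        intro t v
        rcases t with _ | t
        · simp
        · rw [Function.iterate_succ_apply']
          exact (hPle _ _).trans (Nat.le_add_left _ _))
  -- `ψ (a, z, u)`: the point `a ≤ z` reaches `u` in at most `z` steps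
  let ψ : (Fin 3 → ℕ) → Prop := fun v =>
    v 0 ≤ v 1 ∧ ∃ t, t ≤ v 1 ∧ (fun x => P x (fun i => v i.castSucc))^[t] (v 0) = v 2
  have hψ : E2Star 3 ψ := by
    refine (E2Star.leFun (E2.proj 0) (E2.proj 1)).and ?_
    refine E2Star.bex (P := fun t v =>
      (fun x => P x (fun i => v i.castSucc))^[t] (v 0) = v 2) (E2.proj 1) ?_
    refine E2Star.eqFun ?_ (E2.proj 3)
    have := hit.comp (n := 4) (hs := ![fun w => w 0, fun w => w 1, fun w => w 2]) (by
      intro i
      fin_cases i
      · exact E2.proj 0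
      · exact E2.proj 1
      · exact E2.proj 2)
    refine this.congr ?_
    intro w
    rfl
  have hiter : ∀ z a t, a ≤ z → (fun x => P x ![a, z])^[t] a = (π z)^[t] a ∧
      (π z)^[t] a ≤ z := by
    intro z a t ha
    induction t with
    | zero => exact ⟨rfl, ha⟩
    | succ t ih =>
      rw [Function.iterate_succ_apply', Function.iterate_succ_apply', ih.1]
      refine ⟨?_, (hb z).mapsTo ih.2⟩
      simp only [P, Matrix.cons_val_one, Matrix.cons_val_zero]
      rw [if_pos ih.2]
  have hψ_iff : ∀ a z u, a ≤ z → (ψ ![a, z, u] ↔ Reach (π z) a u) := by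
    intro a z u ha
    have hvec : (fun i : Fin 2 => (![a, z, u] : Fin 3 → ℕ) i.castSucc) = ![a, z] := by
      funext i; fin_cases i <;> rfl
    simp only [ψ, hvec]
    constructor
    · rintro ⟨_, t, _, ht⟩
      refine ⟨t, ?_⟩
      rw [← (hiter z a t ha).1]
      exact ht
    · intro h
      obtain ⟨t, ht1, ht2⟩ := Reach.bounded (hb z).mapsTo (hb z).injOn ha h
      refine ⟨ha, t, ht1, ?_⟩
      have := (hiter z a t ha).1
      rw [ht2] at this
      exact this
  refine ⟨1, ψ, H 3 ψ hψ, ?_⟩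
  intro z x hx hne
  refine ⟨x, by rw [pow_one]; omega, ?_, ?_, ?_⟩
  · rw [hψ_iff x z x hx]
    exact Reach.refl _ _
  · rw [hψ_iff x z 0 hx]
    rintro ⟨t, ht⟩
    exact hne t ht
  · intro u hu
    rw [hψ_iff x z u hx, hψ_iff x z _ hx]
    constructor
    · intro h
      exact h.trans (Reach.step _ _)
    · intro h
      have h1 : Reach (π z) (π z u) u :=
        Reach.symm (hb z).mapsTo (hb z).injOn hu (Reach.step _ _)
      exact h.trans h1

/-- The equality `Delta0 = E2Star` is equivalent to the following separation property. For every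
family of permutations `π z` of `[0, z]` whose graph is defined by a bounded formula there are
a bounded formula `ψ` and an exponent `c` such that every `x ≤ z` outside the cycle of `0` is
separated from `0` by a `π z`-invariant set `{u ≤ z : ψ (a, z, u)}` with a parameter
`a ≤ (z + 2) ^ c`. -/
theorem result :
    (∀ (k : ℕ) (R : (Fin k → ℕ) → Prop), Delta0 k R ↔ E2Star k R) ↔
    (∀ π : ℕ → ℕ → ℕ, (∀ z, Set.BijOn (π z) (Set.Iic z) (Set.Iic z)) →
      Delta0 3 (fun v => v 1 ≤ v 0 ∧ π (v 0) (v 1) = v 2) →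
      ∃ (c : ℕ) (ψ : (Fin 3 → ℕ) → Prop), Delta0 3 ψ ∧
        ∀ z x, x ≤ z → (∀ t, (π z)^[t] x ≠ 0) →
          ∃ a, a ≤ (z + 2) ^ c ∧ ψ ![a, z, x] ∧ ¬ ψ ![a, z, 0] ∧
            ∀ u, u ≤ z → (ψ ![a, z, u] ↔ ψ ![a, z, π z u])) := by
  constructor
  · intro H π hb hg
    exact separation_of_eq (fun k R hR => (H k R).mpr hR) π hb hg
  · intro H k R
    constructor
    · exact fun h => h.e2Star
    · exact fun h => delta0_of_reach (reach_delta0 H) h

end Pool.Agent.Results.MP_a56640_lc.PermInvariants
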